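import Pool.Agent.Lib.MP_4b24a5_an_T3.Defs
import Pool.Agent.Lib.MP_4b24a5_an.LdB

set_option autoImplicit false

/-!
# MP_4b24a5_an, project T3: the order in terms of the proximity function
-/

noncomputable section

namespace Pool.Agent.MP4b24a5.T3

open Complex Metric Set MeasureTheory Filter Topology

variable {f g : ℂ → ℂ}

private theorem od_nonneg (hf : AnalyticOnNhd ℂ f (ball 0 1)) {u : ℂ} (hu : ‖u‖ < 1) :
    ((max (-od f u) 0 : ℤ) : ℝ) = 0 := by
  have h1 : AnalyticAt ℂ f u := hf u (by rwa [mem_ball_zero_iff])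
  have h2 : 0 ≤ od f u := WithTop.untop₀_nonneg.2 h1.meromorphicOrderAt_nonneg
  rw [max_eq_right (by omega), Int.cast_zero]

/-- PROOF. `cnt f r = 0`: `od f u ≥ 0` at points of analyticity, and `log⁺ (r / ‖u‖) = 0` for
`‖u‖ ≥ r`. -/
theorem T_eq (hf : AnalyticOnNhd ℂ f (ball 0 1)) {r : ℝ} (h0 : 0 < r) (h1 : r < 1) :
    T f r = prox f r := by
  have h4 : S (fun u => ((max (-od f u) 0 : ℤ) : ℝ)) r = 0 := by
    unfold S
    refine finsum_eq_zero_of_forall_eq_zero fun u => ?_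
    show ((max (-od f u) 0 : ℤ) : ℝ) * Real.posLog (r / ‖u‖) = 0
    rcases lt_or_ge ‖u‖ 1 with hu | hu
    · rw [od_nonneg hf hu, zero_mul]
    · have h5 : Real.posLog (r / ‖u‖) = 0 := by
        rw [Real.posLog_eq_zero_iff, abs_of_nonneg (div_nonneg h0.le (norm_nonneg u)),
          div_le_one (by linarith)]
        linarith
      rw [h5, mul_zero]
  unfold T cnt
  rw [h4, od_nonneg hf (by simp), zero_mul, add_zero, add_zero]

private theorem ev_T (hf : AnalyticOnNhd ℂ f (ball 0 1)) :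
    ∀ᶠ r in 𝓝[<] (1 : ℝ), 0 < L r ∧ T f r = prox f r := by
  filter_upwards [L_tendsto.eventually_gt_atTop 0,
    Ioo_mem_nhdsLT (by norm_num : (0 : ℝ) < 1)] with r h1 h2
  exact ⟨h1, T_eq hf h2.1 h2.2⟩

theorem prox_nonneg (r : ℝ) : 0 ≤ prox f r := by
  unfold prox
  exact Real.circleAverage_nonneg_of_nonneg fun x _ => Real.posLog_nonneg

/-- PROOF. `Filter.limsup_le_iff` or the definition; `L r > 0` near `1`, `T_eq`. -/
theorem alph_le_iff (hf : AnalyticOnNhd ℂ f (ball 0 1)) {K : ℝ} :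
    alph f ≤ (K : EReal) ↔ Bd f K := by
  refine ⟨fun h K' hK => ?_, fun h => ?_⟩
  · have h1 : alph f < (K' : EReal) := lt_of_le_of_lt h (EReal.coe_lt_coe_iff.2 hK)
    have h2 := Filter.eventually_lt_of_limsup_lt h1
    filter_upwards [h2, ev_T hf] with r h3 h4
    have h5 : T f r / L r < K' := EReal.coe_lt_coe_iff.1 h3
    rw [div_lt_iff₀ h4.1, h4.2] at h5
    exact h5.le
  · by_contra hc
    obtain ⟨K', h1, h2⟩ := EReal.lt_iff_exists_real_btwn.1 (not_le.1 hc)
    refine absurd h2 (not_lt.2 ?_)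
    refine Filter.limsup_le_of_le (by isBoundedDefault) ?_
    filter_upwards [h K' (EReal.coe_lt_coe_iff.1 h1), ev_T hf] with r h3 h4
    rw [EReal.coe_le_coe_iff, div_le_iff₀ h4.1, h4.2]
    exact h3

theorem alph_nonneg (hf : AnalyticOnNhd ℂ f (ball 0 1)) : 0 ≤ alph f := by
  refine Filter.le_limsup_of_frequently_le (Eventually.frequently ?_) (by isBoundedDefault)
  filter_upwards [ev_T hf] with r h
  rw [← EReal.coe_zero, EReal.coe_le_coe_iff, h.2]
  exact div_nonneg (prox_nonneg r) h.1.le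

/-- PROOF. `L r` tends to infinity (`L_tendsto`). -/
theorem bd_of_le {C K : ℝ} (h : ∀ᶠ r in 𝓝[<] (1 : ℝ), prox g r ≤ prox f r + C) (hf : Bd f K) :
    Bd g K := by
  intro K' hK
  have h1 : 0 < (K' - K) / 2 := by linarith
  filter_upwards [h, hf ((K + K') / 2) (by linarith),
    L_tendsto.eventually_ge_atTop (C / ((K' - K) / 2))] with r h2 h3 h4
  rw [div_le_iff₀ h1] at h4
  have h5 : K' * L r = (K + K') / 2 * L r + L r * ((K' - K) / 2) := by ring
  rw [h5]
  linarith

end Pool.Agent.MP4b24a5.T3
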