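import Pool.Agent.Lib.MP_4b24a5_an_T3.Defs

set_option autoImplicit false

/-!
# MP_4b24a5_an, project T3: Moebius transformations
-/

noncomputable section

namespace Pool.Agent.MP4b24a5.T3

open Complex Metric Set MeasureTheory Filter Topology

variable {b c : ℝ} {z : ℂ}

theorem mb_den (hb : |b| < 1) (hz : ‖z‖ < 1) : (1 : ℂ) - b * z ≠ 0 := by
  intro h
  have h1 : (b : ℂ) * z = 1 := (sub_eq_zero.1 h).symm
  have h2 : |b| * ‖z‖ = 1 := by
    have h3 := congrArg norm h1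
    rwa [norm_mul, Complex.norm_real, Real.norm_eq_abs, norm_one] at h3
  have h4 : |b| * ‖z‖ ≤ |b| * 1 := mul_le_mul_of_nonneg_left hz.le (abs_nonneg b)
  linarith

/-- PROOF. `‖1 - b z‖ ^ 2 - ‖z - b‖ ^ 2 = (1 - b ^ 2) (1 - ‖z‖ ^ 2)`; with `t = ‖z‖` this gives
`1 - ‖mb b z‖ ^ 2 = (1 - b ^ 2) (1 - t ^ 2) / ‖1 - b z‖ ^ 2 ≥ (1 - b ^ 2) (1 - t ^ 2) /
(1 + |b| t) ^ 2 = 1 - ((t + |b|) / (1 + |b| t)) ^ 2`. -/
theorem mb_norm_le (hb : |b| < 1) (hz : ‖z‖ < 1) :
    ‖mb b z‖ ≤ (‖z‖ + |b|) / (1 + |b| * ‖z‖) := by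
  have hden := mb_den hb hz
  have hN : 0 < ‖(1 : ℂ) - b * z‖ := norm_pos_iff.2 hden
  have ht := norm_nonneg z
  have hb0 := abs_nonneg b
  have hD : 0 < 1 + |b| * ‖z‖ := by positivity
  have hsq : |b| ^ 2 = b ^ 2 := sq_abs b
  have e1 : ‖(1 : ℂ) - b * z‖ ^ 2 = 1 - 2 * (b * z.re) + |b| ^ 2 * ‖z‖ ^ 2 := by
    rw [hsq, Complex.sq_norm, Complex.sq_norm, Complex.normSq_apply, Complex.normSq_apply]
    simp only [Complex.sub_re, Complex.sub_im, Complex.mul_re, Complex.mul_im,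
      Complex.ofReal_re, Complex.ofReal_im, Complex.one_re, Complex.one_im]
    ring
  have e2 : ‖z - b‖ ^ 2 = ‖z‖ ^ 2 - 2 * (b * z.re) + |b| ^ 2 := by
    rw [hsq, Complex.sq_norm, Complex.sq_norm, Complex.normSq_apply, Complex.normSq_apply]
    simp only [Complex.sub_re, Complex.sub_im, Complex.ofReal_re, Complex.ofReal_im]
    ring
  have hre : |b * z.re| ≤ |b| * ‖z‖ := by
    rw [abs_mul]
    exact mul_le_mul_of_nonneg_left (Complex.abs_re_le_norm z) hb0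
  have hlow := (abs_le.1 hre).1
  rw [mb, norm_div, div_le_div_iff₀ hN hD,
    ← pow_le_pow_iff_left₀ (by positivity) (by positivity) (two_ne_zero), mul_pow, mul_pow, e1, e2]
  have h1 : 0 ≤ 1 - |b| ^ 2 := by nlinarith
  have h2 : 0 ≤ 1 - ‖z‖ ^ 2 := by nlinarith
  have h3 : 0 ≤ |b| * ‖z‖ + b * z.re := by linarith
  have h4 := mul_nonneg (mul_nonneg h1 h2) h3
  nlinarith

theorem mb_mem (hb : |b| < 1) (hz : ‖z‖ < 1) : ‖mb b z‖ < 1 := by
  have ht := norm_nonneg z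
  have hb0 := abs_nonneg b
  have hD : 0 < 1 + |b| * ‖z‖ := by positivity
  refine lt_of_le_of_lt (mb_norm_le hb hz) ?_
  rw [div_lt_one hD]
  nlinarith

theorem mb_an (hb : |b| < 1) : AnalyticOnNhd ℂ (mb b) (ball 0 1) := by
  intro w hw
  have hden := mb_den hb (mem_ball_zero_iff.1 hw)
  have h1 : AnalyticAt ℂ (fun z : ℂ => z - b) w := analyticAt_id.sub analyticAt_const
  have h2 : AnalyticAt ℂ (fun z : ℂ => 1 - b * z) w :=
    analyticAt_const.sub (analyticAt_const.mul analyticAt_id)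
  exact h1.div h2 hden

theorem mb_at_zero (b : ℝ) : mb b 0 = -b := by
  rw [mb, zero_sub, mul_zero, sub_zero, div_one]

theorem mb_zero (z : ℂ) : mb 0 z = z := by
  rw [mb, Complex.ofReal_zero, zero_mul, sub_zero, sub_zero, div_one]

/-- PROOF. `mb b (mb e z) = mb ((b + e) / (1 + b e)) z`, and `(b + e) / (1 + b e) = c` for
`e = (c - b) / (1 - b c)`. -/
theorem mb_comp (hb : |b| < 1) (hc : |c| < 1) (hz : ‖z‖ < 1) :
    |(c - b) / (1 - b * c)| < 1 ∧ mb b (mb ((c - b) / (1 - b * c)) z) = mb c z := by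
  have hb1 := abs_lt.1 hb
  have hc1 := abs_lt.1 hc
  have hK : 0 < 1 - b * c := by nlinarith
  have he : |(c - b) / (1 - b * c)| < 1 := by
    rw [abs_div, abs_of_pos hK, div_lt_one hK, abs_lt]
    constructor
    · nlinarith
    · nlinarith
  refine ⟨he, ?_⟩
  have hKC : (1 : ℂ) - b * c ≠ 0 := by
    have h0 : ((1 - b * c : ℝ) : ℂ) ≠ 0 := Complex.ofReal_ne_zero.2 hK.ne'
    push_cast at h0
    exact h0
  have hden := mb_den he hz
  have hden2 := mb_den hb (mb_mem he hz)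
  have hden3 := mb_den hc hz
  have hEK : (((c - b) / (1 - b * c) : ℝ) : ℂ) * (1 - b * c) = c - b := by
    push_cast
    exact div_mul_cancel₀ _ hKC
  have hw : mb ((c - b) / (1 - b * c)) z * (1 - (((c - b) / (1 - b * c) : ℝ) : ℂ) * z) =
      z - (((c - b) / (1 - b * c) : ℝ) : ℂ) := by
    rw [mb]
    exact div_mul_cancel₀ _ hden
  generalize mb ((c - b) / (1 - b * c)) z = w at *
  generalize (((c - b) / (1 - b * c) : ℝ) : ℂ) = E at *
  rw [mb, mb, div_eq_div_iff hden2 hden3, ← sub_eq_zero]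
  have h0 : ((w - b) * (1 - c * z) - (z - c) * (1 - b * w)) * ((1 - E * z) * (1 - b * c)) = 0 := by
    linear_combination ((1 - b * c) * ((1 - c * z) + b * (z - c))) * hw +
      ((1 - b * c) * (z ^ 2 - 1)) * hEK
  exact (mul_eq_zero.1 h0).resolve_right (mul_ne_zero hden hKC)

end Pool.Agent.MP4b24a5.T3
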