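import Pool.Agent.Lib.MP_4b24a5_an_T3.Pj

set_option autoImplicit false

/-!
# MP_4b24a5_an, project T3: the mean of log plus of a composition
-/

noncomputable section

namespace Pool.Agent.MP4b24a5.T3

open Complex Metric Set MeasureTheory Filter Topology

/-- PROOF. Let `g ζ = log⁺ ‖G ζ‖` (continuous on the circle `‖ζ‖ = R`) and
`A w = circleAverage (fun ζ => herglotzRieszKernel 0 w ζ • (g ζ : ℂ)) 0 R`, an analytic function on
`ball 0 R` (`analyticOnNhd_circleAverage_herglotzRieszKernel_smul`) with real part the Poisson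
integral (`re_circleAverage_herglotzRieszKernel_smul`, `poissonKernel_eq_re_herglotzRieszKernel`).
By `pj`, `log⁺ ‖G (ψ z)‖ ≤ re (A (ψ z))` on `‖z‖ = r`, and the circle average of `re (A (ψ z))` is
the value at `0` (mean value property of the analytic function `A ∘ ψ`). -/
theorem pj_comp {G ψ : ℂ → ℂ} (hG : AnalyticOnNhd ℂ G (ball 0 1)) {r R : ℝ} (hr : 0 < r)
    (h0 : 0 < R) (h1 : R < 1) (hψ : AnalyticOnNhd ℂ ψ (closedBall 0 r))
    (hm : ∀ z ∈ closedBall (0 : ℂ) r, ψ z ∈ ball (0 : ℂ) R) :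
    prox (fun z => G (ψ z)) r ≤ Real.circleAverage
      (fun ζ => (R ^ 2 - ‖ψ 0‖ ^ 2) / ‖ζ - ψ 0‖ ^ 2 * Real.posLog ‖G ζ‖) 0 R := by
  have hcl : closedBall (0 : ℂ) R ⊆ ball 0 1 := closedBall_subset_ball h1
  have hG0 : ContinuousOn G (ball 0 1) := hG.continuousOn
  have hcs : ContinuousOn (fun z => Real.posLog ‖G z‖) (sphere 0 R) :=
    Real.continuous_posLog.comp_continuousOn
      ((hG0.mono (sphere_subset_closedBall.trans hcl)).norm)
  have hg : CircleIntegrable (fun z => Real.posLog ‖G z‖) 0 R := hcs.circleIntegrable h0.le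
  have hgC : CircleIntegrable (fun z => ((Real.posLog ‖G z‖ : ℝ) : ℂ)) 0 R :=
    (Complex.continuous_ofReal.comp_continuousOn hcs).circleIntegrable h0.le
  have hA := analyticOnNhd_circleAverage_herglotzRieszKernel_smul hgC
  obtain ⟨A, hAd⟩ : ∃ A : ℂ → ℂ, A = fun w => Real.circleAverage
    (fun ζ => herglotzRieszKernel 0 w ζ • ((Real.posLog ‖G ζ‖ : ℝ) : ℂ)) 0 R := ⟨_, rfl⟩
  rw [← hAd] at hA
  have hre : ∀ w ∈ ball (0 : ℂ) R, (A w).re = Real.circleAverage
      (fun ζ => (R ^ 2 - ‖w‖ ^ 2) / ‖ζ - w‖ ^ 2 * Real.posLog ‖G ζ‖) 0 R := by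
    intro w hw
    rw [hAd]
    refine (re_circleAverage_herglotzRieszKernel_smul hg hw).trans ?_
    rw [← poissonKernel_eq_re_herglotzRieszKernel]
    apply Real.circleAverage_congr_sphere
    intro z hz
    rw [abs_of_pos h0, mem_sphere, dist_eq_norm] at hz
    show poissonKernel 0 w z * Real.posLog ‖G z‖ = _
    rw [poissonKernel_def, hz, sub_zero, sub_zero]
  have hAψ : ∀ z ∈ closedBall (0 : ℂ) r, AnalyticAt ℂ (fun z => A (ψ z)) z := fun z hz =>
    (hA (ψ z) (hm z hz)).comp (hψ z hz)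
  have habs : |r| = r := abs_of_pos hr
  have hharm : InnerProductSpace.HarmonicOnNhd (fun z => (A (ψ z)).re)
      (closedBall (0 : ℂ) |r|) := by
    intro z hz
    rw [habs] at hz
    exact (hAψ z hz).harmonicAt_re
  have hmean := hharm.circleAverage_eq
  have hc0 : (0 : ℂ) ∈ closedBall (0 : ℂ) r := mem_closedBall_self hr.le
  rw [← hre (ψ 0) (hm 0 hc0), ← hmean]
  have hsub : sphere (0 : ℂ) |r| ⊆ closedBall (0 : ℂ) r := by
    rw [habs]
    exact sphere_subset_closedBall
  have hψc : ContinuousOn ψ (sphere (0 : ℂ) |r|) := hψ.continuousOn.mono hsub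
  have hcomp : ContinuousOn (fun z => Real.posLog ‖G (ψ z)‖) (sphere (0 : ℂ) |r|) :=
    Real.continuous_posLog.comp_continuousOn
      ((hG0.comp hψc fun z hz => ball_subset_closedBall.trans hcl (hm z (hsub hz))).norm)
  have hcompA : ContinuousOn (fun z => (A (ψ z)).re) (sphere (0 : ℂ) |r|) := fun z hz =>
    (Complex.continuous_re.continuousAt.comp
      (hAψ z (hsub hz)).continuousAt).continuousWithinAt
  unfold prox
  refine Real.circleAverage_mono hcomp.circleIntegrable' hcompA.circleIntegrable' ?_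
  intro z hz
  have h2 := pj hG h0 h1 (hm z (hsub hz))
  rw [hre (ψ z) (hm z (hsub hz))]
  exact h2

end Pool.Agent.MP4b24a5.T3
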