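import Pool.Agent.Lib.MP_4b24a5_an_T3.AlA
import Pool.Agent.Lib.MP_4b24a5_an_T3.PjC
import Pool.Agent.Lib.MP_4b24a5_an_T3.Mob

set_option autoImplicit false

/-!
# MP_4b24a5_an, project T3: Harnack inequality for the order
-/

noncomputable section

namespace Pool.Agent.MP4b24a5.T3

open Complex Metric Set MeasureTheory Filter Topology

variable {G : ℂ → ℂ}

private def AlC_R (k r : ℝ) : ℝ := (1 + (r + k) / (1 + k * r)) / 2

private theorem AlC_sub {k r : ℝ} (hk : 0 ≤ k) (hr : 0 < r) :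
    1 - AlC_R k r = (1 - r) * ((1 - k) / (2 * (1 + k * r))) := by
  have h1 : 0 < 1 + k * r := by positivity
  unfold AlC_R
  field_simp
  ring

private theorem AlC_rho {k r : ℝ} (hk : 0 ≤ k) (hk1 : k < 1) (hr : 0 < r) (hr1 : r < 1) :
    (r + k) / (1 + k * r) < AlC_R k r ∧ AlC_R k r < 1 ∧ k < AlC_R k r := by
  have h1 : 0 < 1 + k * r := by positivity
  have h2 : (r + k) / (1 + k * r) < 1 := by
    rw [div_lt_one h1]
    nlinarith [mul_pos (sub_pos.2 hk1) (sub_pos.2 hr1)]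
  have h3 : k ≤ (r + k) / (1 + k * r) := by
    rw [le_div_iff₀ h1]
    nlinarith [mul_nonneg hr.le (mul_nonneg (sub_nonneg.2 hk1.le) (by linarith : 0 ≤ 1 + k))]
  unfold AlC_R
  refine ⟨by linarith, by linarith, by linarith⟩

private theorem AlC_tendsto {k : ℝ} (hk : 0 ≤ k) (hk1 : k < 1) :
    Tendsto (AlC_R k) (𝓝[<] (1 : ℝ)) (𝓝[<] (1 : ℝ)) := by
  refine tendsto_nhdsWithin_iff.2 ⟨?_, ?_⟩
  · have h1 : ContinuousAt (AlC_R k) 1 := by
      unfold AlC_R
      have h2 : 1 + k * 1 ≠ (0 : ℝ) := by positivity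
      fun_prop (disch := assumption)
    have h3 : AlC_R k 1 = 1 := by
      unfold AlC_R
      have h2 : 1 + k ≠ (0 : ℝ) := by positivity
      field_simp
      ring
    have h4 := h1.tendsto
    rw [h3] at h4
    exact h4.mono_left nhdsWithin_le_nhds
  · filter_upwards [Ioo_mem_nhdsLT (by norm_num : (0 : ℝ) < 1)] with r hr
    exact (AlC_rho hk hk1 hr.1 hr.2).2.1

private theorem AlC_L {k r : ℝ} (hk : 0 ≤ k) (hk1 : k < 1) (hr : 0 < r) (hr1 : r < 1) :
    L (AlC_R k r) ≤ L r + -Real.log ((1 - k) / 4) := by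
  have h1 : 0 < 1 + k * r := by positivity
  have h2 : 0 < 1 - k := by linarith
  have h3 : (1 - k) / 4 ≤ (1 - k) / (2 * (1 + k * r)) := by
    apply div_le_div_of_nonneg_left h2.le (by positivity)
    nlinarith
  have h4 : Real.log ((1 - k) / 4) ≤ Real.log ((1 - k) / (2 * (1 + k * r))) :=
    Real.log_le_log (by positivity) h3
  unfold L
  rw [AlC_sub hk hr, Real.log_mul (by linarith) (by positivity)]
  linarith

private theorem AlC_circ (hG : AnalyticOnNhd ℂ G (ball 0 1)) {c r : ℝ} (hc : |c| < 1)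
    (hr : 0 < r) (hr1 : r < 1) :
    prox (fun z => G (mb c z)) r ≤ Real.circleAverage
      (fun ζ => ((AlC_R |c| r) ^ 2 - c ^ 2) / ‖ζ + c‖ ^ 2 * Real.posLog ‖G ζ‖) 0
        (AlC_R |c| r) := by
  obtain ⟨h1, h2, h3⟩ := AlC_rho (abs_nonneg c) hc hr hr1
  have h4 : closedBall (0 : ℂ) r ⊆ ball 0 1 := closedBall_subset_ball hr1
  have h0 : 0 < AlC_R |c| r := lt_of_le_of_lt (abs_nonneg c) h3
  have h5 := pj_comp (ψ := mb c) hG hr h0 h2 ((mb_an hc).mono h4) (fun z hz => ?_)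
  · rw [mb_at_zero, norm_neg, Complex.norm_real, Real.norm_eq_abs, sq_abs] at h5
    simpa only [sub_neg_eq_add] using h5
  · rw [mem_ball_zero_iff]
    rw [mem_closedBall_zero_iff] at hz
    refine lt_of_le_of_lt (mb_norm_le hc (lt_of_le_of_lt hz hr1)) (lt_of_le_of_lt ?_ h1)
    have h6 := abs_nonneg c
    have h7 := norm_nonneg z
    rw [div_le_div_iff₀ (by positivity) (by positivity)]
    nlinarith [mul_nonneg (sub_nonneg.2 hz) (mul_nonneg (sub_nonneg.2 hc.le)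
      (by linarith : 0 ≤ 1 + |c|))]

private theorem AlC_gen {g : ℂ → ℂ} {k A K B : ℝ} (hk : 0 ≤ k) (hk1 : k < 1) (hA : 0 ≤ A)
    (hK : 0 ≤ K) (hBd : Bd G K) {φ : ℝ → ℝ} (hφ : Tendsto φ (𝓝[<] (1 : ℝ)) (𝓝 A))
    (hφ0 : ∀ᶠ r in 𝓝[<] (1 : ℝ), 0 ≤ φ r)
    (h : ∀ᶠ r in 𝓝[<] (1 : ℝ), prox g r ≤ φ r * prox G (AlC_R k r) + B) :
    Bd g (A * K) := by
  intro K' hK'
  obtain ⟨K₁, hK₁⟩ : ∃ x, x = K + (K' - A * K) / (2 * (A + 1)) := ⟨_, rfl⟩
  have h1 : 0 < A + 1 := by positivity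
  have h2 : K < K₁ := by
    rw [hK₁]
    have : 0 < (K' - A * K) / (2 * (A + 1)) := by
      apply div_pos <;> linarith
    linarith
  have h3 : A * K₁ < K' := by
    have h4 : (K' - A * K) / (2 * (A + 1)) * (A + 1) = (K' - A * K) / 2 := by
      field_simp
    have h5 : 0 < (K' - A * K) / (2 * (A + 1)) := by
      apply div_pos <;> linarith
    rw [hK₁]
    nlinarith
  obtain ⟨M, hM1, hM2⟩ := exists_between h3
  have hM0 : 0 ≤ M := le_trans (mul_nonneg hA (hK.trans h2.le)) hM1.le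
  have e1 : ∀ᶠ r in 𝓝[<] (1 : ℝ), φ r * K₁ < M := (hφ.mul_const K₁).eventually_lt_const hM1
  have e2 := (AlC_tendsto hk hk1).eventually (hBd K₁ h2)
  obtain ⟨C, hC⟩ : ∃ x, x = -Real.log ((1 - k) / 4) := ⟨_, rfl⟩
  filter_upwards [h, hφ0, e1, e2, Ioo_mem_nhdsLT (by norm_num : (0 : ℝ) < 1),
    L_tendsto.eventually_ge_atTop ((M * C + B) / (K' - M))] with r h4 h5 h6 h7 h8 h9
  have h10 := AlC_rho hk hk1 h8.1 h8.2
  have hL0 : 0 ≤ L (AlC_R k r) := by
    unfold L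
    rw [neg_nonneg]
    exact Real.log_nonpos (by linarith) (by linarith)
  have hL := AlC_L hk hk1 h8.1 h8.2
  rw [← hC] at hL
  rw [div_le_iff₀ (by linarith)] at h9
  calc prox g r ≤ φ r * prox G (AlC_R k r) + B := h4
    _ ≤ φ r * (K₁ * L (AlC_R k r)) + B := by gcongr
    _ = (φ r * K₁) * L (AlC_R k r) + B := by ring
    _ ≤ M * (L r + C) + B := by
        gcongr
    _ ≤ K' * L r := by nlinarith

private theorem AlC_cont (hG : AnalyticOnNhd ℂ G (ball 0 1)) {R : ℝ} (h1 : R < 1) :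
    ContinuousOn (fun z => Real.posLog ‖G z‖) (sphere (0 : ℂ) R) :=
  Real.continuous_posLog.comp_continuousOn
    ((hG.continuousOn.mono (sphere_subset_closedBall.trans (closedBall_subset_ball h1))).norm)

private theorem AlC_ker {c R : ℝ} (hc : |c| < R) :
    ContinuousOn (fun ζ : ℂ => (R ^ 2 - c ^ 2) / ‖ζ + c‖ ^ 2) (sphere (0 : ℂ) R) := by
  refine continuousOn_const.div (by fun_prop) fun z hz => ?_
  rw [mem_sphere_zero_iff_norm] at hz
  have h1 : ‖z‖ - ‖(c : ℂ)‖ ≤ ‖z + c‖ := by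
    have := norm_sub_norm_le z (-(c : ℂ))
    rwa [norm_neg, sub_neg_eq_add] at this
  rw [Complex.norm_real, Real.norm_eq_abs, hz] at h1
  have : 0 < ‖z + c‖ := by linarith
  positivity

/-- PROOF. For `r` near `1` let `ρ = (r + |c|) / (1 + |c| r)` and `R = (1 + ρ) / 2`, so
`mb c` maps `closedBall 0 r` into `ball 0 R` (`mb_norm_le`, monotone in `‖z‖`), `R → 1` from below
and `1 - R = (1 - r) (1 - |c|) / (2 (1 + |c| r))`, so `L R ≤ L r + C`. By `pj_comp`
(`mb c 0 = -c`) and `‖ζ + c‖ ≥ R - |c|`: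
`prox (G ∘ mb c) r ≤ (R + |c|) / (R - |c|) * prox G R`; the factor tends to
`(1 + |c|) / (1 - |c|)`. -/
theorem bd_mb (hG : AnalyticOnNhd ℂ G (ball 0 1)) {c K : ℝ} (hc : |c| < 1) (hK : 0 ≤ K)
    (h : Bd G K) : Bd (fun z => G (mb c z)) ((1 + |c|) / (1 - |c|) * K) := by
  have hk := abs_nonneg c
  have hk1 : 0 < 1 - |c| := by linarith
  refine AlC_gen (B := 0) (φ := fun r => (AlC_R |c| r + |c|) / (AlC_R |c| r - |c|)) hk hc
    (by positivity) hK h ?_ ?_ ?_
  · have h1 : Tendsto (AlC_R |c|) (𝓝[<] (1 : ℝ)) (𝓝 (1 : ℝ)) :=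
      (AlC_tendsto hk hc).mono_right nhdsWithin_le_nhds
    exact (h1.add_const _).div (h1.sub_const _) (by linarith)
  · filter_upwards [Ioo_mem_nhdsLT (by norm_num : (0 : ℝ) < 1)] with r hr
    have h1 := AlC_rho hk hc hr.1 hr.2
    apply div_nonneg <;> linarith
  · filter_upwards [Ioo_mem_nhdsLT (by norm_num : (0 : ℝ) < 1)] with r hr
    obtain ⟨h1, h2, h3⟩ := AlC_rho hk hc hr.1 hr.2
    refine (AlC_circ hG hc hr.1 hr.2).trans ?_
    generalize AlC_R |c| r = R at *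
    have h0 : 0 < R := lt_of_le_of_lt hk h3
    have hcs := AlC_cont hG h2
    rw [add_zero]
    unfold prox
    rw [← smul_eq_mul, ← Real.circleAverage_fun_smul]
    refine Real.circleAverage_mono ?_ ?_ ?_
    · exact ((AlC_ker h3).mul hcs).circleIntegrable h0.le
    · exact (ContinuousOn.circleIntegrable h0.le (continuousOn_const.mul hcs :
        ContinuousOn (fun z => (R + |c|) / (R - |c|) * Real.posLog ‖G z‖) (sphere 0 R)))
    · intro z hz
      rw [abs_of_pos h0, mem_sphere_zero_iff_norm] at hz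
      have h5 : ‖z‖ - ‖(c : ℂ)‖ ≤ ‖z + c‖ := by
        have := norm_sub_norm_le z (-(c : ℂ))
        rwa [norm_neg, sub_neg_eq_add] at this
      rw [Complex.norm_real, Real.norm_eq_abs, hz] at h5
      have h6 : 0 < R - |c| := by linarith
      have h9 : 0 < ‖z + c‖ := by linarith
      rw [smul_eq_mul]
      refine mul_le_mul_of_nonneg_right ?_ Real.posLog_nonneg
      rw [div_le_div_iff₀ (by positivity) h6, ← sq_abs c]
      have h7 : (R - |c|) ^ 2 ≤ ‖z + c‖ ^ 2 := pow_le_pow_left₀ h6.le h5 2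
      have h8 : 0 ≤ R + |c| := by linarith
      nlinarith [mul_le_mul_of_nonneg_left h7 h8]

/-- PROOF. The same with `c = b`; on the circle `‖ζ‖ = R` (and `b < R`): for `ζ.re ≤ 0` the
integrand is at most `B` times the Poisson kernel, whose average is `1`; for `0 < ζ.re` the kernel
is at most `(R ^ 2 - b ^ 2) / (R ^ 2 + b ^ 2) ≤ (1 - b ^ 2) / b ^ 2 ≤ 8 * (1 - b)`. So
`prox (G ∘ mb b) r ≤ 8 * (1 - b) * prox G R + B`. -/
theorem bd_inactive (hG : AnalyticOnNhd ℂ G (ball 0 1)) {K B b : ℝ} (hK : 0 ≤ K)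
    (h : Bd G K) (hB : 0 ≤ B)
    (hl : ∀ z ∈ ball (0 : ℂ) 1, z.re ≤ 0 → Real.posLog ‖G z‖ ≤ B) (hb : 1 / 2 ≤ b)
    (hb1 : b < 1) : Bd (fun z => G (mb b z)) (8 * (1 - b) * K) := by
  have hb0 : 0 < b := by linarith
  have hab : |b| = b := abs_of_pos hb0
  have hc : |b| < 1 := by rwa [hab]
  have hk := abs_nonneg b
  refine AlC_gen (B := B) (φ := fun _ => 8 * (1 - b)) hk hc (by linarith) hK h
    tendsto_const_nhds (Eventually.of_forall fun _ => by linarith) ?_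
  filter_upwards [Ioo_mem_nhdsLT (by norm_num : (0 : ℝ) < 1)] with r hr
  obtain ⟨h1, h2, h3⟩ := AlC_rho hk hc hr.1 hr.2
  refine (AlC_circ hG hc hr.1 hr.2).trans ?_
  generalize AlC_R |b| r = R at *
  have h0 : 0 < R := lt_of_le_of_lt hk h3
  have hcs := AlC_cont hG h2
  have hker := AlC_ker (c := b) h3
  rw [hab] at h3
  have hav : Real.circleAverage (fun ζ : ℂ => (R ^ 2 - b ^ 2) / ‖ζ + b‖ ^ 2) 0 R = 1 := by
    have h4 : (-(b : ℂ)) ∈ ball (0 : ℂ) R := by
      rw [mem_ball_zero_iff, norm_neg, Complex.norm_real, Real.norm_eq_abs, hab]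
      exact h3
    have h5 := (InnerProductSpace.harmonicOnNhd_const (s := closedBall (0 : ℂ) R)
      (1 : ℝ)).circleAverage_poissonKernel_smul h4
    rw [← h5]
    apply Real.circleAverage_congr_sphere
    intro z hz
    rw [abs_of_pos h0, mem_sphere_zero_iff_norm] at hz
    show _ = poissonKernel 0 (-(b : ℂ)) z * 1
    rw [poissonKernel_def, mul_one, sub_zero, sub_zero, sub_neg_eq_add, hz, norm_neg,
      Complex.norm_real, Real.norm_eq_abs, sq_abs]
  have i1 : CircleIntegrable (fun z => 8 * (1 - b) * Real.posLog ‖G z‖) 0 R :=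
    (hcs.const_smul (8 * (1 - b))).circleIntegrable h0.le
  have i2 : CircleIntegrable (fun ζ : ℂ => B * ((R ^ 2 - b ^ 2) / ‖ζ + b‖ ^ 2)) 0 R :=
    (hker.const_smul B).circleIntegrable h0.le
  have hrhs : 8 * (1 - b) * prox G R + B = Real.circleAverage (fun z =>
      8 * (1 - b) * Real.posLog ‖G z‖ + B * ((R ^ 2 - b ^ 2) / ‖z + b‖ ^ 2)) 0 R := by
    rw [Real.circleAverage_fun_add i1 i2]
    have e1 : Real.circleAverage (fun z => 8 * (1 - b) * Real.posLog ‖G z‖) 0 R =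
        8 * (1 - b) * prox G R := by
      unfold prox
      exact Real.circleAverage_fun_smul (a := 8 * (1 - b))
    have e2 : Real.circleAverage (fun ζ : ℂ => B * ((R ^ 2 - b ^ 2) / ‖ζ + b‖ ^ 2)) 0 R =
        B * Real.circleAverage (fun ζ : ℂ => (R ^ 2 - b ^ 2) / ‖ζ + b‖ ^ 2) 0 R :=
      Real.circleAverage_fun_smul (a := B)
    rw [e1, e2, hav, mul_one]
  rw [hrhs]
  refine Real.circleAverage_mono ((hker.mul hcs).circleIntegrable h0.le) (i1.add i2) ?_
  intro z hz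
  rw [abs_of_pos h0, mem_sphere_zero_iff_norm] at hz
  have hzb : z ∈ ball (0 : ℂ) 1 := by rw [mem_ball_zero_iff, hz]; exact h2
  have hp : 0 ≤ Real.posLog ‖G z‖ := Real.posLog_nonneg
  have hnum : 0 ≤ R ^ 2 - b ^ 2 := by nlinarith
  have hkn : 0 ≤ (R ^ 2 - b ^ 2) / ‖z + b‖ ^ 2 := by positivity
  show (R ^ 2 - b ^ 2) / ‖z + b‖ ^ 2 * Real.posLog ‖G z‖ ≤
    8 * (1 - b) * Real.posLog ‖G z‖ + B * ((R ^ 2 - b ^ 2) / ‖z + b‖ ^ 2)
  rcases le_or_gt z.re 0 with hre | hre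
  · have h6 := mul_le_mul_of_nonneg_left (hl z hzb hre) hkn
    have h7 : 0 ≤ 8 * (1 - b) * Real.posLog ‖G z‖ := mul_nonneg (by linarith) hp
    linarith
  · have h6 : ‖z + b‖ ^ 2 = R ^ 2 + b ^ 2 + 2 * b * z.re := by
      rw [← hz, Complex.sq_norm, Complex.sq_norm, Complex.normSq_apply, Complex.normSq_apply]
      simp only [Complex.add_re, Complex.add_im, Complex.ofReal_re, Complex.ofReal_im]
      ring
    have h7 : (R ^ 2 - b ^ 2) / ‖z + b‖ ^ 2 ≤ 8 * (1 - b) := by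
      rw [h6, div_le_iff₀ (by positivity)]
      have h8 : 0 < 2 * b * z.re := by positivity
      have h9 : 0 ≤ 1 - b := by linarith
      have h10 : R ^ 2 ≤ 1 := by nlinarith
      have h11 : 1 - b ^ 2 ≤ 8 * (1 - b) * b ^ 2 := by
        have h12 : 0 ≤ 8 * b ^ 2 - 1 - b := by nlinarith
        nlinarith [mul_nonneg h9 h12]
      have h13 : 8 * (1 - b) * b ^ 2 ≤ 8 * (1 - b) * (R ^ 2 + b ^ 2 + 2 * b * z.re) := by
        apply mul_le_mul_of_nonneg_left _ (by linarith)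
        nlinarith [sq_nonneg R]
      linarith
    have h14 := mul_le_mul_of_nonneg_right h7 hp
    have h15 := mul_nonneg hB hkn
    linarith

end Pool.Agent.MP4b24a5.T3
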