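import Pool.Agent.Lib.MP_4b24a5_an_T3.Defs

set_option autoImplicit false

/-!
# MP_4b24a5_an, project T3: averages over the Cantor construction
-/

noncomputable section

namespace Pool.Agent.MP4b24a5.T3

open Complex Metric Set MeasureTheory Filter Topology

private theorem avA_rh0 : 0 ≤ rh := by
  unfold rh
  norm_num

private theorem avA_rh1 : rh ≤ 1 := by
  unfold rh
  norm_num

private theorem avA_hd (l : ℝ) : hd l + rh * l / 2 = l / 2 := by
  unfold hd
  ring

private theorem avA_hd0 {l : ℝ} (hl : 0 ≤ l) : 0 ≤ hd l := by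
  unfold hd
  have := avA_rh1
  exact mul_nonneg (by linarith) hl

private theorem avA_sub_left {c l x : ℝ} (hl : 0 ≤ l)
    (h : x ∈ Icc (c - hd l - rh * l / 2) (c - hd l + rh * l / 2)) :
    x ∈ Icc (c - l / 2) (c + l / 2) := by
  have h1 := avA_hd l
  have h2 := avA_hd0 hl
  have h3 : 0 ≤ rh * l := mul_nonneg avA_rh0 hl
  constructor
  · linarith [h.1]
  · linarith [h.2]

private theorem avA_sub_right {c l x : ℝ} (hl : 0 ≤ l)
    (h : x ∈ Icc (c + hd l - rh * l / 2) (c + hd l + rh * l / 2)) :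
    x ∈ Icc (c - l / 2) (c + l / 2) := by
  have h1 := avA_hd l
  have h2 := avA_hd0 hl
  have h3 : 0 ≤ rh * l := mul_nonneg avA_rh0 hl
  constructor
  · linarith [h.1]
  · linarith [h.2]

private theorem avA_mid {c l : ℝ} (hl : 0 ≤ l) : c ∈ Icc (c - l / 2) (c + l / 2) := by
  constructor <;> linarith

/-- The average lies in every convex set which contains the values on the interval.

PROOF. Induction on `N` for all `c`, `l`: the subintervals (centres `c - hd l`, `c + hd l`, length
`rh * l`) are contained in the interval (`hd l + rh * l / 2 = l / 2`). -/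
theorem av_mem {E : Type} [NormedAddCommGroup E] [NormedSpace ℝ E] {C : Set E}
    (hC : Convex ℝ C) {F : ℝ → E} {c l : ℝ} (hl : 0 ≤ l)
    (h : ∀ x ∈ Icc (c - l / 2) (c + l / 2), F x ∈ C) (N : ℕ) : Av F N c l ∈ C := by
  induction N generalizing c l with
  | zero =>
    rw [Av]
    exact h c (avA_mid hl)
  | succ N ih =>
    rw [Av, smul_add]
    have h3 : 0 ≤ rh * l := mul_nonneg avA_rh0 hl
    exact hC (ih h3 fun x hx => h x (avA_sub_left hl hx))
      (ih h3 fun x hx => h x (avA_sub_right hl hx)) (by norm_num) (by norm_num) (by norm_num)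

/-- PROOF. Induction. -/
theorem av_mono {F G : ℝ → ℝ} {c l : ℝ} (hl : 0 ≤ l)
    (h : ∀ x ∈ Icc (c - l / 2) (c + l / 2), F x ≤ G x) (N : ℕ) : Av F N c l ≤ Av G N c l := by
  induction N generalizing c l with
  | zero =>
    rw [Av, Av]
    exact h c (avA_mid hl)
  | succ N ih =>
    rw [Av, Av]
    have h3 : 0 ≤ rh * l := mul_nonneg avA_rh0 hl
    have h1 := ih h3 fun x hx => h x (avA_sub_left hl hx)
    have h2 := ih h3 fun x hx => h x (avA_sub_right hl hx)
    rw [smul_eq_mul, smul_eq_mul]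
    linarith

/-- PROOF. Induction. -/
theorem av_re (F : ℝ → ℂ) (N : ℕ) (c l : ℝ) :
    (Av F N c l).re = Av (fun x => (F x).re) N c l := by
  induction N generalizing c l with
  | zero => rw [Av, Av]
  | succ N ih =>
    rw [Av, Av, Complex.smul_re, Complex.add_re, ih, ih]

/-- PROOF. Induction on `N` for all `c`, `l`; for `N = 0` use `|hd l| ≤ l / 2`. -/
theorem av_cauchy {F : ℝ → ℂ} {K : ℝ} (hK : ∀ x y : ℝ, ‖F x - F y‖ ≤ K * |x - y|) {c l : ℝ}
    (hl : 0 ≤ l) (N : ℕ) : ‖Av F (N + 1) c l - Av F N c l‖ ≤ K * (rh ^ N * l) := by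
  have hK0 : 0 ≤ K := by
    have h1 := hK 1 0
    have h2 := norm_nonneg (F 1 - F 0)
    rw [sub_zero, abs_one, mul_one] at h1
    exact h2.trans h1
  have hn : ‖(1 / 2 : ℝ)‖ = 1 / 2 := by norm_num
  induction N generalizing c l with
  | zero =>
    have h0 := avA_hd0 hl
    have e : Av F (0 + 1) c l - Av F 0 c l =
        (1 / 2 : ℝ) • ((F (c - hd l) - F c) + (F (c + hd l) - F c)) := by
      rw [Av, Av, Av, Av, sub_add_sub_comm, smul_sub, ← two_smul ℝ (F c), smul_smul]
      norm_num
    rw [e, norm_smul, hn]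
    have h1 := hK (c - hd l) c
    have h2 := hK (c + hd l) c
    have e1 : |c - hd l - c| = hd l := by
      rw [show c - hd l - c = -hd l by ring, abs_neg, abs_of_nonneg h0]
    have e2 : |c + hd l - c| = hd l := by
      rw [show c + hd l - c = hd l by ring, abs_of_nonneg h0]
    rw [e1] at h1
    rw [e2] at h2
    have h3 := norm_add_le (F (c - hd l) - F c) (F (c + hd l) - F c)
    have h4 : hd l ≤ l := by
      have h5 := avA_hd l
      have h6 : 0 ≤ rh * l := mul_nonneg avA_rh0 hl
      linarith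
    have h5 : K * hd l ≤ K * l := mul_le_mul_of_nonneg_left h4 hK0
    rw [pow_zero, one_mul]
    linarith
  | succ N ih =>
    have h3 : 0 ≤ rh * l := mul_nonneg avA_rh0 hl
    have e : Av F (N + 1 + 1) c l - Av F (N + 1) c l = (1 / 2 : ℝ) •
        ((Av F (N + 1) (c - hd l) (rh * l) - Av F N (c - hd l) (rh * l)) +
          (Av F (N + 1) (c + hd l) (rh * l) - Av F N (c + hd l) (rh * l))) := by
      rw [sub_add_sub_comm, smul_sub]
      rfl
    rw [e, norm_smul, hn]
    have h1 := ih (c := c - hd l) h3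
    have h2 := ih (c := c + hd l) h3
    have h4 := norm_add_le (Av F (N + 1) (c - hd l) (rh * l) - Av F N (c - hd l) (rh * l))
      (Av F (N + 1) (c + hd l) (rh * l) - Av F N (c + hd l) (rh * l))
    have h5 : K * (rh ^ (N + 1) * l) = K * (rh ^ N * (rh * l)) := by ring
    rw [h5]
    linarith

/-- PROOF. Induction; `circleAverage` is linear. -/
theorem av_circle {F : ℂ → ℝ → ℝ} {r B : ℝ} (hi : ∀ x, CircleIntegrable (fun z => F z x) 0 r)
    (hB : ∀ x, Real.circleAverage (fun z => F z x) 0 r ≤ B) (N : ℕ) (c l : ℝ) :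
    CircleIntegrable (fun z => Av (F z) N c l) 0 r ∧
      Real.circleAverage (fun z => Av (F z) N c l) 0 r ≤ B := by
  induction N generalizing c l with
  | zero =>
    simp only [Av]
    exact ⟨hi c, hB c⟩
  | succ N ih =>
    obtain ⟨h1, h2⟩ := ih (c - hd l) (rh * l)
    obtain ⟨h3, h4⟩ := ih (c + hd l) (rh * l)
    have e : (fun z => Av (F z) (N + 1) c l) = (1 / 2 : ℝ) •
        ((fun z => Av (F z) N (c - hd l) (rh * l)) + fun z => Av (F z) N (c + hd l) (rh * l)) := by
      funext z
      rw [Pi.smul_apply, Pi.add_apply, Av]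
    rw [e]
    have h5 := h1.add h3
    refine ⟨?_, ?_⟩
    · exact IntervalIntegrable.const_mul h5 _
    · rw [Real.circleAverage_smul, Real.circleAverage_add h1 h3, smul_eq_mul]
      linarith

end Pool.Agent.MP4b24a5.T3
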