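import Pool.Agent.Lib.MP_4b24a5_an_T3.Mob

set_option autoImplicit false

/-!
# MP_4b24a5_an, project T3: the lemma of Bol for Moebius transformations
-/

noncomputable section

namespace Pool.Agent.MP4b24a5.T3

open Complex Metric Set MeasureTheory Filter Topology

private theorem bol_an {U : ℂ → ℂ} (hU : AnalyticOnNhd ℂ U (ball 0 1)) (n : ℕ) :
    AnalyticOnNhd ℂ (iteratedDeriv n U) (ball 0 1) := by
  rw [iteratedDeriv_eq_iterate]
  exact hU.iterated_deriv n

private theorem bol_hd {U : ℂ → ℂ} (hU : AnalyticOnNhd ℂ U (ball 0 1)) (n : ℕ) {z : ℂ}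
    (hz : z ∈ ball (0 : ℂ) 1) :
    HasDerivAt (iteratedDeriv n U) (iteratedDeriv (n + 1) U z) z := by
  rw [iteratedDeriv_succ]
  exact (bol_an hU n z hz).differentiableAt.hasDerivAt

private theorem bol_lin (b : ℝ) (z : ℂ) : HasDerivAt (fun z : ℂ => 1 - b * z) (-b) z := by
  have h := ((hasDerivAt_id z).const_mul (b : ℂ)).const_sub 1
  rw [mul_one] at h
  exact h

private theorem bol_fac {U : ℂ → ℂ} (hU : AnalyticOnNhd ℂ U (ball 0 1)) (b : ℝ) (n : ℕ) :
    ∀ z ∈ ball (0 : ℂ) 1, iteratedDeriv (n + 1) (fun z => (1 - b * z) * U z) z =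
      (1 - b * z) * iteratedDeriv (n + 1) U z - (n + 1) * b * iteratedDeriv n U z := by
  induction n with
  | zero =>
    intro z hz
    rw [zero_add, iteratedDeriv_one, iteratedDeriv_one, iteratedDeriv_zero]
    have h1 : HasDerivAt U (deriv U z) z := (hU z hz).differentiableAt.hasDerivAt
    have h2 := (bol_lin b z).mul h1
    have h3 : deriv (fun z => (1 - b * z) * U z) z = -b * U z + (1 - b * z) * deriv U z :=
      h2.deriv
    rw [h3]
    push_cast
    ring
  | succ n ih =>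
    intro z hz
    rw [iteratedDeriv_succ]
    have h1 : iteratedDeriv (n + 1) (fun z => (1 - b * z) * U z) =ᶠ[𝓝 z] fun z =>
        (1 - b * z) * iteratedDeriv (n + 1) U z - (n + 1) * b * iteratedDeriv n U z := by
      filter_upwards [isOpen_ball.mem_nhds hz] with w hw
      exact ih w hw
    rw [h1.deriv_eq]
    have h2 := ((bol_lin b z).mul (bol_hd hU (n + 1) hz)).sub
      ((bol_hd hU n hz).const_mul ((n + 1) * b : ℂ))
    have h3 : deriv (fun z => (1 - b * z) * iteratedDeriv (n + 1) U z -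
        (n + 1) * b * iteratedDeriv n U z) z =
        -b * iteratedDeriv (n + 1) U z + (1 - b * z) * iteratedDeriv (n + 1 + 1) U z -
        (n + 1) * b * iteratedDeriv (n + 1) U z := h2.deriv
    rw [h3]
    push_cast
    ring

private theorem bol_mb {b : ℝ} (hb : |b| < 1) {z : ℂ} (hz : ‖z‖ < 1) :
    HasDerivAt (mb b) ((1 - b ^ 2) * ((1 - b * z) ^ 2)⁻¹) z := by
  have hd := mb_den hb hz
  have h1 : HasDerivAt (fun z : ℂ => z - b) 1 z := (hasDerivAt_id z).sub_const _
  have h2 := h1.div (bol_lin b z) hd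
  have h3 : (1 * (1 - b * z) - (z - b) * -b) / (1 - b * z) ^ 2 =
      (1 - b ^ 2) * ((1 - b * z) ^ 2)⁻¹ := by
    rw [div_eq_mul_inv]
    ring
  rw [h3] at h2
  exact h2

/-- PROOF. Induction on `d` (for all analytic `f`; equality near every point of the disc, so that it
can be differentiated). `mb b` has the derivative `(1 - b ^ 2) / (1 - b z) ^ 2`. With
`U = (1 - b z) ^ d * f (mb b z)` and `V = iteratedDeriv (d + 1) U` the product rule for the linear
factor gives `iteratedDeriv (d + 2) ((1 - b z) * U) = (1 - b z) * deriv V - (d + 2) * b * V`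
(a lemma: `iteratedDeriv (n + 1) ((1 - b z) * U) = (1 - b z) * iteratedDeriv (n + 1) U -
(n + 1) * b * iteratedDeriv n U`, by induction on `n`), and
`V = (1 - b ^ 2) ^ (d + 1) * ((1 - b z) ^ (d + 2))⁻¹ * (iteratedDeriv (d + 1) f) (mb b z)`. -/
theorem bol (d : ℕ) {f : ℂ → ℂ} (hf : AnalyticOnNhd ℂ f (ball 0 1)) {b : ℝ} (hb : |b| < 1)
    {z : ℂ} (hz : ‖z‖ < 1) :
    iteratedDeriv (d + 1) (fun z => (1 - b * z) ^ d * f (mb b z)) z =
      (1 - b ^ 2) ^ (d + 1) * ((1 - b * z) ^ (d + 2))⁻¹ * iteratedDeriv (d + 1) f (mb b z) := by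
  have hcomp : AnalyticOnNhd ℂ (fun z => f (mb b z)) (ball 0 1) := by
    intro w hw
    have hw' : ‖w‖ < 1 := mem_ball_zero_iff.1 hw
    exact AnalyticAt.fun_comp (hf _ (mem_ball_zero_iff.2 (mb_mem hb hw'))) (mb_an hb w hw)
  have hlin : AnalyticOnNhd ℂ (fun z : ℂ => 1 - b * z) (ball 0 1) := by
    intro w _
    fun_prop
  have hU : ∀ d : ℕ, AnalyticOnNhd ℂ (fun z => (1 - b * z) ^ d * f (mb b z)) (ball 0 1) :=
    fun d => (hlin.pow d).mul hcomp
  have key : ∀ z ∈ ball (0 : ℂ) 1,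
      iteratedDeriv (d + 1) (fun z => (1 - b * z) ^ d * f (mb b z)) z =
      (1 - b ^ 2) ^ (d + 1) * ((1 - b * z) ^ (d + 2))⁻¹ *
        iteratedDeriv (d + 1) f (mb b z) := by
    induction d with
    | zero =>
      intro z hz
      have hz' : ‖z‖ < 1 := mem_ball_zero_iff.1 hz
      have hm : mb b z ∈ ball (0 : ℂ) 1 := mem_ball_zero_iff.2 (mb_mem hb hz')
      rw [zero_add, iteratedDeriv_one, iteratedDeriv_one, zero_add, pow_one]
      have h0 : (fun z => (1 - b * z) ^ 0 * f (mb b z)) = fun z => f (mb b z) := by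
        funext w
        rw [pow_zero, one_mul]
      rw [h0]
      have h1 : HasDerivAt f (deriv f (mb b z)) (mb b z) :=
        (hf _ hm).differentiableAt.hasDerivAt
      have h2 := h1.comp z (bol_mb hb hz')
      have h3 : deriv (fun z => f (mb b z)) z =
          deriv f (mb b z) * ((1 - b ^ 2) * ((1 - b * z) ^ 2)⁻¹) := h2.deriv
      rw [h3]
      ring
    | succ d ih =>
      intro z hz
      have hz' : ‖z‖ < 1 := mem_ball_zero_iff.1 hz
      have hm : mb b z ∈ ball (0 : ℂ) 1 := mem_ball_zero_iff.2 (mb_mem hb hz')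
      have hden := mb_den hb hz'
      have h0 : (fun z => (1 - b * z) ^ (d + 1) * f (mb b z)) =
          fun z => (1 - b * z) * ((1 - b * z) ^ d * f (mb b z)) := by
        funext w
        ring
      rw [h0, bol_fac (hU d) b (d + 1) z hz, ih z hz, iteratedDeriv_succ]
      have h1 : iteratedDeriv (d + 1) (fun z => (1 - b * z) ^ d * f (mb b z)) =ᶠ[𝓝 z] fun z =>
          (1 - b ^ 2) ^ (d + 1) * ((1 - b * z) ^ (d + 2))⁻¹ *
            iteratedDeriv (d + 1) f (mb b z) := by
        filter_upwards [isOpen_ball.mem_nhds hz] with w hw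
        exact ih w hw
      rw [h1.deriv_eq]
      have h2 : HasDerivAt (fun z => iteratedDeriv (d + 1) f (mb b z))
          (iteratedDeriv (d + 1 + 1) f (mb b z) * ((1 - b ^ 2) * ((1 - b * z) ^ 2)⁻¹)) z :=
        (bol_hd hf (d + 1) hm).comp z (bol_mb hb hz')
      have h3 : HasDerivAt (fun z : ℂ => ((1 - b * z) ^ (d + 2))⁻¹)
          (-(((d + 2 : ℕ) : ℂ) * (1 - b * z) ^ (d + 2 - 1) * -b) /
            ((1 - b * z) ^ (d + 2)) ^ 2) z :=
        ((bol_lin b z).pow (d + 2)).inv (pow_ne_zero _ hden)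
      have h4 := (h3.const_mul ((1 - (b : ℂ) ^ 2) ^ (d + 1))).mul h2
      have h5 : deriv (fun z : ℂ => (1 - (b : ℂ) ^ 2) ^ (d + 1) * ((1 - b * z) ^ (d + 2))⁻¹ *
          iteratedDeriv (d + 1) f (mb b z)) z =
          (1 - (b : ℂ) ^ 2) ^ (d + 1) * (-(((d + 2 : ℕ) : ℂ) * (1 - b * z) ^ (d + 2 - 1) * -b) /
            ((1 - b * z) ^ (d + 2)) ^ 2) * iteratedDeriv (d + 1) f (mb b z) +
          (1 - (b : ℂ) ^ 2) ^ (d + 1) * ((1 - b * z) ^ (d + 2))⁻¹ *
            (iteratedDeriv (d + 1 + 1) f (mb b z) *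
              ((1 - b ^ 2) * ((1 - b * z) ^ 2)⁻¹)) := h4.deriv
      have h6 : d + 2 - 1 = d + 1 := rfl
      rw [h5, h6]
      generalize iteratedDeriv (d + 1 + 1) f (mb b z) = x
      generalize iteratedDeriv (d + 1) f (mb b z) = y
      generalize (1 : ℂ) - b * z = w at hden
      generalize (1 : ℂ) - (b : ℂ) ^ 2 = c
      push_cast
      field_simp
      ring
  exact key z (mem_ball_zero_iff.2 hz)

end Pool.Agent.MP4b24a5.T3
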