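import Mathlib
import Pool.Agent.Lib.MP_4b24a5_an.Defs

set_option autoImplicit false

/-!
# MP_4b24a5_an, project T3: a Cantor type Herglotz transform, definitions
-/

noncomputable section

namespace Pool.Agent.MP4b24a5.T3

open Complex Metric Set MeasureTheory Filter Topology

/-- the ratio of the Cantor construction -/
def rh : ℝ := 1 / 10 ^ 9

/-- the length of the basic interval -/
def l0 : ℝ := 1 / 10 ^ 9

/-- the point with angle `x` of the unit circle -/
def pt (x : ℝ) : ℂ := Complex.exp (x * I)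

/-- the Herglotz kernel -/
def kk (x : ℝ) (z : ℂ) : ℂ := (pt x + z) / (pt x - z)

/-- half the distance of the centres of the two subintervals of an interval of length `l` -/
def hd (l : ℝ) : ℝ := (1 - rh) / 2 * l

/-- the average of `F` over the centres of the `2 ^ N` intervals of generation `N` of the Cantor
construction in the interval of length `l` with centre `c` -/
def Av {E : Type} [AddCommGroup E] [Module ℝ E] (F : ℝ → E) : ℕ → ℝ → ℝ → E
  | 0, c, _ => F c
  | N + 1, c, l => (1 / 2 : ℝ) • (Av F N (c - hd l) (rh * l) + Av F N (c + hd l) (rh * l))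

/-- the Herglotz transform of the Cantor measure of the interval of length `l` with centre `c` -/
def Phi (c l : ℝ) (z : ℂ) : ℂ := limUnder atTop (fun N : ℕ => Av (fun x => kk x z) N c l)

/-- the Herglotz transform of the Cantor measure of the basic interval -/
def HH (z : ℂ) : ℂ := Phi 0 l0 z

/-- the length of the intervals of generation `m` -/
def len (m : ℕ) : ℝ := l0 * rh ^ m

/-- half the distance of the centres of the two subintervals -/
def lm (m : ℕ) : ℝ := hd (len m)

/-- the height scale -/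
def hm (m : ℕ) : ℝ := (1 / 2) ^ m / lm m

/-- `f` is the `j`-fold primitive of `exp (s H)` -/
structure FF (j : ℕ) (s : ℝ) (f : ℂ → ℂ) : Prop where
  an : AnalyticOnNhd ℂ f (ball 0 1)
  der : ∀ z ∈ ball (0 : ℂ) 1, iteratedDeriv j f z = Complex.exp (s * HH z)
  bd : ∀ i ≤ j, ∀ z ∈ ball (0 : ℂ) 1, ∀ B : ℝ,
    (∀ t ∈ Icc (0 : ℝ) 1, s * (HH (t * z)).re ≤ B) → ‖iteratedDeriv i f z‖ ≤ Real.exp B

/-- an interval of generation `m` with centre `c`; `R` is the Herglotz transform of the rest of the
measure -/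
structure Node (m : ℕ) (c : ℝ) (R : ℂ → ℂ) : Prop where
  eq : ∀ z ∈ ball (0 : ℂ) 1, HH z = ((1 / 2 : ℝ) ^ m : ℝ) * Phi c (len m) z + R z
  bd : ∀ z ∈ ball (0 : ℂ) 1, |(z * (starRingEnd ℂ) (pt c)).im| ≤ len m / 2 →
    ‖R z‖ ≤ 5 * rh * ((1 / 2) ^ m / len m)

/-- the local coordinate at an interval with centre `c`: `Z c l w = e^{ic} (1 + i l w)` -/
def Zc (c l : ℝ) (w : ℂ) : ℂ := pt c * (1 + I * l * w)

/-- the model -/
def G0 (w : ℂ) : ℂ := I / (w - 1) + I / (w + 1)

/-- the base point below the saddle point `i` -/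
def wg : ℂ := (49 / 50 : ℝ) * I

/-- the base point above the saddle point `i` -/
def wt : ℂ := (51 / 50 : ℝ) * I

/-- the Moebius transformation `(z - b) / (1 - b z)` -/
def mb (b : ℝ) (z : ℂ) : ℂ := (z - b) / (1 - b * z)

/-- `α(f) ≤ K` in terms of the proximity function -/
def Bd (f : ℂ → ℂ) (K : ℝ) : Prop := ∀ K' : ℝ, K < K' → ∀ᶠ r in 𝓝[<] (1 : ℝ), prox f r ≤ K' * L r

end Pool.Agent.MP4b24a5.T3
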