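import Pool.Agent.Lib.MP_4b24a5_an_T3.PhiB

set_option autoImplicit false

/-!
# MP_4b24a5_an, project T3: comparison with the model in a gap
-/

noncomputable section

namespace Pool.Agent.MP4b24a5.T3

open Complex Metric Set MeasureTheory Filter Topology

private theorem eb_alg {w p u l s : ℂ} (hl : l ≠ 0) (h1 : w - p ≠ 0) (h2 : w - s ≠ 0)
    (hu : u = 1 + I * l * p) :
    l / 2 * ((u + 1 + I * l * w) / (u - 1 - I * l * w)) - I / (w - s) =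
      -l / 2 + I * (u - 1) / (w - p) + I * (p - s) / ((w - p) * (w - s)) := by
  have e : u - 1 - I * l * w = -(I * l * (w - p)) := by rw [hu]; ring
  rw [e, hu]
  have hI := I_ne_zero
  field_simp
  ring_nf
  simp only [I_sq, I_pow_three]
  ring

private theorem eb_kk {c l d σ x : ℝ} (hl0 : 0 < l) (hl1 : l ≤ 1 / 10 ^ 9) (hσ : |σ| = 1)
    (hd0 : 0 ≤ d) (hd : d ≤ 2 * rh * l) (hx : |x - (c + σ * l)| ≤ d) {w : ℂ}
    (hw : |w.re| ≤ 1 / 4) :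
    ‖((l / 2 : ℝ) : ℂ) * kk x (Zc c l w) - I / (w - σ)‖ ≤ 16 * (l + rh) := by
  have hrh : rh = 1 / 10 ^ 9 := rfl
  have hlC : (l : ℂ) ≠ 0 := by exact_mod_cast hl0.ne'
  obtain ⟨φ, hφ⟩ : ∃ φ : ℝ, φ = x - c := ⟨_, rfl⟩
  obtain ⟨u, hu⟩ : ∃ u : ℂ, u = pt φ := ⟨_, rfl⟩
  have hpt : pt x = pt c * u := by
    rw [hu, hφ]
    unfold pt
    rw [← Complex.exp_add]
    congr 1
    push_cast
    ring
  have hc0 : pt c ≠ 0 := Complex.exp_ne_zero _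
  have hφ1 : |φ - σ * l| ≤ d := by
    have : φ - σ * l = x - (c + σ * l) := by rw [hφ]; ring
    rw [this]
    exact hx
  have hφ2 : |φ| ≤ 2 * l := by
    have h1 : |φ| ≤ |φ - σ * l| + |σ * l| := by
      calc |φ| = |(φ - σ * l) + σ * l| := by ring_nf
        _ ≤ |φ - σ * l| + |σ * l| := abs_add_le _ _
    rw [abs_mul, hσ, one_mul, abs_of_pos hl0] at h1
    have h2 : 2 * rh * l ≤ l := by
      rw [hrh]
      norm_num
      linarith
    linarith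
  have hu1 : ‖u - 1‖ ≤ 2 * l := by
    have h1 := Real.norm_exp_I_mul_ofReal_sub_one_le (x := φ)
    rw [hu]
    unfold pt
    rw [mul_comm]
    exact h1.trans (by rw [Real.norm_eq_abs]; exact hφ2)
  have hφn : ‖((φ : ℂ) * I)‖ = |φ| := by
    rw [norm_mul, norm_I, mul_one, norm_real, Real.norm_eq_abs]
  have hu2 : ‖u - 1 - φ * I‖ ≤ 4 * l ^ 2 := by
    have h1 : ‖((φ : ℂ) * I)‖ ≤ 1 := by
      rw [hφn]
      norm_num at hl1
      linarith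
    have h2 := norm_exp_sub_one_sub_id_le h1
    rw [hφn] at h2
    rw [hu]
    refine h2.trans ?_
    have h3 : |φ| ^ 2 ≤ (2 * l) ^ 2 := pow_le_pow_left₀ (abs_nonneg _) hφ2 2
    linarith
  obtain ⟨p, hp⟩ : ∃ p : ℂ, p = (u - 1) / (I * l) := ⟨_, rfl⟩
  have hIl : (I * l : ℂ) ≠ 0 := mul_ne_zero I_ne_zero hlC
  have hup : u = 1 + I * l * p := by
    rw [hp, mul_div_cancel₀ _ hIl]
    ring
  have hps : ‖p - σ‖ ≤ 4 * l + 2 * rh := by
    have e : p - σ = (u - 1 - φ * I) / (I * l) + (((φ - σ * l) / l : ℝ) : ℂ) := by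
      rw [hp]
      push_cast
      have hI := I_ne_zero
      field_simp
      ring
    rw [e]
    refine (norm_add_le _ _).trans ?_
    rw [norm_div, norm_mul, norm_I, one_mul, norm_real, norm_real, Real.norm_eq_abs,
      Real.norm_eq_abs, abs_of_pos hl0, abs_div, abs_of_pos hl0]
    have h1 : ‖u - 1 - φ * I‖ / l ≤ 4 * l := by
      rw [div_le_iff₀ hl0]
      linarith
    have h2 : |φ - σ * l| / l ≤ 2 * rh := by
      rw [div_le_iff₀ hl0]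
      linarith
    linarith
  have hσ2 : σ ^ 2 = 1 := by rw [← sq_abs, hσ]; norm_num
  have hws : 3 / 4 ≤ ‖w - σ‖ := by
    have h1 := abs_re_le_norm (w - σ)
    have h2 : |σ| ≤ |w.re| + |(w - σ).re| := by
      calc |σ| = |w.re - (w - σ).re| := by simp
        _ ≤ |w.re| + |(w - σ).re| := abs_sub _ _
    rw [hσ] at h2
    linarith
  have hwp : 1 / 2 ≤ ‖w - p‖ := by
    have h1 : ‖w - σ‖ ≤ ‖w - p‖ + ‖p - σ‖ := by
      calc ‖w - σ‖ = ‖(w - p) + (p - σ)‖ := by ring_nf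
        _ ≤ ‖w - p‖ + ‖p - σ‖ := norm_add_le _ _
    have h2 : 4 * l + 2 * rh ≤ 1 / 4 := by
      rw [hrh]
      norm_num at hl1 ⊢
      linarith
    linarith
  have hwp0 : w - p ≠ 0 := fun h => by
    rw [h, norm_zero] at hwp
    norm_num at hwp
  have hws0 : w - (σ : ℂ) ≠ 0 := fun h => by
    rw [h, norm_zero] at hws
    norm_num at hws
  have hkk : kk x (Zc c l w) = (u + 1 + I * l * w) / (u - 1 - I * l * w) := by
    unfold kk Zc
    rw [hpt]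
    have e1 : pt c * u + pt c * (1 + I * l * w) = pt c * (u + 1 + I * l * w) := by ring
    have e2 : pt c * u - pt c * (1 + I * l * w) = pt c * (u - 1 - I * l * w) := by ring
    rw [e1, e2, mul_div_mul_left _ _ hc0]
  have key : ((l / 2 : ℝ) : ℂ) * kk x (Zc c l w) - I / (w - σ) =
      -l / 2 + I * (u - 1) / (w - p) + I * (p - σ) / ((w - p) * (w - σ)) := by
    rw [hkk, ← eb_alg hlC hwp0 hws0 hup]
    push_cast
    ring
  rw [key]
  have t1 : ‖(-l / 2 : ℂ)‖ = l / 2 := by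
    rw [norm_div, norm_neg, norm_real, Real.norm_eq_abs, abs_of_pos hl0]
    norm_num
  have t2 : ‖I * (u - 1) / (w - p)‖ ≤ 4 * l := by
    rw [norm_div, norm_mul, norm_I, one_mul, div_le_iff₀ (by linarith)]
    nlinarith
  have t3 : ‖I * (p - σ) / ((w - p) * (w - σ))‖ ≤ 8 / 3 * (4 * l + 2 * rh) := by
    have h1 : 3 / 8 ≤ ‖w - p‖ * ‖w - σ‖ := by
      have := mul_le_mul hwp hws (by norm_num) (norm_nonneg _)
      norm_num at this
      exact this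
    have h2 : (0 : ℝ) ≤ 4 * l + 2 * rh := (norm_nonneg _).trans hps
    rw [norm_div, norm_mul, norm_mul, norm_I, one_mul, div_le_iff₀ (by linarith)]
    nlinarith
  have h3 : 0 < rh := by rw [hrh]; norm_num
  calc ‖-l / 2 + I * (u - 1) / (w - p) + I * (p - σ) / ((w - p) * (w - σ))‖
      ≤ ‖(-l / 2 : ℂ)‖ + ‖I * (u - 1) / (w - p)‖ + ‖I * (p - σ) / ((w - p) * (w - σ))‖ :=
        norm_add₃_le
    _ ≤ l / 2 + 4 * l + 8 / 3 * (4 * l + 2 * rh) := by rw [t1]; linarith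
    _ ≤ 16 * (l + rh) := by linarith

private theorem eb_phi {c l ℓ σ : ℝ} (hl0 : 0 < l) (hl1 : l ≤ 1 / 10 ^ 9) (hσ : |σ| = 1)
    (hℓ0 : 0 ≤ ℓ) (hℓ : rh * ℓ / 2 ≤ 2 * rh * l) {w : ℂ} (hw : |w.re| ≤ 1 / 4)
    (hz : ‖Zc c l w‖ < 1) :
    ‖((l / 2 : ℝ) : ℂ) * Phi (c + σ * l) (rh * ℓ) (Zc c l w) - I / (w - σ)‖ ≤
      16 * (l + rh) := by
  have hrh : (0 : ℝ) < rh := by unfold rh; norm_num
  have hl2 : (0 : ℝ) < l / 2 := by linarith
  have hlC : ((l / 2 : ℝ) : ℂ) ≠ 0 := by exact_mod_cast hl2.ne'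
  have conv : ∀ y : ℂ, ‖((l / 2 : ℝ) : ℂ) * y - I / (w - σ)‖ ≤ 16 * (l + rh) ↔
      y ∈ closedBall (I / (w - σ) / ((l / 2 : ℝ) : ℂ)) (16 * (l + rh) / (l / 2)) := by
    intro y
    rw [mem_closedBall, dist_eq_norm, le_div_iff₀ hl2]
    have e : ‖((l / 2 : ℝ) : ℂ) * y - I / (w - σ)‖ =
        ‖y - I / (w - σ) / ((l / 2 : ℝ) : ℂ)‖ * (l / 2) := by
      have e1 : ((l / 2 : ℝ) : ℂ) * y - I / (w - σ) =
          (y - I / (w - σ) / ((l / 2 : ℝ) : ℂ)) * ((l / 2 : ℝ) : ℂ) := by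
        rw [sub_mul, div_mul_cancel₀ _ hlC]
        ring
      rw [e1, norm_mul, norm_real, Real.norm_eq_abs, abs_of_pos hl2]
    rw [e]
  rw [conv]
  refine phi_mem (convex_closedBall _ _) isClosed_closedBall hz (by positivity) fun x hx => ?_
  rw [← conv]
  refine eb_kk (d := rh * ℓ / 2) hl0 hl1 hσ (by positivity) hℓ ?_ hw
  rw [abs_le]
  constructor <;> linarith [hx.1, hx.2]

/-- PROOF. Put `l = lm m`, `z = Zc c l w`, `ℓ = len m`. By `h.eq` and `phi_split`,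
`H z = (1/2) ^ (m + 1) (Φ (c - l) (rh ℓ) z + Φ (c + l) (rh ℓ) z) + R z`, so
`H z / hm m = (l / 2) Φ (c - l) .. + (l / 2) Φ (c + l) .. + R z / hm m`.
(1) `(z * conj (pt c)).im = l * w.re`, of modulus at most `ℓ / 2`, so
`‖R z‖ / hm m ≤ 5 rh l / ℓ ≤ 5 rh`.
(2) For `x = c ± l + τ`, `|τ| ≤ rh ℓ / 2`, `φ = x - c`, `u = e^{iφ}`:
`(l / 2) kk x z = - l / 2 + i u / (w - p)`, `p = (u - 1) / (i l)`; `|φ| ≤ 2 l`, `‖u - 1‖ ≤ 2 l`,
`‖p ∓ 1‖ ≤ φ ^ 2 / (2 l) + rh ℓ / (2 l) ≤ 2 l + 2 rh`; as `‖w ∓ 1‖ ≥ 3 / 4` and `‖w - p‖ ≥ 1 / 2`,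
`‖(l / 2) kk x z - i / (w ∓ 1)‖ ≤ l / 2 + 4 l + 3 (2 l + 2 rh) ≤ 11 (l + rh)`. By `phi_mem` for
closed balls the same holds for `Φ`. The total error is at most `22 (l + rh) + 5 rh ≤ 1 / 10 ^ 6`
(`l ≤ l0`). -/
theorem eb {m : ℕ} {c : ℝ} {R : ℂ → ℂ} (h : Node m c R) {w : ℂ}
    (hw : ‖Zc c (lm m) w‖ < 1) (h1 : |w.re| ≤ 1 / 4) (h2 : 0 < w.im) (h3 : w.im ≤ 2) :
    ‖HH (Zc c (lm m) w) / (hm m : ℂ) - G0 w‖ ≤ 1 / 10 ^ 6 := by
  have hrh : rh = 1 / 10 ^ 9 := rfl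
  have hrh0 : 0 < rh := by rw [hrh]; norm_num
  obtain ⟨ℓ, hℓ⟩ : ∃ ℓ : ℝ, ℓ = len m := ⟨_, rfl⟩
  obtain ⟨l, hl⟩ : ∃ l : ℝ, l = lm m := ⟨_, rfl⟩
  have hℓ0 : 0 < ℓ := by
    rw [hℓ]
    unfold len l0
    positivity
  have hℓ1 : ℓ ≤ 1 / 10 ^ 9 := by
    rw [hℓ]
    unfold len l0
    have h4 : rh ^ m ≤ 1 := pow_le_one₀ hrh0.le (by rw [hrh]; norm_num)
    have := mul_le_mul_of_nonneg_left h4 (by norm_num : (0:ℝ) ≤ 1 / 10 ^ 9)
    linarith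
  have hlℓ : l = (1 - rh) / 2 * ℓ := by rw [hl, hℓ]; rfl
  have hl0 : 0 < l := by
    rw [hlℓ, hrh]
    have : (0:ℝ) < (1 - 1 / 10 ^ 9) / 2 := by norm_num
    exact mul_pos this hℓ0
  have hl1 : l ≤ ℓ / 2 := by
    rw [hlℓ]
    nlinarith
  have hl2 : ℓ / 2 ≤ 2 * l := by
    rw [hlℓ, hrh]
    norm_num
    linarith
  obtain ⟨z, hz⟩ : ∃ z : ℂ, z = Zc c l w := ⟨_, rfl⟩
  rw [← hl] at hw ⊢
  have hhm : hm m = (1 / 2) ^ m / l := by rw [hl]; rfl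
  have hhd : hd ℓ = l := hlℓ.symm
  have hP0 : (0 : ℝ) < (1 / 2) ^ m := by positivity
  have hsplit := phi_split (z := z) (by rw [hz]; exact hw) (c := c) (l := ℓ) hℓ0.le
  rw [hhd] at hsplit
  have heq := h.eq z (by rw [mem_ball_zero_iff, hz]; exact hw)
  rw [← hℓ, hsplit] at heq
  -- the rest
  have hR : ‖R z‖ ≤ 5 * rh * ((1 / 2) ^ m / ℓ) := by
    have h4 := h.bd z (by rw [mem_ball_zero_iff, hz]; exact hw)
    rw [← hℓ] at h4
    refine h4 ?_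
    have e1 : z * (starRingEnd ℂ) (pt c) = 1 + I * l * w := by
      have e2 : pt c * (starRingEnd ℂ) (pt c) = 1 := by
        rw [mul_conj, normSq_eq_norm_sq, norm_pt]
        norm_num
      rw [hz]
      unfold Zc
      linear_combination (1 + I * l * w) * e2
    rw [e1]
    have e3 : (1 + I * l * w : ℂ).im = l * w.re := by simp
    rw [e3, abs_mul, abs_of_pos hl0]
    nlinarith [abs_nonneg w.re]
  have hA := eb_phi (c := c) (σ := 1) (ℓ := ℓ) hl0 (by linarith) (by norm_num) hℓ0.le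
    (by nlinarith) h1 hw
  have hB := eb_phi (c := c) (σ := -1) (ℓ := ℓ) hl0 (by linarith) (by norm_num) hℓ0.le
    (by nlinarith) h1 hw
  rw [← hz] at hA hB ⊢
  rw [one_mul] at hA
  rw [show c + -1 * l = c - l by ring] at hB
  have hPC : (((1 / 2 : ℝ) ^ m : ℝ) : ℂ) ≠ 0 := by exact_mod_cast hP0.ne'
  have hlC : (l : ℂ) ≠ 0 := by exact_mod_cast hl0.ne'
  have key : HH z / (hm m : ℂ) - G0 w =
      (((l / 2 : ℝ) : ℂ) * Phi (c + l) (rh * ℓ) z - I / (w - (1 : ℝ))) +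
      (((l / 2 : ℝ) : ℂ) * Phi (c - l) (rh * ℓ) z - I / (w - (-1 : ℝ))) +
      ((l / (1 / 2) ^ m : ℝ) : ℂ) * R z := by
    have e1 : HH z / (hm m : ℂ) = HH z * ((l / (1 / 2) ^ m : ℝ) : ℂ) := by
      rw [hhm, div_eq_mul_inv]
      congr 1
      rw [← ofReal_inv, inv_div]
    have e2 : (((1 / 2 : ℝ) ^ m : ℝ) : ℂ) * ((l / (1 / 2) ^ m : ℝ) : ℂ) = (l : ℂ) := by
      rw [← ofReal_mul, mul_div_cancel₀ _ hP0.ne']
    have e3 : G0 w = I / (w - (1 : ℝ)) + I / (w - (-1 : ℝ)) := by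
      unfold G0
      push_cast
      rw [sub_neg_eq_add]
    rw [e1, heq, e3, real_smul]
    push_cast at e2 ⊢
    linear_combination (1 / 2 * (Phi (c - l) (rh * ℓ) z + Phi (c + l) (rh * ℓ) z)) * e2
  have hRl : ‖((l / (1 / 2) ^ m : ℝ) : ℂ) * R z‖ ≤ 5 * rh := by
    rw [norm_mul, norm_real, Real.norm_eq_abs, abs_of_pos (by positivity)]
    have h4 : l / (1 / 2) ^ m * ‖R z‖ ≤ l / (1 / 2) ^ m * (5 * rh * ((1 / 2) ^ m / ℓ)) :=
      mul_le_mul_of_nonneg_left hR (by positivity)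
    have h5 : l / (1 / 2) ^ m * (5 * rh * ((1 / 2) ^ m / ℓ)) = 5 * rh * (l / ℓ) := by
      field_simp
    have h6 : l / ℓ ≤ 1 := by
      rw [div_le_one hℓ0]
      linarith
    rw [h5] at h4
    nlinarith
  have b1 : 16 * (l + rh) ≤ 1 / 10 ^ 7 := by
    rw [hrh]
    norm_num at hℓ1 ⊢
    linarith
  have b2 : 5 * rh ≤ 1 / 10 ^ 7 := by
    rw [hrh]
    norm_num
  have b3 : (1 : ℝ) / 10 ^ 7 + 1 / 10 ^ 7 + 1 / 10 ^ 7 ≤ 1 / 10 ^ 6 := by norm_num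
  rw [key]
  refine norm_add₃_le.trans ?_
  linarith

end Pool.Agent.MP4b24a5.T3
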