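import Pool.Agent.Lib.MP_4b24a5_an_T3.AlA
import Pool.Agent.Lib.MP_4b24a5_an_T3.Mob

set_option autoImplicit false

/-!
# MP_4b24a5_an, project T3: factors
-/

noncomputable section

namespace Pool.Agent.MP4b24a5.T3

open Complex Metric Set MeasureTheory Filter Topology

private theorem fac_le {x y : EReal} (hy : 0 ≤ y) (h : ∀ K : ℝ, y ≤ K → x ≤ K) : x ≤ y := by
  induction y with
  | bot => exact absurd hy (not_le.2 EReal.bot_lt_zero)
  | coe a => exact h a le_rfl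
  | top => exact le_top

private theorem fac_circ {f : ℂ → ℂ} (hf : AnalyticOnNhd ℂ f (ball 0 1)) {r : ℝ} (h0 : 0 < r)
    (h1 : r < 1) : CircleIntegrable (fun z => Real.posLog ‖f z‖) 0 r := by
  refine ContinuousOn.circleIntegrable h0.le ?_
  have h2 : ContinuousOn f (sphere 0 r) := hf.continuousOn.mono fun z hz => by
    rw [mem_sphere_zero_iff_norm] at hz
    rw [mem_ball_zero_iff, hz]
    exact h1
  exact Real.continuous_posLog.comp_continuousOn h2.norm

private theorem fac_prox {f g : ℂ → ℂ} (hf : AnalyticOnNhd ℂ f (ball 0 1))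
    (hg : AnalyticOnNhd ℂ g (ball 0 1)) {C : ℝ}
    (h : ∀ z ∈ ball (0 : ℂ) 1, Real.posLog ‖g z‖ ≤ Real.posLog ‖f z‖ + C) :
    ∀ᶠ r in 𝓝[<] (1 : ℝ), prox g r ≤ prox f r + C := by
  have h0 : ∀ᶠ r in 𝓝[<] (1 : ℝ), r ∈ Ioo (0 : ℝ) 1 := Ioo_mem_nhdsLT one_pos
  filter_upwards [h0] with r hr
  have hci := fac_circ hf hr.1 hr.2
  have h2 : prox f r + C = Real.circleAverage ((fun z => Real.posLog ‖f z‖) + fun _ => C) 0 r := by
    rw [Real.circleAverage_add hci (circleIntegrable_const _ _ _), Real.circleAverage_const]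
    rfl
  rw [h2]
  refine Real.circleAverage_mono (fac_circ hg hr.1 hr.2)
    (hci.add (circleIntegrable_const _ _ _)) fun z hz => ?_
  rw [mem_sphere_zero_iff_norm, abs_of_pos hr.1] at hz
  exact h z (by
    rw [mem_ball_zero_iff, hz]
    exact hr.2)

private theorem fac_pow_an (b : ℝ) (d : ℕ) :
    AnalyticOnNhd ℂ (fun z : ℂ => (1 - b * z) ^ d) (ball 0 1) := by
  intro z _
  fun_prop

/-- PROOF. On the disc `(1 - b) ^ d ≤ ‖(1 - b z) ^ d‖ ≤ 2 ^ d`, so the values of `log⁺` differ by at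
most a constant; `bd_of_le` in both directions and `alph_le_iff` (for all real `K`). -/
theorem alph_fac {g : ℂ → ℂ} (hg : AnalyticOnNhd ℂ g (ball 0 1)) {b : ℝ} (h0 : 0 ≤ b)
    (h1 : b < 1) (d : ℕ) : alph (fun z => (1 - b * z) ^ d * g z) = alph g := by
  obtain ⟨F, hF⟩ : ∃ F : ℂ → ℂ, F = fun z => (1 - b * z) ^ d * g z := ⟨_, rfl⟩
  rw [← hF]
  have hFa : AnalyticOnNhd ℂ F (ball 0 1) := by
    rw [hF]
    exact (fac_pow_an b d).mul hg
  have hup : ∀ z ∈ ball (0 : ℂ) 1, ‖(1 - b * z : ℂ)‖ ≤ 2 := by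
    intro z hz
    rw [mem_ball_zero_iff] at hz
    have h2 : ‖(b : ℂ) * z‖ ≤ 1 := by
      rw [norm_mul, Complex.norm_real, Real.norm_eq_abs, abs_of_nonneg h0]
      exact mul_le_one₀ h1.le (norm_nonneg z) hz.le
    have h3 := norm_sub_le (1 : ℂ) (b * z)
    rw [norm_one] at h3
    linarith
  have hlow : ∀ z ∈ ball (0 : ℂ) 1, 1 - b ≤ ‖(1 - b * z : ℂ)‖ := by
    intro z hz
    rw [mem_ball_zero_iff] at hz
    have h2 : ‖(b : ℂ) * z‖ ≤ b := by
      rw [norm_mul, Complex.norm_real, Real.norm_eq_abs, abs_of_nonneg h0]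
      exact mul_le_of_le_one_right h0 hz.le
    have h3 := norm_sub_norm_le (1 : ℂ) (b * z)
    rw [norm_one] at h3
    linarith
  have hb : 0 < 1 - b := by linarith
  have c1 : ∀ z ∈ ball (0 : ℂ) 1,
      Real.posLog ‖F z‖ ≤ Real.posLog ‖g z‖ + Real.posLog ((2 : ℝ) ^ d) := by
    intro z hz
    have h2 : ‖F z‖ = ‖(1 - b * z : ℂ)‖ ^ d * ‖g z‖ := by
      rw [hF]
      show ‖(1 - b * z : ℂ) ^ d * g z‖ = _
      rw [norm_mul, norm_pow]
    rw [h2, add_comm]
    refine Real.posLog_mul.trans (add_le_add_left ?_ _)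
    exact Real.posLog_le_posLog (by positivity) (pow_le_pow_left₀ (norm_nonneg _) (hup z hz) d)
  have c2 : ∀ z ∈ ball (0 : ℂ) 1,
      Real.posLog ‖g z‖ ≤ Real.posLog ‖F z‖ + Real.posLog (((1 - b)⁻¹ : ℝ) ^ d) := by
    intro z hz
    have hn : 0 < ‖(1 - b * z : ℂ)‖ := hb.trans_le (hlow z hz)
    have h2 : ‖g z‖ = (‖(1 - b * z : ℂ)‖⁻¹) ^ d * ‖F z‖ := by
      rw [hF]
      show ‖g z‖ = _ * ‖(1 - b * z : ℂ) ^ d * g z‖
      rw [norm_mul, norm_pow, ← mul_assoc, ← mul_pow, inv_mul_cancel₀ hn.ne', one_pow, one_mul]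
    rw [h2, add_comm]
    refine Real.posLog_mul.trans (add_le_add_left ?_ _)
    refine Real.posLog_le_posLog (by positivity) (pow_le_pow_left₀ (by positivity) ?_ d)
    exact inv_anti₀ hb (hlow z hz)
  apply le_antisymm
  · refine fac_le (alph_nonneg hg) fun K hK => ?_
    exact (alph_le_iff hFa).2 (bd_of_le (fac_prox hg hFa c1) ((alph_le_iff hg).1 hK))
  · refine fac_le (alph_nonneg hFa) fun K hK => ?_
    exact (alph_le_iff hg).2 (bd_of_le (fac_prox hFa hg c2) ((alph_le_iff hFa).1 hK))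

end Pool.Agent.MP4b24a5.T3
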