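import Pool.Agent.Lib.MP_4b24a5_an_T3.Main

set_option autoImplicit false

/-!
# MP_4b24a5_an, project T3: monomials in one derivative
-/

noncomputable section

namespace Pool.Agent.MP4b24a5.T3

open Complex Metric Set MeasureTheory Filter Topology

theorem iteratedDeriv_pow_self (j : ℕ) (z : ℂ) :
    iteratedDeriv j (fun z : ℂ => z ^ j) z = (j.factorial : ℂ) := by
  rw [iteratedDeriv_eq_iterate, iter_deriv_pow, Finset.prod_range_natCast_sub, Nat.sub_self,
    pow_zero, mul_one, ← Nat.descFactorial_eq_prod_range, Nat.descFactorial_self]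

/-- the order of a power is `0` -/
theorem alph_pow (j : ℕ) : alph (fun z : ℂ => z ^ j) = 0 := by
  have han : AnalyticOnNhd ℂ (fun z : ℂ => z ^ j) (ball 0 1) := fun z _ => by fun_prop
  refine le_antisymm ?_ (alph_nonneg han)
  have h := (alph_le_iff han (K := 0)).2 ?_
  · simpa using h
  intro K' hK'
  have h1 : ∀ᶠ r in 𝓝[<] (1 : ℝ), 0 < r := by
    have := Ioo_mem_nhdsLT (show (0 : ℝ) < 1 by norm_num)
    filter_upwards [this] with r hr using hr.1
  filter_upwards [h1, self_mem_nhdsWithin] with r h0 hr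
  have hr1 : r < 1 := hr
  have h2 : prox (fun z : ℂ => z ^ j) r = 0 := by
    unfold prox
    rw [Real.circleAverage_congr_sphere (f₂ := fun _ => (0 : ℝ)) ?_]
    · simp [Real.circleAverage_const]
    · intro z hz
      have hz' : ‖z‖ = r := by
        rw [abs_of_pos h0] at hz
        simpa using hz
      simp only
      rw [Real.posLog_eq_zero_iff, norm_pow, hz', abs_of_nonneg (by positivity)]
      exact pow_le_one₀ h0.le hr1.le
  rw [h2]
  refine mul_nonneg (le_of_lt hK') ?_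
  unfold L
  have : Real.log (1 - r) ≤ 0 := Real.log_nonpos (by linarith) (by linarith)
  linarith

/-- every order `a ≥ 0` is attained by a function whose `j`-th derivative is bounded below -/
theorem exists_all {j : ℕ} (hj : j ≠ 0) {a : ℝ} (ha : 0 ≤ a) : ∃ f : ℂ → ℂ,
    AnalyticOnNhd ℂ f (ball 0 1) ∧ (¬ ∃ c, ∀ z ∈ ball (0 : ℂ) 1, f z = c) ∧
      alph f = (a : EReal) ∧ ∃ δ : ℝ, 0 < δ ∧ ∀ z ∈ ball (0 : ℂ) 1,
        δ ≤ ‖iteratedDeriv j f z‖ := by
  obtain ⟨d, rfl⟩ : ∃ d, j = d + 1 := Nat.exists_eq_succ_of_ne_zero hj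
  obtain ⟨f, hf, hfa, δ, hδ, hb⟩ : ∃ f : ℂ → ℂ, AnalyticOnNhd ℂ f (ball 0 1) ∧
      alph f = (a : EReal) ∧ ∃ δ : ℝ, 0 < δ ∧ ∀ z ∈ ball (0 : ℂ) 1,
        δ ≤ ‖iteratedDeriv (d + 1) f z‖ := by
    rcases ha.eq_or_lt with rfl | ha
    · refine ⟨fun z => z ^ (d + 1), fun z _ => by fun_prop, ?_, 1, one_pos, fun z _ => ?_⟩
      · rw [alph_pow]
        simp
      · rw [iteratedDeriv_pow_self]
        rw [Complex.norm_natCast]
        exact_mod_cast Nat.one_le_iff_ne_zero.2 (Nat.factorial_ne_zero _)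
    · exact main_pos d ha
  refine ⟨f, hf, ?_, hfa, δ, hδ, hb⟩
  rintro ⟨c, hc⟩
  have h0 : (0 : ℂ) ∈ ball (0 : ℂ) 1 := by simp
  have h1 : f =ᶠ[𝓝 0] fun _ => c := by
    filter_upwards [isOpen_ball.mem_nhds h0] with z hz using hc z hz
  have h2 := h1.iteratedDeriv_eq (d + 1)
  have h3 := hb 0 h0
  rw [h2] at h3
  simp [iteratedDeriv_const] at h3
  linarith

end Pool.Agent.MP4b24a5.T3
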