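import Pool.Agent.Lib.MP_4b24a5_an_T3.Defs

set_option autoImplicit false

/-!
# MP_4b24a5_an, project T3: the model function
-/

noncomputable section

namespace Pool.Agent.MP4b24a5.T3

open Complex Metric Set MeasureTheory Filter Topology

theorem g0_imag {y : ℝ} (hy : 0 < y) : G0 (y * I) = ((2 * y / (1 + y ^ 2) : ℝ) : ℂ) := by
  have h1 : (y * I - 1 : ℂ) ≠ 0 := by
    intro h
    have := congrArg Complex.im h
    simp at this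
    exact hy.ne' this
  have h2 : (y * I + 1 : ℂ) ≠ 0 := by
    intro h
    have := congrArg Complex.im h
    simp at this
    exact hy.ne' this
  have h3 : (1 + (y : ℂ) ^ 2) ≠ 0 := by
    have : (0 : ℝ) < 1 + y ^ 2 := by positivity
    exact_mod_cast this.ne'
  unfold G0
  push_cast
  rw [div_add_div _ _ h1 h2, div_eq_div_iff (mul_ne_zero h1 h2) h3]
  linear_combination (2 * (y : ℂ)) * I_sq

private theorem g0_hasDeriv {w : ℂ} (h1 : w ≠ 1) (h2 : w ≠ -1) :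
    HasDerivAt G0 (-I / (w - 1) ^ 2 + -I / (w + 1) ^ 2) w := by
  have e1 : w - 1 ≠ 0 := sub_ne_zero.2 h1
  have e2 : w + 1 ≠ 0 := fun h => h2 (eq_neg_of_add_eq_zero_left h)
  have d1 := (hasDerivAt_const w I).div ((hasDerivAt_id w).sub_const 1) e1
  have d2 := (hasDerivAt_const w I).div ((hasDerivAt_id w).add_const 1) e2
  refine (d1.add d2).congr_deriv ?_
  simp

theorem g0_diff {w : ℂ} (h1 : w ≠ 1) (h2 : w ≠ -1) : DifferentiableAt ℂ G0 w :=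
  (g0_hasDeriv h1 h2).differentiableAt

/-- PROOF. `G0' (i + v) = -2 i (w ^ 2 + 1) / (w ^ 2 - 1) ^ 2 = v (1 - i v / 2) / (1 - a) ^ 2`, `a =
i v + v ^ 2 / 2`, and `(1 - i v / 2) - (1 - a) ^ 2 = (3 / 2) i v + v ^ 2 - a ^ 2`, of modulus at
most `2 ‖v‖`, and `‖1 - a‖ ^ 2 ≥ 1 / 2` for `‖v‖ ≤ 1 / 50`. -/
theorem g0_deriv {w : ℂ} (h : ‖w - I‖ ≤ 1 / 50) : ‖deriv G0 w - (w - I)‖ ≤ 4 * ‖w - I‖ ^ 2 := by
  obtain ⟨v, hv⟩ : ∃ v, v = w - I := ⟨_, rfl⟩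
  have hw : w = I + v := by rw [hv]; ring
  rw [← hv] at h ⊢
  obtain ⟨a, ha⟩ : ∃ a, a = I * v + v ^ 2 / 2 := ⟨_, rfl⟩
  have hv0 : 0 ≤ ‖v‖ := norm_nonneg v
  have na : ‖a‖ ≤ ‖v‖ + ‖v‖ ^ 2 / 2 := by
    rw [ha]
    refine (norm_add_le _ _).trans ?_
    simp
  have na1 : ‖a‖ ≤ 1 / 40 := by nlinarith
  have h1a : (39 : ℝ) / 40 ≤ ‖1 - a‖ := by
    have := norm_sub_norm_le (1 : ℂ) a
    rw [norm_one] at this
    linarith
  have h1a0 : (1 - a) ≠ 0 := by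
    rw [← norm_pos_iff]
    linarith
  have hprod : (w - 1) * (w + 1) = -2 * (1 - a) := by
    rw [hw, ha]
    linear_combination I_sq
  have e1 : w - 1 ≠ 0 := fun h => by
    rw [h, zero_mul] at hprod
    exact h1a0 (by linear_combination (1 / 2 : ℂ) * hprod)
  have e2 : w + 1 ≠ 0 := fun h => by
    rw [h, mul_zero] at hprod
    exact h1a0 (by linear_combination (1 / 2 : ℂ) * hprod)
  rw [(g0_hasDeriv (sub_ne_zero.1 e1) (fun h => e2 (by rw [h]; ring))).deriv]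
  have key : -I / (w - 1) ^ 2 + -I / (w + 1) ^ 2 - v =
      v * (3 / 2 * I * v + v ^ 2 - a ^ 2) / (1 - a) ^ 2 := by
    have h4 : -I / (w - 1) ^ 2 + -I / (w + 1) ^ 2 =
        -I * ((w + 1) ^ 2 + (w - 1) ^ 2) / (4 * (1 - a) ^ 2) := by
      have h5 : 4 * (1 - a) ^ 2 = (w - 1) ^ 2 * (w + 1) ^ 2 := by
        rw [← mul_pow, hprod]; ring
      rw [h5]
      field_simp
      ring
    rw [h4, eq_div_iff (pow_ne_zero 2 h1a0)]
    have h6 : -I * ((w + 1) ^ 2 + (w - 1) ^ 2) / (4 * (1 - a) ^ 2) * (1 - a) ^ 2 =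
        -I * ((w + 1) ^ 2 + (w - 1) ^ 2) / 4 := by
      field_simp
    rw [sub_mul, h6, hw, ha]
    linear_combination (-I / 2 - v) * I_sq
  rw [key, norm_div, norm_mul, norm_pow, div_le_iff₀ (by positivity)]
  have n1 : ‖3 / 2 * I * v + v ^ 2 - a ^ 2‖ ≤ 3 / 2 * ‖v‖ + ‖v‖ ^ 2 + ‖a‖ ^ 2 := by
    refine (norm_sub_le _ _).trans ?_
    rw [norm_pow]
    gcongr
    refine (norm_add_le _ _).trans ?_
    rw [norm_pow]
    gcongr
    rw [norm_mul, norm_mul, norm_I, norm_div]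
    simp
  have n2 : ‖a‖ ^ 2 ≤ 2 * ‖v‖ ^ 2 := by
    have : ‖a‖ ≤ 5 / 4 * ‖v‖ := by nlinarith
    nlinarith [norm_nonneg a]
  have n3 : ‖3 / 2 * I * v + v ^ 2 - a ^ 2‖ ≤ 2 * ‖v‖ := by nlinarith
  have n4 : (1 : ℝ) / 2 ≤ ‖1 - a‖ ^ 2 := by nlinarith
  calc ‖v‖ * ‖3 / 2 * I * v + v ^ 2 - a ^ 2‖ ≤ ‖v‖ * (2 * ‖v‖) :=
        mul_le_mul_of_nonneg_left n3 hv0
    _ = 4 * ‖v‖ ^ 2 * (1 / 2) := by ring
    _ ≤ _ := mul_le_mul_of_nonneg_left n4 (by positivity)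

/-- PROOF. `(G0 w).re = y / ((x - 1) ^ 2 + y ^ 2) + y / ((x + 1) ^ 2 + y ^ 2)` and `(x ± 1) ^ 2 ≥ 9
/ 16`. -/
theorem g0_low {w : ℂ} (h : |w.re| ≤ 1 / 4) (h0 : 0 < w.im) (h1 : w.im ≤ 1 / 4) :
    (G0 w).re ≤ 8 / 9 := by
  obtain ⟨h2, h3⟩ := abs_le.1 h
  have e : (G0 w).re = w.im / ((w.re - 1) ^ 2 + w.im ^ 2) +
      w.im / ((w.re + 1) ^ 2 + w.im ^ 2) := by
    unfold G0
    simp only [add_re, div_re, I_re, I_im, sub_re, sub_im, one_re, one_im, add_im, normSq_apply]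
    ring
  rw [e]
  have b1 : w.im / ((w.re - 1) ^ 2 + w.im ^ 2) ≤ 4 / 9 := by
    rw [div_le_iff₀ (by positivity)]
    nlinarith [sq_nonneg w.im]
  have b2 : w.im / ((w.re + 1) ^ 2 + w.im ^ 2) ≤ 4 / 9 := by
    rw [div_le_iff₀ (by positivity)]
    nlinarith [sq_nonneg w.im]
  linarith

end Pool.Agent.MP4b24a5.T3
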