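import Pool.Agent.Lib.MP_4b24a5_an_T3.G0A

set_option autoImplicit false

/-!
# MP_4b24a5_an, project T3: the path into the gap
-/

noncomputable section

namespace Pool.Agent.MP4b24a5.T3

open Complex Metric Set MeasureTheory Filter Topology

private theorem gw_seg {U : Set ℂ} {G f : ℂ → ℂ} {lam B : ℝ} (hlam : 0 ≤ lam)
    (hf : ∀ w ∈ U, HasDerivAt f (Complex.exp (lam * G w)) w) {a b : ℂ}
    (hU : segment ℝ a b ⊆ U) (hB : ∀ z ∈ segment ℝ a b, (G z).re ≤ B) :
    ‖f b - f a‖ ≤ Real.exp (lam * B) * ‖b - a‖ := by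
  refine Convex.norm_image_sub_le_of_norm_hasDerivWithin_le (𝕜 := ℂ)
    (fun z hz => (hf z (hU hz)).hasDerivWithinAt) (fun z hz => ?_) (convex_segment a b)
    (left_mem_segment ℝ a b) (right_mem_segment ℝ a b)
  rw [Complex.norm_exp, Real.exp_le_exp, re_ofReal_mul]
  exact mul_le_mul_of_nonneg_left (hB z hz) hlam

private theorem gw_re {z z' : ℂ} {e : ℝ} (h : ‖z - z'‖ ≤ e) : z.re ≤ z'.re + e ∧
    z'.re ≤ z.re + e := by
  have h1 := (abs_re_le_norm (z - z')).trans h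
  rw [sub_re, abs_le] at h1
  constructor <;> linarith [h1.1, h1.2]

/-- PROOF. `f w - f wg` is at most the integral of `exp (lam * re G)` over the segments from `wg`
to `i / 4` and from `i / 4` to `w` (both in `U`, total length at most `2`; mean value inequality).
On the first one `re (G (i y)) ≤ 2 y / (1 + y ^ 2) + 1 / 10 ^ 6` (`g0_imag`), increasing in `y ≤ 49
/ 50`, so it is at most `re (G0 wg) + 1 / 10 ^ 6 ≤ re (G wg) + 2 / 10 ^ 6`; on the second one `re G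
≤ 8 / 9 + 1 / 10 ^ 6 ≤ re (G wg)` (`g0_low`; all its points have `|re| ≤ 1 / 4` and `0 < im ≤ 1 /
4`). -/
theorem gapW {U : Set ℂ} (hU : Convex ℝ U) {G f : ℂ → ℂ}
    (hG : ∀ w ∈ U, |w.re| ≤ 1 / 4 → 0 < w.im → w.im ≤ 2 → ‖G w - G0 w‖ ≤ 1 / 10 ^ 6)
    (hUi : ∀ y : ℝ, 1 / 8 ≤ y → y ≤ 2 → (y * I : ℂ) ∈ U) {lam : ℝ} (hlam : 0 ≤ lam)
    (hf : ∀ w ∈ U, HasDerivAt f (Complex.exp (lam * G w)) w) {w : ℂ} (hw : w ∈ U)
    (h1 : |w.re| ≤ 1 / 4) (h2 : 0 < w.im) (h3 : w.im ≤ 1 / 4) :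
    ‖f w - f wg‖ ≤ 2 * Real.exp (lam * ((G wg).re + 2 / 10 ^ 6)) := by
  obtain ⟨m, hm⟩ : ∃ m : ℂ, m = ((1 / 4 : ℝ) : ℂ) * I := ⟨_, rfl⟩
  have hmU : m ∈ U := by
    rw [hm]
    exact hUi (1 / 4) (by norm_num) (by norm_num)
  have hgU : wg ∈ U := hUi (49 / 50) (by norm_num) (by norm_num)
  have hgG := gw_re (hG wg hgU (by simp [wg]) (by simp [wg]) (by simp [wg]; norm_num))
  have hg0 : (G0 wg).re = 2 * (49 / 50) / (1 + (49 / 50) ^ 2) := by
    unfold wg
    rw [g0_imag (by norm_num), ofReal_re]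
  -- the first segment
  have hs1 : ∀ z ∈ segment ℝ wg m, ∃ y : ℝ, 1 / 4 ≤ y ∧ y ≤ 49 / 50 ∧ z = y * I := by
    intro z hz
    rw [segment_eq_image'] at hz
    obtain ⟨t, ht, rfl⟩ := hz
    refine ⟨49 / 50 + t * (1 / 4 - 49 / 50), by linarith [ht.2], by linarith [ht.1], ?_⟩
    beta_reduce
    rw [hm, real_smul]
    unfold wg
    push_cast
    ring
  have k1 : ‖f m - f wg‖ ≤ Real.exp (lam * ((G wg).re + 2 / 10 ^ 6)) * ‖m - wg‖ := by
    refine gw_seg hlam hf (hU.segment_subset hgU hmU) fun z hz => ?_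
    obtain ⟨y, hy1, hy2, rfl⟩ := hs1 z hz
    have hzU := hUi y (by linarith) (by linarith)
    have h4 := (gw_re (hG _ hzU (by simp) (by simp; linarith) (by simp; linarith))).1
    rw [g0_imag (by linarith), ofReal_re] at h4
    have h5 : 2 * y / (1 + y ^ 2) ≤ 2 * (49 / 50) / (1 + (49 / 50) ^ 2) := by
      rw [div_le_div_iff₀ (by positivity) (by positivity)]
      nlinarith [mul_nonneg (sub_nonneg.2 hy2) (by nlinarith : (0:ℝ) ≤ 1 - y * (49 / 50))]
    rw [hg0] at hgG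
    linarith [hgG.2]
  have l1 : ‖m - wg‖ ≤ 3 / 4 := by
    have e : m - wg = ((-73 / 100 : ℝ) : ℂ) * I := by
      rw [hm]
      unfold wg
      push_cast
      ring
    rw [e, norm_mul, norm_I, mul_one, norm_real, Real.norm_eq_abs]
    norm_num
  -- the second segment
  have k2 : ‖f w - f m‖ ≤ Real.exp (lam * ((G wg).re + 2 / 10 ^ 6)) * ‖w - m‖ := by
    have hsub := hU.segment_subset hmU hw
    refine gw_seg hlam hf hsub fun z hz => ?_
    have hzU := hsub hz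
    rw [segment_eq_image'] at hz
    obtain ⟨t, ht, hzt⟩ := hz
    beta_reduce at hzt
    have e1 : z.re = t * w.re := by
      rw [← hzt, hm, real_smul]
      simp
    have e2 : z.im = (1 - t) * (1 / 4) + t * w.im := by
      rw [← hzt, hm, real_smul]
      simp
      ring
    have hre : |z.re| ≤ 1 / 4 := by
      rw [e1, abs_mul, abs_of_nonneg ht.1]
      nlinarith [ht.1, ht.2, abs_nonneg w.re]
    have him : 0 < z.im := by
      rw [e2]
      rcases eq_or_lt_of_le ht.2 with h | h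
      · rw [h]
        linarith
      · nlinarith [ht.1, mul_nonneg ht.1 h2.le]
    have him2 : z.im ≤ 1 / 4 := by
      rw [e2]
      nlinarith [ht.1]
    have h4 := (gw_re (hG z hzU hre him (by linarith))).1
    have h5 := g0_low hre him him2
    rw [hg0] at hgG
    norm_num at h4 h5 hgG ⊢
    linarith [hgG.2]
  have l2 : ‖w - m‖ ≤ 1 / 2 := by
    refine (norm_le_abs_re_add_abs_im _).trans ?_
    have e1 : (w - m).re = w.re := by rw [hm]; simp
    have e2 : (w - m).im = w.im - 1 / 4 := by rw [hm]; simp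
    rw [e1, e2]
    have h4 : |w.im - 1 / 4| ≤ 1 / 4 := by rw [abs_le]; constructor <;> linarith
    linarith
  have hE := Real.exp_pos (lam * ((G wg).re + 2 / 10 ^ 6))
  calc ‖f w - f wg‖ = ‖(f w - f m) + (f m - f wg)‖ := by ring_nf
    _ ≤ ‖f w - f m‖ + ‖f m - f wg‖ := norm_add_le _ _
    _ ≤ Real.exp (lam * ((G wg).re + 2 / 10 ^ 6)) * (1 / 2) +
        Real.exp (lam * ((G wg).re + 2 / 10 ^ 6)) * (3 / 4) :=
      add_le_add (k2.trans (mul_le_mul_of_nonneg_left l2 hE.le))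
        (k1.trans (mul_le_mul_of_nonneg_left l1 hE.le))
    _ ≤ 2 * Real.exp (lam * ((G wg).re + 2 / 10 ^ 6)) := by linarith

end Pool.Agent.MP4b24a5.T3
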