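import Pool.Agent.Lib.MP_4b24a5_an_T3.SadA

set_option autoImplicit false

/-!
# MP_4b24a5_an, project T3: the saddle lemma
-/

noncomputable section

namespace Pool.Agent.MP4b24a5.T3

open Complex Metric Set MeasureTheory Filter Topology

/-- integration along a segment on which the real part of `G` is at most its value at the end -/
private theorem sb_seg {G f : ℂ → ℂ} {lam : ℝ} (hlam : 0 ≤ lam)
    (hf : ∀ w ∈ ball I (1 / 4), HasDerivAt f (Complex.exp (lam * G w)) w) {w w0 : ℂ}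
    (hw : ‖w - I‖ ≤ 1 / 50) (hw0 : ‖w0 - I‖ ≤ 1 / 50) (hl : ‖w - w0‖ ≤ 3 / 100)
    (h1 : ∀ t ∈ Icc (0 : ℝ) 1, (G (w0 + t * (w - w0))).re ≤ (G w).re)
    (h2 : (G w0).re + 1 / 40000 ≤ (G w).re)
    (h3 : ‖f w0‖ ≤ 1 / 100 * Real.exp (lam * ((G w0).re + 1 / 40000))) :
    ‖f w‖ ≤ 4 / 100 * Real.exp (lam * (G w).re) := by
  have hseg : segment ℝ w0 w ⊆ ball I (1 / 4) := by
    intro z hz
    have hc : segment ℝ w0 w ⊆ closedBall I (1 / 50) :=
      (convex_closedBall I (1 / 50)).segment_subset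
        (by rw [mem_closedBall, dist_eq_norm]; exact hw0)
        (by rw [mem_closedBall, dist_eq_norm]; exact hw)
    exact closedBall_subset_ball (by norm_num) (hc hz)
  have hb : ∀ z ∈ segment ℝ w0 w, ‖Complex.exp (lam * G z)‖ ≤ Real.exp (lam * (G w).re) := by
    intro z hz
    rw [segment_eq_image'] at hz
    obtain ⟨t, ht, rfl⟩ := hz
    rw [Complex.norm_exp, Real.exp_le_exp]
    have e : w0 + t • (w - w0) = w0 + (t : ℂ) * (w - w0) := by rw [real_smul]
    have h4 := h1 t ht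
    rw [← e] at h4
    have e2 : ((lam : ℂ) * G (w0 + t • (w - w0))).re = lam * (G (w0 + t • (w - w0))).re := by
      rw [re_ofReal_mul]
    show ((lam : ℂ) * G (w0 + t • (w - w0))).re ≤ lam * (G w).re
    rw [e2]
    exact mul_le_mul_of_nonneg_left h4 hlam
  have h4 := Convex.norm_image_sub_le_of_norm_hasDerivWithin_le (𝕜 := ℂ)
    (fun z hz => (hf z (hseg hz)).hasDerivWithinAt) hb (convex_segment w0 w)
    (left_mem_segment ℝ w0 w) (right_mem_segment ℝ w0 w)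
  have h5 : Real.exp (lam * ((G w0).re + 1 / 40000)) ≤ Real.exp (lam * (G w).re) :=
    Real.exp_le_exp.2 (mul_le_mul_of_nonneg_left h2 hlam)
  have h6 : Real.exp (lam * (G w).re) * ‖w - w0‖ ≤ Real.exp (lam * (G w).re) * (3 / 100) :=
    mul_le_mul_of_nonneg_left hl (Real.exp_pos _).le
  calc ‖f w‖ = ‖f w0 + (f w - f w0)‖ := by ring_nf
    _ ≤ ‖f w0‖ + ‖f w - f w0‖ := norm_add_le _ _
    _ ≤ 4 / 100 * Real.exp (lam * (G w).re) := by linarith

/-- maximum principle and Cauchy estimate for a function on a disc -/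
private theorem sb_max {F : ℂ → ℂ} {r C : ℝ} (hr : 0 < r) (hr4 : r < 1 / 4)
    (hF : DifferentiableOn ℂ F (ball I (1 / 4))) (hC : ∀ w, ‖w - I‖ = r → ‖F w‖ ≤ C) :
    ∀ w, ‖w - I‖ ≤ r → ‖F w‖ ≤ C := by
  intro w hw
  have hd : DiffContOnCl ℂ F (ball I r) := by
    refine DifferentiableOn.diffContOnCl ?_
    rw [closure_ball I hr.ne']
    exact hF.mono (closedBall_subset_ball hr4)
  refine norm_le_of_forall_mem_frontier_norm_le isBounded_ball hd (fun z hz => ?_) ?_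
  · rw [frontier_ball I hr.ne', mem_sphere, dist_eq_norm] at hz
    exact hC z hz
  · rw [closure_ball I hr.ne', mem_closedBall, dist_eq_norm]
    exact hw

private theorem sb_cauchy {F : ℂ → ℂ} {r C : ℝ} (hr : 0 < r)
    (hF : DifferentiableOn ℂ F (ball I (1 / 4))) {w : ℂ} (hw : ‖w - I‖ + r < 1 / 4)
    (hC : ∀ z, ‖z - w‖ = r → ‖F z‖ ≤ C) : ‖deriv F w‖ ≤ C / r := by
  have hd : DiffContOnCl ℂ F (ball w r) := by
    refine DifferentiableOn.diffContOnCl ?_
    rw [closure_ball w hr.ne']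
    refine hF.mono fun z hz => ?_
    rw [mem_closedBall, dist_eq_norm] at hz
    rw [mem_ball, dist_eq_norm]
    calc ‖z - I‖ = ‖(z - w) + (w - I)‖ := by ring_nf
      _ ≤ ‖z - w‖ + ‖w - I‖ := norm_add_le _ _
      _ < 1 / 4 := by linarith
  refine norm_deriv_le_of_forall_mem_sphere_norm_le hr hd fun z hz => ?_
  rw [mem_sphere, dist_eq_norm] at hz
  exact hC z hz

/-- PROOF. Suppose `‖f wg‖ ≤ 1 / 100 * exp (lam * (re (G wg) + 1 / 40000))`. Put `δ = 1 / 100`,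
`F w = f w * exp (- lam * G w)`, so `F' = 1 - lam * G' * F` on `ball I (1 / 4)`. For
`‖w - I‖ = δ` and `w.im ≤ 1` integrate `f'` along the segment from `wg` to `w` (`seg_g`; length at
most `3 δ`): `‖f w‖ ≤ ‖f wg‖ + 3 δ exp (lam * re (G w)) ≤ 4 δ exp (lam * re (G w))`; for
`1 ≤ w.im` the same with `wt` (`seg_t`, `ht`). So `‖F‖ ≤ 4 δ` on the circle, hence on the disc
`‖w - I‖ ≤ δ` (maximum principle). Cauchy: `‖F'‖ ≤ 8` on `‖w - I‖ ≤ δ / 2`. On `‖w - I‖ = δ / 2`,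
`‖G' w‖ ≥ 48 / 10000` (`near_deriv`), so `‖F w‖ = ‖1 - F' w‖ / (lam ‖G' w‖) ≤ 1875 / lam`, and this
holds for `‖w - I‖ ≤ δ / 2` (maximum principle). Cauchy: `‖F' I‖ ≤ 375000 / lam`. At `w = I`:
`1 = F' I + lam * G' I * F I`, `‖G' I‖ ≤ 1 / 10 ^ 5`, so `1 ≤ 375000 / lam + 1875 / 10 ^ 5 < 1`,
a contradiction. -/
theorem saddle {G f : ℂ → ℂ} (h : Near G) {lam : ℝ} (hlam : 10 ^ 6 ≤ lam)
    (hf : ∀ w ∈ ball I (1 / 4), HasDerivAt f (Complex.exp (lam * G w)) w)
    (ht : ‖f wt‖ ≤ 1 / 100 * Real.exp (lam * ((G wt).re + 1 / 40000))) :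
    1 / 100 * Real.exp (lam * ((G wg).re + 1 / 40000)) < ‖f wg‖ := by
  by_contra hcon
  rw [not_lt] at hcon
  have hlam0 : 0 < lam := lt_of_lt_of_le (by norm_num) hlam
  have hwg : ‖wg - I‖ = 1 / 50 := by
    have e : wg - I = ((-1 / 50 : ℝ) : ℂ) * I := by
      unfold wg
      push_cast
      ring
    rw [e, norm_mul, norm_I, mul_one, norm_real, Real.norm_eq_abs]
    norm_num
  have hwt : ‖wt - I‖ = 1 / 50 := by
    have e : wt - I = ((1 / 50 : ℝ) : ℂ) * I := by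
      unfold wt
      push_cast
      ring
    rw [e, norm_mul, norm_I, mul_one, norm_real, Real.norm_eq_abs]
    norm_num
  -- the bound on the circle
  have s1 : ∀ w, ‖w - I‖ = 1 / 100 → ‖f w‖ ≤ 4 / 100 * Real.exp (lam * (G w).re) := by
    intro w hw
    have hl : ∀ w0 : ℂ, ‖w0 - I‖ = 1 / 50 → ‖w - w0‖ ≤ 3 / 100 := by
      intro w0 hw0
      calc ‖w - w0‖ = ‖(w - I) - (w0 - I)‖ := by ring_nf
        _ ≤ ‖w - I‖ + ‖w0 - I‖ := norm_sub_le _ _
        _ ≤ 3 / 100 := by rw [hw, hw0]; norm_num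
    rcases le_total w.im 1 with hi | hi
    · obtain ⟨g1, g2⟩ := seg_g h hw hi
      exact sb_seg hlam0.le hf (by rw [hw]; norm_num) hwg.le (hl wg hwg) g1 g2 hcon
    · obtain ⟨g1, g2⟩ := seg_t h hw hi
      exact sb_seg hlam0.le hf (by rw [hw]; norm_num) hwt.le (hl wt hwt) g1 g2 ht
  obtain ⟨F, hFd⟩ : ∃ F : ℂ → ℂ, F = fun w => f w * Complex.exp (-(lam * G w)) := ⟨_, rfl⟩
  have hder : ∀ w ∈ ball I (1 / 4), HasDerivAt F (1 - lam * deriv G w * F w) w := by
    intro w hw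
    have h1 : HasDerivAt G (deriv G w) w :=
      ((h.diff w hw).differentiableAt (isOpen_ball.mem_nhds hw)).hasDerivAt
    have h2 := (hf w hw).mul ((h1.const_mul (lam : ℂ)).neg.cexp)
    rw [hFd]
    refine h2.congr_deriv ?_
    have h3 : Complex.exp (lam * G w) * Complex.exp (-(lam * G w)) = 1 := by
      rw [← Complex.exp_add, add_neg_cancel, Complex.exp_zero]
    linear_combination h3
  have hFdiff : DifferentiableOn ℂ F (ball I (1 / 4)) := fun w hw =>
    (hder w hw).differentiableAt.differentiableWithinAt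
  have hFc : ∀ w, ‖w - I‖ = 1 / 100 → ‖F w‖ ≤ 4 / 100 := by
    intro w hw
    have h1 := s1 w hw
    rw [hFd]
    show ‖f w * Complex.exp (-(lam * G w))‖ ≤ 4 / 100
    rw [norm_mul, Complex.norm_exp, neg_re, re_ofReal_mul, Real.exp_neg,
      ← div_eq_mul_inv, div_le_iff₀ (Real.exp_pos _)]
    exact h1
  have hF1 := sb_max (F := F) (r := 1 / 100) (C := 4 / 100) (by norm_num) (by norm_num)
    hFdiff hFc
  have hF' : ∀ w, ‖w - I‖ ≤ 1 / 200 → ‖deriv F w‖ ≤ 8 := by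
    intro w hw
    have h1 := sb_cauchy (F := F) (r := 1 / 200) (C := 4 / 100) (w := w) (by norm_num) hFdiff
      (by linarith) (fun z hz => hF1 z (by
        calc ‖z - I‖ = ‖(z - w) + (w - I)‖ := by ring_nf
          _ ≤ ‖z - w‖ + ‖w - I‖ := norm_add_le _ _
          _ ≤ 1 / 100 := by rw [hz]; linarith))
    refine h1.trans (by norm_num)
  have hmem : ∀ w : ℂ, ‖w - I‖ ≤ 1 / 200 → w ∈ ball I (1 / 4) := by
    intro w hw
    rw [mem_ball, dist_eq_norm]
    exact hw.trans_lt (by norm_num)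
  have hFs : ∀ w, ‖w - I‖ = 1 / 200 → ‖F w‖ ≤ 1875 / lam := by
    intro w hw
    have h1 := near_deriv h (w := w) (by rw [hw]; norm_num)
    have h2 : 48 / 10000 ≤ ‖deriv G w‖ := by
      have h3 : ‖w - I‖ ≤ ‖deriv G w‖ + ‖deriv G w - (w - I)‖ := by
        calc ‖w - I‖ = ‖deriv G w - (deriv G w - (w - I))‖ := by ring_nf
          _ ≤ ‖deriv G w‖ + ‖deriv G w - (w - I)‖ := norm_sub_le _ _
      rw [hw] at h1 h3
      norm_num at h1 h3 ⊢
      linarith
    have h3 := (hder w (hmem w hw.le)).deriv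
    have h4 : lam * deriv G w * F w = 1 - deriv F w := by rw [h3]; ring
    have h5 : lam * ‖deriv G w‖ * ‖F w‖ ≤ 9 := by
      have h6 : ‖(lam : ℂ) * deriv G w * F w‖ ≤ 9 := by
        rw [h4]
        refine (norm_sub_le _ _).trans ?_
        rw [norm_one]
        linarith [hF' w hw.le]
      rw [norm_mul, norm_mul, norm_real, Real.norm_eq_abs, abs_of_pos hlam0] at h6
      exact h6
    rw [le_div_iff₀ hlam0]
    have h7 : lam * (48 / 10000) * ‖F w‖ ≤ lam * ‖deriv G w‖ * ‖F w‖ :=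
      mul_le_mul_of_nonneg_right (mul_le_mul_of_nonneg_left h2 hlam0.le) (norm_nonneg _)
    linarith
  have hF2 := sb_max (F := F) (r := 1 / 200) (C := 1875 / lam) (by norm_num) (by norm_num)
    hFdiff hFs
  have hFI : ‖deriv F I‖ ≤ 375000 / lam := by
    have h1 := sb_cauchy (F := F) (r := 1 / 200) (C := 1875 / lam) (w := I) (by norm_num) hFdiff
      (by rw [sub_self, norm_zero]; norm_num) (fun z hz => hF2 z hz.le)
    refine h1.trans (le_of_eq ?_)
    field_simp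
    norm_num
  have hI0 : ‖I - I‖ ≤ 1 / 200 := by rw [sub_self, norm_zero]; norm_num
  have h1 := near_deriv h (w := I) (by rw [sub_self, norm_zero]; norm_num)
  have h2 : ‖deriv G I‖ ≤ 1 / 10 ^ 5 := by simpa using h1
  have h3 := (hder I (hmem I hI0)).deriv
  have h4 : (1 : ℂ) = deriv F I + lam * deriv G I * F I := by rw [h3]; ring
  have h5 : (1 : ℝ) ≤ ‖deriv F I‖ + lam * ‖deriv G I‖ * ‖F I‖ := by
    calc (1 : ℝ) = ‖(1 : ℂ)‖ := norm_one.symm
      _ = ‖deriv F I + lam * deriv G I * F I‖ := by rw [← h4]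
      _ ≤ ‖deriv F I‖ + ‖(lam : ℂ) * deriv G I * F I‖ := norm_add_le _ _
      _ = ‖deriv F I‖ + lam * ‖deriv G I‖ * ‖F I‖ := by
        rw [norm_mul, norm_mul, norm_real, Real.norm_eq_abs, abs_of_pos hlam0]
  have h6 := hF2 I hI0
  have h7 : lam * ‖deriv G I‖ * ‖F I‖ ≤ lam * (1 / 10 ^ 5) * (1875 / lam) :=
    mul_le_mul (mul_le_mul_of_nonneg_left h2 hlam0.le) h6 (norm_nonneg _) (by positivity)
  have h8 : lam * (1 / 10 ^ 5) * (1875 / lam) = 1875 / 10 ^ 5 := by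
    field_simp
  have h9 : 375000 / lam ≤ 375000 / 10 ^ 6 :=
    div_le_div_of_nonneg_left (by norm_num) (by norm_num) hlam
  rw [h8] at h7
  norm_num at h7 h9
  linarith

end Pool.Agent.MP4b24a5.T3
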