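import Pool.Agent.Lib.MP_4b24a5_an_T3.PhiB

set_option autoImplicit false

/-!
# MP_4b24a5_an, project T3: the heights above a gap
-/

noncomputable section

namespace Pool.Agent.MP4b24a5.T3

open Complex Metric Set MeasureTheory Filter Topology

private theorem top_len_pos (m : ℕ) : 0 < len m := by
  unfold len l0 rh
  positivity

private theorem top_len_le (m : ℕ) : len m ≤ 1 / 10 ^ 9 := by
  unfold len l0
  have h : rh ^ m ≤ 1 := pow_le_one₀ (by unfold rh; positivity) (by unfold rh; norm_num)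
  calc (1 / 10 ^ 9 : ℝ) * rh ^ m ≤ 1 / 10 ^ 9 * 1 :=
        mul_le_mul_of_nonneg_left h (by positivity)
    _ = 1 / 10 ^ 9 := mul_one _

private theorem top_norm_sq (c φ t : ℝ) :
    ‖pt (c + φ) - t * pt c‖ ^ 2 = (1 - t) ^ 2 + 2 * t * (1 - Real.cos φ) := by
  have h1 : pt (c + φ) - t * pt c = pt c * (pt φ - t) := by
    unfold pt
    rw [mul_sub, ← Complex.exp_add]
    push_cast
    ring_nf
  have h2 : ‖pt c‖ = 1 := by
    unfold pt
    exact Complex.norm_exp_ofReal_mul_I c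
  rw [h1, norm_mul, h2, one_mul, ← Complex.normSq_eq_norm_sq, Complex.normSq_apply]
  have h3 : (pt φ - t).re = Real.cos φ - t := by
    unfold pt
    rw [Complex.sub_re, Complex.exp_ofReal_mul_I_re, Complex.ofReal_re]
  have h4 : (pt φ - t).im = Real.sin φ := by
    unfold pt
    rw [Complex.sub_im, Complex.exp_ofReal_mul_I_im, Complex.ofReal_im, sub_zero]
  rw [h3, h4]
  have h5 := Real.sin_sq_add_cos_sq φ
  linear_combination h5

private theorem top_real {l t y : ℝ} {φ : ℝ} (hl : 0 < l) (hl1 : l ≤ 1 / 10 ^ 9) (h0 : 0 ≤ t)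
    (hy : y = 1 - t) (hyl : 2 * l ≤ y) (hφ1 : (1 - 2 / 10 ^ 9) * l ≤ |φ|) (hφ2 : |φ| ≤ 2 * l) :
    2 * l * y ≤ 88 / 100 * (y ^ 2 + 2 * t * (1 - Real.cos φ)) := by
  have hcos : Real.cos φ ≤ 1 := Real.cos_le_one φ
  rcases le_or_gt (9 / 10) t with ht | ht
  · have h1 : |φ| ≤ 1 := by linarith
    have h2 := (abs_le.1 (Real.cos_bound h1)).2
    have h3 : |φ| ^ 2 = φ ^ 2 := sq_abs φ
    have h4 : |φ| ^ 4 = φ ^ 2 * φ ^ 2 := by rw [← h3]; ring
    have h5 : 0 ≤ |φ| := abs_nonneg φ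
    have h6 : φ ^ 2 ≤ 1 / 10 ^ 9 := by
      rw [← h3]
      nlinarith
    have h7 : (99 / 100) * l ^ 2 ≤ φ ^ 2 := by
      rw [← h3]
      have h8 : ((1 - 2 / 10 ^ 9) * l) ^ 2 ≤ |φ| ^ 2 := pow_le_pow_left₀ (by
        have : (0 : ℝ) ≤ 1 - 2 / 10 ^ 9 := by norm_num
        positivity) hφ1 2
      refine le_trans ?_ h8
      rw [mul_pow]
      exact mul_le_mul_of_nonneg_right (by norm_num) (sq_nonneg l)
    have h8 : (99 / 200) * φ ^ 2 ≤ 1 - Real.cos φ := by
      have h9 : φ ^ 2 * φ ^ 2 ≤ φ ^ 2 * (1 / 10 ^ 9) := mul_le_mul_of_nonneg_left h6 (sq_nonneg φ)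
      rw [h4] at h2
      linarith [sq_nonneg φ]
    have h9 : 88 / 100 * l ^ 2 ≤ 2 * t * (1 - Real.cos φ) := by
      have h10 : 0 ≤ 1 - Real.cos φ := by linarith
      have h11 : 2 * (9 / 10) * (1 - Real.cos φ) ≤ 2 * t * (1 - Real.cos φ) :=
        mul_le_mul_of_nonneg_right (by linarith) h10
      nlinarith [sq_nonneg l]
    have h10 : 0 ≤ (y - 2 * l) * l := mul_nonneg (by linarith) hl.le
    nlinarith [sq_nonneg (y - 2 * l), sq_nonneg l]
  · have h1 : 0 ≤ 2 * t * (1 - Real.cos φ) := mul_nonneg (by linarith) (by linarith)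
    have h2 : 1 / 10 < y := by linarith
    have h3 : 2 * l ≤ 88 / 100 * y := by linarith
    nlinarith

private theorem top_kk {l t c : ℝ} {φ : ℝ} (hl : 0 < l) (hl1 : l ≤ 1 / 10 ^ 9) (h0 : 0 ≤ t)
    (hyl : 2 * l ≤ 1 - t) (hφ1 : (1 - 2 / 10 ^ 9) * l ≤ |φ|) (hφ2 : |φ| ≤ 2 * l) :
    (kk (c + φ) (t * pt c)).re ≤ 88 / 100 / l := by
  have hn : ‖(t * pt c : ℂ)‖ = t := by
    have h2 : ‖pt c‖ = 1 := by
      unfold pt
      exact Complex.norm_exp_ofReal_mul_I c
    rw [norm_mul, h2, mul_one, Complex.norm_real, Real.norm_of_nonneg h0]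
  have h1 := top_real hl hl1 h0 rfl hyl hφ1 hφ2
  have hcos : Real.cos φ ≤ 1 := Real.cos_le_one φ
  have h2 : 0 < (1 - t) ^ 2 + 2 * t * (1 - Real.cos φ) := by
    have h3 : 0 < (1 - t) ^ 2 := pow_pos (by linarith) 2
    have h4 : 0 ≤ 2 * t * (1 - Real.cos φ) := mul_nonneg (by linarith) (by linarith)
    linarith
  rw [kk_re (by rw [hn]; linarith), hn, top_norm_sq, div_le_div_iff₀ h2 hl]
  have h3 : (1 - t ^ 2) * l ≤ 2 * l * (1 - t) := by
    have h4 : 0 ≤ (1 - t) * l := mul_nonneg (by linarith) hl.le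
    nlinarith
  linarith

/-- PROOF. Put `l = lm m`, `ℓ = len m`, `z = t * pt c` (`(z * conj (pt c)).im = 0`), `y = 1 - t ≥ 2
l`. By `h.eq`, `phi_split`, `h.bd`: `re (H z) ≤ (1/2) ^ m * max (re Φ ..) + 5 rh (1/2) ^ m / ℓ`,
and `5 rh / ℓ ≤ 1 / (100 l)`. For `x = c + φ`, `l (1 - 2 rh) ≤ |φ| ≤ 2 l` (the two subintervals),
`re (kk x z) = (1 - t ^ 2) / ‖pt φ - t‖ ^ 2 ≤ 2 y / (y ^ 2 + 2 t (1 - cos φ))` (`kk_re`). If `t ≥ 9
/ 10`, then `2 t (1 - cos φ) ≥ (88 / 100) l ^ 2` (`Real.cos_le_one_sub_mul_cos_sq` or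
`Real.one_sub_sq_div_two_le_cos`, `1 - cos φ = 2 sin (φ/2) ^ 2`), and `2 l y ≤ (88 / 100) (y ^ 2 +
(88 / 100) l ^ 2)` for `y ≥ 2 l`; if `t < 9 / 10` then `2 l y ≤ (88 / 100) y ^ 2` as `l ≤ l0`. So
`re (kk x z) ≤ (88 / 100) / l`, and by `phi_mem` for half planes the same for `Φ`. Total: `(88 /
100 + 1 / 100) (1/2) ^ m / l ≤ (9 / 10) hm m`. -/
theorem top {m : ℕ} {c : ℝ} {R : ℂ → ℂ} (h : Node m c R) {t : ℝ} (h0 : 0 ≤ t)
    (h1 : t ≤ 1 - 2 * lm m) : (HH (t * pt c)).re ≤ 9 / 10 * hm m := by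
  have hlen := top_len_pos m
  have hlen1 := top_len_le m
  have hlm : lm m = (1 - 1 / 10 ^ 9) / 2 * len m := rfl
  have hl : 0 < lm m := by
    rw [hlm]
    exact mul_pos (by norm_num) hlen
  have hl1 : lm m ≤ 1 / 10 ^ 9 := by
    rw [hlm]
    linarith
  have hn : ‖(t * pt c : ℂ)‖ = t := by
    have h2 : ‖pt c‖ = 1 := by
      unfold pt
      exact Complex.norm_exp_ofReal_mul_I c
    rw [norm_mul, h2, mul_one, Complex.norm_real, Real.norm_of_nonneg h0]
  have hz : ‖(t * pt c : ℂ)‖ < 1 := by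
    rw [hn]
    linarith
  have hzb : (t * pt c : ℂ) ∈ ball (0 : ℂ) 1 := by rwa [mem_ball_zero_iff]
  -- the two halves
  have hrh : rh = 1 / 10 ^ 9 := rfl
  have hhalf : ∀ c' : ℝ, |c' - c| = lm m → (Phi c' (rh * len m) (t * pt c)).re ≤
      88 / 100 / lm m := by
    intro c' hc'
    have hmem := phi_mem (C := {w : ℂ | w.re ≤ 88 / 100 / lm m})
      (convex_halfSpace_re_le _) (isClosed_le Complex.continuous_re continuous_const) hz
      (c := c') (l := rh * len m) (mul_nonneg (by rw [hrh]; norm_num) hlen.le) (by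
        intro x hx
        have hx' : |x - c'| ≤ rh * len m / 2 := by
          rw [abs_le]
          constructor <;> linarith [hx.1, hx.2]
        rw [hrh] at hx'
        have e1 : |x - c| ≤ |x - c'| + |c' - c| := abs_sub_le x c' c
        have e2 : |c' - c| ≤ |c' - x| + |x - c| := abs_sub_le c' x c
        rw [abs_sub_comm c' x] at e2
        have key := top_kk (c := c) (φ := x - c) hl hl1 h0 (by linarith)
          (by rw [hlm] at hc' ⊢; linarith) (by rw [hlm] at hc' ⊢; linarith)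
        rw [add_sub_cancel] at key
        exact key)
    exact hmem
  have hPhi : (Phi c (len m) (t * pt c)).re ≤ 88 / 100 / lm m := by
    rw [phi_split hz hlen.le]
    have a1 := hhalf (c - hd (len m)) (by
      rw [sub_sub_cancel_left, abs_neg]
      exact abs_of_pos hl)
    have a2 := hhalf (c + hd (len m)) (by
      rw [add_sub_cancel_left]
      exact abs_of_pos hl)
    rw [Complex.smul_re, Complex.add_re, smul_eq_mul]
    linarith
  have hR : ‖R (t * pt c)‖ ≤ 5 * rh * ((1 / 2) ^ m / len m) := by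
    refine h.bd _ hzb ?_
    have e : (t * pt c : ℂ) * (starRingEnd ℂ) (pt c) = (t : ℂ) := by
      rw [mul_assoc, Complex.mul_conj, Complex.normSq_eq_norm_sq]
      have h2 : ‖pt c‖ = 1 := by
        unfold pt
        exact Complex.norm_exp_ofReal_mul_I c
      rw [h2]
      simp
    rw [e, Complex.ofReal_im, abs_zero]
    positivity
  have hRre : (R (t * pt c)).re ≤ 1 / 100 * ((1 / 2) ^ m / lm m) := by
    refine (Complex.re_le_norm _).trans (hR.trans ?_)
    have hq : (0 : ℝ) < (1 / 2) ^ m := by positivity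
    rw [hrh]
    have e : 5 * (1 / 10 ^ 9 : ℝ) * ((1 / 2) ^ m / len m) =
        (5 * (1 / 10 ^ 9) * ((1 - 1 / 10 ^ 9) / 2)) * ((1 / 2) ^ m / lm m) := by
      rw [hlm]
      field_simp
    rw [e]
    exact mul_le_mul_of_nonneg_right (by norm_num) (by positivity)
  rw [h.eq _ hzb, Complex.add_re, Complex.re_ofReal_mul]
  have hq : (0 : ℝ) < (1 / 2) ^ m := by positivity
  have h2 := mul_le_mul_of_nonneg_left hPhi hq.le
  have h3 : (1 / 2 : ℝ) ^ m * (88 / 100 / lm m) = 88 / 100 * ((1 / 2) ^ m / lm m) := by ring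
  have h4 : 0 < (1 / 2 : ℝ) ^ m / lm m := by positivity
  unfold hm
  linarith

end Pool.Agent.MP4b24a5.T3
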