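import Pool.Agent.Lib.MP_4b24a5_an_T3.Eb
import Pool.Agent.Lib.MP_4b24a5_an_T3.Top
import Pool.Agent.Lib.MP_4b24a5_an_T3.SadB
import Pool.Agent.Lib.MP_4b24a5_an_T3.GapW

set_option autoImplicit false

/-!
# MP_4b24a5_an, project T3: the constant in a gap
-/

noncomputable section

namespace Pool.Agent.MP4b24a5.T3

open Complex Metric Set MeasureTheory Filter Topology

/-- the scales: `lm m` tends to `0` and `hm m` grows faster than `log (1 / lm m)`

PROOF. `lm m = (1 - rh) / 2 * l0 * rh ^ m`, `hm m = 2 / ((1 - rh) * l0) * (1 / (2 * rh)) ^ m`, and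
`log (1 / lm m) = m log (1 / rh) + const`. -/
theorem scales (K : ℝ) {s : ℝ} (hs : 0 < s) :
    ∀ᶠ m : ℕ in atTop, K * (1 + Real.log (1 / lm m)) ≤ s * hm m := by
  obtain ⟨a, ha⟩ : ∃ a : ℝ, a = (1 - rh) / 2 * l0 := ⟨_, rfl⟩
  have ha0 : 0 < a := by
    rw [ha]
    norm_num [rh, l0]
  have hr0 : (0 : ℝ) < rh := by norm_num [rh]
  obtain ⟨q, hq⟩ : ∃ q : ℝ, q = (1 / 2) / rh := ⟨_, rfl⟩
  have hq1 : 1 < q := by
    rw [hq]
    norm_num [rh]
  have hl : ∀ m : ℕ, lm m = a * rh ^ m := by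
    intro m
    rw [ha]
    unfold lm hd len
    ring
  have hh : ∀ m : ℕ, hm m = a⁻¹ * q ^ m := by
    intro m
    unfold hm
    rw [hl, hq, div_pow (1 / 2 : ℝ) rh m]
    field_simp
  have hlog : ∀ m : ℕ, Real.log (1 / lm m) = -Real.log a - m * Real.log rh := by
    intro m
    rw [hl, one_div, Real.log_inv, Real.log_mul ha0.ne' (pow_pos hr0 m).ne', Real.log_pow]
    ring
  have h0 := tendsto_pow_const_div_const_pow_of_one_lt 0 hq1
  have h1 := tendsto_pow_const_div_const_pow_of_one_lt 1 hq1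
  have h2 := (h0.const_mul (K * (1 - Real.log a))).add (h1.const_mul (-(K * Real.log rh)))
  rw [mul_zero, mul_zero, add_zero] at h2
  have h3 : (0 : ℝ) < s * a⁻¹ := by positivity
  filter_upwards [h2.eventually_lt_const h3] with m hm'
  have hqm : 0 < q ^ m := pow_pos (by linarith) m
  rw [hlog, hh]
  have h4 : K * (1 - Real.log a) * ((m : ℝ) ^ 0 / q ^ m) +
      -(K * Real.log rh) * ((m : ℝ) ^ 1 / q ^ m) =
      K * (1 + (-Real.log a - m * Real.log rh)) / q ^ m := by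
    field_simp
    ring
  rw [h4, div_lt_iff₀ hqm] at hm'
  linarith

private theorem lm_pos (m : ℕ) : 0 < lm m := by
  unfold lm hd len
  have h1 : (0 : ℝ) < rh := by norm_num [rh]
  have h2 : (0 : ℝ) < (1 - rh) / 2 := by norm_num [rh]
  have h3 : (0 : ℝ) < l0 := by norm_num [l0]
  positivity

private theorem lm_le (m : ℕ) : lm m ≤ 1 / 10 ^ 9 := by
  unfold lm hd len
  have h1 : (0 : ℝ) ≤ rh ^ m := pow_nonneg (by norm_num [rh]) m
  have h2 : rh ^ m ≤ 1 := pow_le_one₀ (by norm_num [rh]) (by norm_num [rh])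
  have h3 : (1 - rh) / 2 ≤ 1 := by norm_num [rh]
  have h4 : (0 : ℝ) ≤ (1 - rh) / 2 := by norm_num [rh]
  have h5 : l0 * rh ^ m ≤ 1 / 10 ^ 9 := by
    unfold l0
    nlinarith
  have h6 : 0 ≤ l0 * rh ^ m := mul_nonneg (by norm_num [l0]) h1
  calc (1 - rh) / 2 * (l0 * rh ^ m) ≤ 1 * (l0 * rh ^ m) := mul_le_mul_of_nonneg_right h3 h6
    _ ≤ 1 / 10 ^ 9 := by rw [one_mul]; exact h5

private theorem hm_pos (m : ℕ) : 0 < hm m := by
  unfold hm
  have := lm_pos m
  positivity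

private theorem Zc_norm (c : ℝ) {l : ℝ} (hl : 0 < l) (w : ℂ) :
    ‖Zc c l w‖ = l * ‖w - I / l‖ := by
  unfold Zc
  have hlc : (l : ℂ) ≠ 0 := ofReal_ne_zero.2 hl.ne'
  have h1 : 1 + I * l * w = (I * l) * (w - I / l) := by
    rw [mul_sub, mul_div_assoc', mul_comm (I * (l : ℂ)) I, ← mul_assoc I I, I_mul_I]
    field_simp
    ring
  rw [norm_mul, norm_pt, one_mul, h1, norm_mul, norm_mul, norm_I, one_mul, norm_real,
    Real.norm_eq_abs, abs_of_pos hl]

private theorem U_eq (c : ℝ) {l : ℝ} (hl : 0 < l) :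
    {w : ℂ | ‖Zc c l w‖ < 1} = ball (I / l) (1 / l) := by
  ext w
  change ‖Zc c l w‖ < 1 ↔ w ∈ ball (I / (l : ℂ)) (1 / l)
  rw [Zc_norm c hl, mem_ball, dist_eq_norm, lt_div_iff₀ hl, mul_comm]

private theorem Zc_imag (c l y : ℝ) : Zc c l (y * I) = ((1 - l * y : ℝ) : ℂ) * pt c := by
  unfold Zc
  have h1 : 1 + I * l * (y * I) = ((1 - l * y : ℝ) : ℂ) := by
    have h2 : I * l * (y * I) = (I * I) * (l * y) := by ring
    rw [h2, I_mul_I]
    push_cast
    ring
  rw [h1, mul_comm]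

private theorem Zc_imag_norm (c : ℝ) {l y : ℝ} (h0 : 0 < l * y) (h1 : l * y ≤ 1) :
    ‖Zc c l (y * I)‖ < 1 := by
  rw [Zc_imag, norm_mul, norm_pt, mul_one, norm_real, Real.norm_eq_abs, abs_lt]
  constructor <;> linarith

private theorem ball_mem (c : ℝ) {l : ℝ} (hl : 0 < l) {w : ℂ} (hw : w ∈ ball I (1 / 4)) :
    ‖Zc c l w‖ < 1 ∨ 1 ≤ l := by
  by_cases hl1 : 1 ≤ l
  · exact Or.inr hl1
  left
  rw [not_le] at hl1
  have h1 : w ∈ ball (I / (l : ℂ)) (1 / l) := by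
    rw [mem_ball, dist_eq_norm] at hw ⊢
    have hlc : (l : ℂ) ≠ 0 := ofReal_ne_zero.2 hl.ne'
    have h2 : w - I / l = (w - I) + (I - I / l) := by ring
    have h3 : ‖I - I / (l : ℂ)‖ = 1 / l - 1 := by
      have h4 : I - I / (l : ℂ) = ((1 - 1 / l : ℝ) : ℂ) * I := by
        push_cast
        field_simp
      rw [h4, norm_mul, norm_I, mul_one, norm_real, Real.norm_eq_abs, abs_of_nonpos]
      · ring
      · have : 1 ≤ 1 / l := by rw [le_div_iff₀ hl]; linarith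
        linarith
    rw [h2]
    refine (norm_add_le _ _).trans_lt ?_
    rw [h3]
    linarith
  have h5 := U_eq c hl
  have h6 : w ∈ {w : ℂ | ‖Zc c l w‖ < 1} := h5 ▸ h1
  exact h6

private theorem Zc_deriv (c l : ℝ) (w : ℂ) : HasDerivAt (Zc c l) (pt c * (I * l)) w := by
  unfold Zc
  have h1 : HasDerivAt (fun w : ℂ => 1 + I * l * w) (I * l) w := by
    have := ((hasDerivAt_id w).const_mul (I * (l : ℂ))).const_add 1
    simpa using this
  exact h1.const_mul (pt c)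

private theorem wt_val : (G0 wt).re = 5100 / 5101 := by
  have h1 : wt = ((51 / 50 : ℝ) : ℂ) * I := rfl
  rw [h1, g0_imag (by norm_num), ofReal_re]
  norm_num

private theorem wg_val : (G0 wg).re = 4900 / 4901 := by
  have h1 : wg = ((49 / 50 : ℝ) : ℂ) * I := rfl
  rw [h1, g0_imag (by norm_num), ofReal_re]
  norm_num

private theorem re_close {a b : ℂ} {e : ℝ} (h : ‖a - b‖ ≤ e) :
    a.re ≤ b.re + e ∧ b.re ≤ a.re + e := by
  have h1 := (abs_re_le_norm (a - b)).trans h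
  rw [sub_re, abs_le] at h1
  constructor <;> linarith [h1.1, h1.2]

private theorem mono_q {y : ℝ} (hy : 51 / 50 ≤ y) : 2 * y / (1 + y ^ 2) ≤ 5100 / 5101 := by
  rw [div_le_div_iff₀ (by positivity) (by norm_num)]
  nlinarith

/-- the bound of the function above the saddle point -/
private theorem upper_wt {s : ℝ} (hs : 0 < s) {d m : ℕ} {c : ℝ} {R : ℂ → ℂ} (hN : Node m c R)
    {f : ℂ → ℂ} (hf : FF (d + 1) s f) {g : ℝ}
    (hg : ‖HH (Zc c (lm m) wt) / (hm m : ℂ) - G0 wt‖ ≤ 1 / 10 ^ 6)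
    (hgd : g = (HH (Zc c (lm m) wt) / (hm m : ℂ)).re) :
    ‖iteratedDeriv d f (Zc c (lm m) wt)‖ ≤ Real.exp (s * hm m * (g + 2 / 10 ^ 6)) := by
  have hl := lm_pos m
  have hl9 := lm_le m
  have hh := hm_pos m
  have hz : Zc c (lm m) wt = ((1 - lm m * (51 / 50) : ℝ) : ℂ) * pt c := Zc_imag c (lm m) (51 / 50)
  have hzn : ‖Zc c (lm m) wt‖ < 1 :=
    Zc_imag_norm c (y := 51 / 50) (by positivity) (by norm_num at hl9 ⊢; linarith)
  have hg1 := (re_close hg).2
  rw [wt_val, ← hgd] at hg1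
  refine hf.bd d (Nat.le_succ d) _ (by rwa [mem_ball_zero_iff]) _ fun t ht => ?_
  obtain ⟨t', ht'⟩ : ∃ t' : ℝ, t' = t * (1 - lm m * (51 / 50)) := ⟨_, rfl⟩
  have htz : (t : ℂ) * Zc c (lm m) wt = (t' : ℂ) * pt c := by
    rw [hz, ht', ← mul_assoc]
    push_cast
    ring
  have hp : 0 < 1 - lm m * (51 / 50) := by
    norm_num at hl9 ⊢
    linarith
  have ht0 : 0 ≤ t' := by
    rw [ht']
    exact mul_nonneg ht.1 hp.le
  have ht1 : t' ≤ 1 - lm m * (51 / 50) := by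
    rw [ht']
    exact mul_le_of_le_one_left hp.le ht.2
  rw [htz]
  have key : (HH ((t' : ℂ) * pt c)).re ≤ hm m * (g + 2 / 10 ^ 6) := by
    rcases le_or_gt t' (1 - 2 * lm m) with h1 | h1
    · refine (top hN ht0 h1).trans ?_
      rw [mul_comm (9 / 10 : ℝ)]
      exact mul_le_mul_of_nonneg_left (by linarith) hh.le
    · obtain ⟨y, hy⟩ : ∃ y : ℝ, y = (1 - t') / lm m := ⟨_, rfl⟩
      have hly : lm m * y = 1 - t' := by
        rw [hy]
        field_simp
      have hy1 : 51 / 50 ≤ y := by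
        rw [hy, le_div_iff₀ hl]
        linarith
      have hy2 : y ≤ 2 := by
        rw [hy, div_le_iff₀ hl]
        linarith
      have hzy : Zc c (lm m) (y * I) = (t' : ℂ) * pt c := by
        rw [Zc_imag, hly]
        congr 2
        ring
      have hn : ‖Zc c (lm m) (y * I)‖ < 1 :=
        Zc_imag_norm c (mul_pos hl (by linarith)) (by rw [hly]; linarith)
      have he := eb hN hn (by simp) (by simp; linarith) (by simpa using hy2)
      rw [g0_imag (by linarith), hzy] at he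
      have h2 := (re_close he).1
      rw [ofReal_re, div_ofReal_re, div_le_iff₀ hh] at h2
      refine h2.trans ?_
      rw [mul_comm]
      refine mul_le_mul_of_nonneg_left ?_ hh.le
      have := mono_q hy1
      linarith
  calc s * (HH ((t' : ℂ) * pt c)).re ≤ s * (hm m * (g + 2 / 10 ^ 6)) :=
        mul_le_mul_of_nonneg_left key hs.le
    _ = s * hm m * (g + 2 / 10 ^ 6) := by ring

private theorem exp_aux {l lam X : ℝ} (hl : 0 < l) (hlam : 10 ^ 6 * (1 + Real.log (1 / l)) ≤ lam)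
    (hlog : 0 ≤ Real.log (1 / l)) :
    1 / l * Real.exp (lam * (X + 2 / 10 ^ 6)) ≤ 1 / 100 * Real.exp (lam * (X + 1 / 40000)) := by
  have h1 : 1 / l = Real.exp (Real.log (1 / l)) := (Real.exp_log (by positivity)).symm
  have h2 : (100 : ℝ) ≤ Real.exp 5 := by
    have h3 := Real.add_one_le_exp (1 : ℝ)
    have h4 : Real.exp 5 = Real.exp 1 ^ 5 := by
      rw [← Real.exp_nat_mul]
      norm_num
    have h5 := Real.exp_one_gt_d9
    rw [h4]
    have h6 : (2.7 : ℝ) ≤ Real.exp 1 := by linarith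
    calc (100 : ℝ) ≤ 2.7 ^ 5 := by norm_num
      _ ≤ Real.exp 1 ^ 5 := pow_le_pow_left₀ (by norm_num) h6 5
  have h7 : Real.exp 5 * (1 / l * Real.exp (lam * (X + 2 / 10 ^ 6))) ≤
      Real.exp (lam * (X + 1 / 40000)) := by
    rw [h1, ← Real.exp_add, ← Real.exp_add]
    refine Real.exp_le_exp.2 ?_
    linarith
  have h8 : 0 ≤ 1 / l * Real.exp (lam * (X + 2 / 10 ^ 6)) := by positivity
  nlinarith

/-- PROOF. Let `F = iteratedDeriv d f`, `l = lm m`, `lam = s * hm m`, `U = {w | ‖Zc c l w‖ < 1}`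
(open and convex; it contains `i y` for `0 < y ≤ 2` and `ball I (1 / 4)`, as `l` is tiny), `G w =
HH (Zc c l w) / hm m`, `f₁ w = F (Zc c l w) / (i l pt c)`; `f₁' = exp (lam G)` on `U`
(`iteratedDeriv_succ`, `hf.der`). By `eb`, `Near G` and the hypothesis of `gapW` hold. Upper bound
of `f₁ wt`: `hf.bd` with `i = d` at `z = Zc c l wt = (1 - l * 51 / 50) pt c`; the points `t z` are
`t' pt c`, and `re H ≤ (9 / 10) hm m` for `t' ≤ 1 - 2 l` (`top`), while for `1 - 2 l ≤ t' ≤ 1 - l *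
51 / 50` they are `Zc c l (i y)`, `51 / 50 ≤ y ≤ 2`, with `re H ≤ hm m * (2 y / (1 + y ^ 2) + 1 /
10 ^ 6) ≤ hm m * (re (G wt) + 2 / 10 ^ 6)` (`eb`, `g0_imag`). So `‖f₁ wt‖ ≤ (1 / l) exp (lam * (re
(G wt) + 2 / 10 ^ 6)) ≤ 1 / 100 * exp (lam * (re (G wt) + 1 / 40000))` for large `m` (`scales`).
`saddle` gives the lower bound of `‖f₁ wg‖`. Put `C = F (Zc c l wg)`; `‖C‖ ≥ l / 100 * exp (lam *
(re (G wg) + 1 / 40000)) ≥ exp (lam / 2)` (`re (G wg) ≥ 9 / 10`), and `gapW` gives `‖F (Zc c l w) -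
C‖ ≤ 2 l exp (lam * (re (G wg) + 2 / 10 ^ 6)) ≤ η ‖C‖` for large `m`. -/
theorem gapC {s : ℝ} (hs : 0 < s) (d : ℕ) {η : ℝ} (hη : 0 < η) :
    ∃ m₀ : ℕ, ∀ m : ℕ, m₀ ≤ m → ∀ (c : ℝ) (R : ℂ → ℂ), Node m c R → ∀ f : ℂ → ℂ,
      FF (d + 1) s f → ∃ C : ℂ, Real.exp (s * hm m / 2) ≤ ‖C‖ ∧
        ∀ w : ℂ, ‖Zc c (lm m) w‖ < 1 → |w.re| ≤ 1 / 4 → 0 < w.im → w.im ≤ 1 / 4 →
          ‖iteratedDeriv d f (Zc c (lm m) w) - C‖ ≤ η * ‖C‖ := by
  obtain ⟨K', hK'⟩ : ∃ K' : ℝ, K' = 10 ^ 6 * max 0 (Real.log (200 / η)) := ⟨_, rfl⟩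
  obtain ⟨m₀, hm₀⟩ := eventually_atTop.1 ((scales (10 ^ 6) hs).and (scales K' hs))
  refine ⟨m₀, fun m hm1 c R hN f hf => ?_⟩
  obtain ⟨hs1, hs2⟩ := hm₀ m hm1
  have hl := lm_pos m
  have hl9 := lm_le m
  have hh := hm_pos m
  have hlt : lm m < 1 := by
    norm_num at hl9 ⊢
    linarith
  have hlog : 0 ≤ Real.log (1 / lm m) := by
    refine Real.log_nonneg ?_
    rw [le_div_iff₀ hl]
    linarith
  obtain ⟨lam, hlam⟩ : ∃ lam : ℝ, lam = s * hm m := ⟨_, rfl⟩
  obtain ⟨l, hld⟩ : ∃ l : ℝ, l = lm m := ⟨_, rfl⟩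
  have hlam6 : 10 ^ 6 ≤ lam := by
    rw [hlam]
    linarith
  have hlam0 : 0 ≤ lam := le_trans (by norm_num) hlam6
  obtain ⟨G, hG⟩ : ∃ G : ℂ → ℂ, G = fun w => HH (Zc c (lm m) w) / (hm m : ℂ) := ⟨_, rfl⟩
  obtain ⟨A, hA⟩ : ∃ A : ℂ, A = pt c * (I * lm m) := ⟨_, rfl⟩
  have hAn : ‖A‖ = lm m := by
    rw [hA, norm_mul, norm_pt, norm_mul, norm_I, norm_real, Real.norm_eq_abs, abs_of_pos hl]
    ring
  have hA0 : A ≠ 0 := by
    rw [← norm_pos_iff, hAn]
    exact hl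
  obtain ⟨f₁, hf₁⟩ : ∃ f₁ : ℂ → ℂ, f₁ = fun w => iteratedDeriv d f (Zc c (lm m) w) / A :=
    ⟨_, rfl⟩
  have hUb : ∀ w ∈ ball I (1 / 4), ‖Zc c (lm m) w‖ < 1 := fun w hw =>
    (ball_mem c hl hw).resolve_right (not_le.2 hlt)
  have hder : ∀ w ∈ {w : ℂ | ‖Zc c (lm m) w‖ < 1},
      HasDerivAt f₁ (Complex.exp (lam * G w)) w := by
    intro w hw
    have hw' : Zc c (lm m) w ∈ ball (0 : ℂ) 1 := by
      rw [mem_ball_zero_iff]
      exact hw
    have h1 : AnalyticAt ℂ (iteratedDeriv d f) (Zc c (lm m) w) := by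
      rw [iteratedDeriv_eq_iterate]
      exact (hf.an.iterated_deriv d) _ hw'
    have h2 : HasDerivAt (iteratedDeriv d f) (Complex.exp (s * HH (Zc c (lm m) w)))
        (Zc c (lm m) w) := by
      have h3 := h1.differentiableAt.hasDerivAt
      rw [← iteratedDeriv_succ, hf.der _ hw'] at h3
      exact h3
    have h4 := (HasDerivAt.comp w h2 (Zc_deriv c (lm m) w)).div_const A
    rw [← hA, mul_div_assoc, div_self hA0, mul_one] at h4
    have h5 : (lam : ℂ) * G w = s * HH (Zc c (lm m) w) := by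
      rw [hG, hlam]
      have : (hm m : ℂ) ≠ 0 := ofReal_ne_zero.2 hh.ne'
      push_cast
      field_simp
    rw [h5, hf₁]
    exact h4
  have hGU : ∀ w ∈ {w : ℂ | ‖Zc c (lm m) w‖ < 1}, |w.re| ≤ 1 / 4 → 0 < w.im → w.im ≤ 2 →
      ‖G w - G0 w‖ ≤ 1 / 10 ^ 6 := by
    intro w hw h1 h2 h3
    rw [hG]
    exact eb hN hw h1 h2 h3
  have hbr : ∀ w ∈ ball I (1 / 4), |w.re| ≤ 1 / 4 ∧ 0 < w.im ∧ w.im ≤ 2 := by
    intro w hw
    rw [mem_ball, dist_eq_norm] at hw
    have h1 := (abs_re_le_norm (w - I)).trans hw.le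
    have h2 := (abs_im_le_norm (w - I)).trans hw.le
    simp only [sub_re, I_re, sub_zero, sub_im, I_im] at h1 h2
    rw [abs_le] at h2
    exact ⟨h1, by linarith [h2.1], by linarith [h2.2]⟩
  have hNear : Near G := by
    refine ⟨fun w hw => ?_, fun w hw => ?_⟩
    · rw [hG]
      have h1 : DifferentiableAt ℂ HH (Zc c (lm m) w) :=
        (hh_analytic _ (by rw [mem_ball_zero_iff]; exact hUb w hw)).differentiableAt
      have h2 := (HasDerivAt.comp w h1.hasDerivAt (Zc_deriv c (lm m) w)).div_const (hm m : ℂ)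
      exact h2.differentiableAt.differentiableWithinAt
    · obtain ⟨h1, h2, h3⟩ := hbr w hw
      exact hGU w (hUb w hw) h1 h2 h3
  have hwt : wt ∈ ball I (1 / 4) := by
    rw [mem_ball, dist_eq_norm]
    have h1 : wt - I = ((1 / 50 : ℝ) : ℂ) * I := by
      unfold wt
      push_cast
      ring
    rw [h1, norm_mul, norm_I, norm_real, Real.norm_eq_abs]
    norm_num [abs_of_pos]
  have hwg : wg ∈ ball I (1 / 4) := by
    rw [mem_ball, dist_eq_norm]
    have h1 : wg - I = ((-(1 / 50) : ℝ) : ℂ) * I := by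
      unfold wg
      push_cast
      ring
    rw [h1, norm_mul, norm_I, norm_real, Real.norm_eq_abs, abs_neg]
    norm_num [abs_of_pos]
  have hft : ‖f₁ wt‖ ≤ 1 / 100 * Real.exp (lam * ((G wt).re + 1 / 40000)) := by
    have h1 := upper_wt hs hN hf (g := (G wt).re) (by
      have := hNear.near wt hwt
      rw [hG] at this
      exact this) (by rw [hG])
    have h2 : ‖f₁ wt‖ = 1 / lm m * ‖iteratedDeriv d f (Zc c (lm m) wt)‖ := by
      rw [hf₁]
      dsimp only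
      rw [norm_div, hAn]
      ring
    rw [h2]
    refine le_trans (mul_le_mul_of_nonneg_left h1 (by positivity)) ?_
    rw [← hlam] at hs1 ⊢
    exact exp_aux hl hs1 hlog
  have hsad := saddle hNear hlam6 (fun w hw => hder w (hUb w hw)) hft
  have hgg := (re_close (hNear.near wg hwg)).2
  rw [wg_val] at hgg
  have hX : 9 / 10 ≤ (G wg).re := by
    norm_num at hgg ⊢
    linarith
  have hCn : lm m / 100 * Real.exp (lam * ((G wg).re + 1 / 40000)) ≤
      ‖iteratedDeriv d f (Zc c (lm m) wg)‖ := by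
    have h2 : ‖f₁ wg‖ = ‖iteratedDeriv d f (Zc c (lm m) wg)‖ / lm m := by
      rw [hf₁]
      dsimp only
      rw [norm_div, hAn]
    rw [h2, lt_div_iff₀ hl] at hsad
    calc lm m / 100 * Real.exp (lam * ((G wg).re + 1 / 40000)) =
          1 / 100 * Real.exp (lam * ((G wg).re + 1 / 40000)) * lm m := by ring
      _ ≤ _ := hsad.le
  refine ⟨iteratedDeriv d f (Zc c (lm m) wg), ?_, fun w hw h1 h2 h3 => ?_⟩
  · refine le_trans ?_ hCn
    rw [← hlam] at hs1 ⊢
    have h5 := exp_aux (X := -(2 / 10 ^ 6)) hl hs1 hlog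
    have e1 : lam * (-(2 / 10 ^ 6) + 2 / 10 ^ 6) = 0 := by ring
    rw [e1, Real.exp_zero, mul_one, div_le_iff₀ hl] at h5
    have e2 : Real.exp (lam * ((G wg).re + 1 / 40000)) =
        Real.exp (lam * (-(2 / 10 ^ 6) + 1 / 40000)) *
          Real.exp (lam * ((G wg).re + 2 / 10 ^ 6)) := by
      rw [← Real.exp_add]
      congr 1
      ring
    rw [e2]
    have h6 : Real.exp (lam / 2) ≤ Real.exp (lam * ((G wg).re + 2 / 10 ^ 6)) := by
      refine Real.exp_le_exp.2 ?_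
      have h7 : (1 / 2 : ℝ) ≤ (G wg).re + 2 / 10 ^ 6 := by
        norm_num at hX ⊢
        linarith
      have := mul_le_mul_of_nonneg_left h7 hlam0
      linarith
    have h8 : 0 ≤ Real.exp (lam * ((G wg).re + 2 / 10 ^ 6)) := (Real.exp_pos _).le
    calc Real.exp (lam / 2) ≤ 1 * Real.exp (lam * ((G wg).re + 2 / 10 ^ 6)) := by
          rw [one_mul]; exact h6
      _ ≤ (1 / 100 * Real.exp (lam * (-(2 / 10 ^ 6) + 1 / 40000)) * lm m) *
          Real.exp (lam * ((G wg).re + 2 / 10 ^ 6)) := mul_le_mul_of_nonneg_right h5 h8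
      _ = _ := by ring
  · have hconv : Convex ℝ {w : ℂ | ‖Zc c (lm m) w‖ < 1} := by
      rw [U_eq c hl]
      exact convex_ball _ _
    have h4 := gapW hconv hGU (fun y hy1 hy2 => Zc_imag_norm c
      (mul_pos hl (by linarith)) (by norm_num at hl9; nlinarith)) hlam0 hder hw h1 h2 h3
    have h5 : ‖f₁ w - f₁ wg‖ = ‖iteratedDeriv d f (Zc c (lm m) w) -
        iteratedDeriv d f (Zc c (lm m) wg)‖ / lm m := by
      rw [hf₁]
      dsimp only
      rw [← sub_div, norm_div, hAn]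
    rw [h5, div_le_iff₀ hl] at h4
    refine h4.trans ?_
    refine le_trans ?_ (mul_le_mul_of_nonneg_left hCn hη.le)
    have h6 : 200 / η ≤ Real.exp (lam * (23 / 10 ^ 6)) := by
      have h7 : 200 / η = Real.exp (Real.log (200 / η)) :=
        (Real.exp_log (by positivity)).symm
      rw [h7]
      refine Real.exp_le_exp.2 ?_
      have h8 : K' ≤ lam := by
        rw [hlam]
        refine le_trans ?_ hs2
        have h9 : 0 ≤ K' := by
          rw [hK']
          positivity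
        nlinarith
      have h10 := le_max_right (0 : ℝ) (Real.log (200 / η))
      have h11 := le_max_left (0 : ℝ) (Real.log (200 / η))
      rw [hK'] at h8
      norm_num at h8 ⊢
      linarith
    have e3 : Real.exp (lam * ((G wg).re + 1 / 40000)) =
        Real.exp (lam * (23 / 10 ^ 6)) * Real.exp (lam * ((G wg).re + 2 / 10 ^ 6)) := by
      rw [← Real.exp_add]
      congr 1
      ring
    rw [e3]
    rw [div_le_iff₀ hη] at h6
    have h8 : 0 ≤ Real.exp (lam * ((G wg).re + 2 / 10 ^ 6)) * lm m :=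
      mul_nonneg (Real.exp_pos _).le hl.le
    calc 2 * Real.exp (lam * ((G wg).re + 2 / 10 ^ 6)) * lm m =
          200 * (Real.exp (lam * ((G wg).re + 2 / 10 ^ 6)) * lm m) / 100 := by ring
      _ ≤ (Real.exp (lam * (23 / 10 ^ 6)) * η) *
          (Real.exp (lam * ((G wg).re + 2 / 10 ^ 6)) * lm m) / 100 := by
          have := mul_le_mul_of_nonneg_right h6 h8
          linarith
      _ = _ := by ring

end Pool.Agent.MP4b24a5.T3
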