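import Pool.Agent.Lib.MP_4b24a5_an_T3.PolyA

set_option autoImplicit false

/-!
# MP_4b24a5_an, project T3: from the d-th derivative to the function
-/

noncomputable section

namespace Pool.Agent.MP4b24a5.T3

open Complex Metric Set MeasureTheory Filter Topology

/-- the Taylor polynomial of degree less than `d` with a given coefficient of degree `d` -/
private def tay (d : ℕ) (f : ℂ → ℂ) (C z₀ z : ℂ) : ℂ :=
  ∑ k ∈ Finset.range d, iteratedDeriv k f z₀ * (z - z₀) ^ k / (k.factorial : ℂ) +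
    C * (z - z₀) ^ d / (d.factorial : ℂ)

private theorem tay_deriv (d : ℕ) (f : ℂ → ℂ) (C z₀ z : ℂ) :
    HasDerivAt (tay (d + 1) f C z₀) (tay d (deriv f) C z₀ z) z := by
  have hp : ∀ (k : ℕ) (b : ℂ), HasDerivAt
      (fun z => b * (z - z₀) ^ (k + 1) / ((k + 1).factorial : ℂ))
      (b * (z - z₀) ^ k / (k.factorial : ℂ)) z := by
    intro k b
    have h1 : HasDerivAt (fun z : ℂ => z - z₀) 1 z := (hasDerivAt_id' z).sub_const z₀
    have h2 := ((h1.pow (k + 1)).const_mul b).div_const ((k + 1).factorial : ℂ)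
    refine h2.congr_deriv ?_
    have h3 : ((k + 1).factorial : ℂ) = (k + 1) * (k.factorial : ℂ) := by
      rw [Nat.factorial_succ]
      push_cast
      ring
    have h4 : (k.factorial : ℂ) ≠ 0 := by exact_mod_cast k.factorial_ne_zero
    have h5 : (k : ℂ) + 1 ≠ 0 := by exact_mod_cast k.succ_ne_zero
    rw [h3]
    simp only [Nat.cast_add, Nat.cast_one, add_tsub_cancel_right, mul_one]
    field_simp
  have hs : HasDerivAt (fun z => ∑ k ∈ Finset.range d,
      iteratedDeriv (k + 1) f z₀ * (z - z₀) ^ (k + 1) / ((k + 1).factorial : ℂ))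
      (∑ k ∈ Finset.range d, iteratedDeriv k (deriv f) z₀ * (z - z₀) ^ k / (k.factorial : ℂ)) z := by
    have h1 := HasDerivAt.fun_sum (u := Finset.range d) (x := z)
      (A := fun k z => iteratedDeriv (k + 1) f z₀ * (z - z₀) ^ (k + 1) / ((k + 1).factorial : ℂ))
      (A' := fun k => iteratedDeriv (k + 1) f z₀ * (z - z₀) ^ k / (k.factorial : ℂ))
      (fun k _ => hp k _)
    refine h1.congr_deriv ?_
    refine Finset.sum_congr rfl fun k _ => ?_
    rw [iteratedDeriv_succ']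
  have h6 := (hs.add_const (iteratedDeriv 0 f z₀ * 1 / 1)).add (hp d C)
  have e : tay (d + 1) f C z₀ = fun z => (∑ k ∈ Finset.range d,
      iteratedDeriv (k + 1) f z₀ * (z - z₀) ^ (k + 1) / ((k + 1).factorial : ℂ) +
        iteratedDeriv 0 f z₀ * 1 / 1) + C * (z - z₀) ^ (d + 1) / ((d + 1).factorial : ℂ) := by
    funext z
    rw [tay, Finset.sum_range_succ']
    simp
  rw [e]
  exact h6

private theorem tay_base (d : ℕ) (f : ℂ → ℂ) (C z₀ : ℂ) : tay (d + 1) f C z₀ z₀ = f z₀ := by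
  rw [tay, Finset.sum_range_succ']
  simp

/-- the Taylor formula with a bound of the derivative of order `d` on a convex set -/
private theorem tay_bound {Q : Set ℂ} (hQ : Convex ℝ Q) (hQb : Q ⊆ ball 0 1) {z₀ : ℂ}
    (hz : z₀ ∈ Q) {l M : ℝ} (hM : 0 ≤ M) (hl : 0 ≤ l) (hQl : ∀ z ∈ Q, ‖z - z₀‖ ≤ l) (C : ℂ)
    (d : ℕ) : ∀ f : ℂ → ℂ, AnalyticOnNhd ℂ f (ball 0 1) →
      (∀ z ∈ Q, ‖iteratedDeriv d f z - C‖ ≤ M) → ∀ z ∈ Q, ‖f z - tay d f C z₀ z‖ ≤ M * l ^ d := by
  induction d with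
  | zero =>
    intro f _ h z hzQ
    have := h z hzQ
    simpa [tay] using this
  | succ d ih =>
    intro f hf h z hzQ
    have h1 := ih (deriv f) hf.deriv (fun z hz => by
      rw [← iteratedDeriv_succ']
      exact h z hz)
    have h2 := hQ.norm_image_sub_le_of_norm_hasDerivWithin_le
      (f := fun z => f z - tay (d + 1) f C z₀ z)
      (f' := fun z => deriv f z - tay d (deriv f) C z₀ z) (C := M * l ^ d)
      (fun x hx => ((hf x (hQb hx)).differentiableAt.hasDerivAt.sub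
        (tay_deriv d f C z₀ x)).hasDerivWithinAt) h1 hz hzQ
    simp only [tay_base, sub_self, sub_zero] at h2
    calc ‖f z - tay (d + 1) f C z₀ z‖ ≤ M * l ^ d * ‖z - z₀‖ := h2
      _ ≤ M * l ^ d * l := mul_le_mul_of_nonneg_left (hQl z hzQ) (by positivity)
      _ = M * l ^ (d + 1) := by ring

/-- the Taylor polynomial is a multiple of a monic polynomial -/
private theorem tay_poly (d : ℕ) (f : ℂ → ℂ) {C : ℂ} (hC : C ≠ 0) (z₀ : ℂ) :
    ∃ P : Polynomial ℂ, P.Monic ∧ P.natDegree = d ∧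
      ∀ z, tay d f C z₀ z = C / (d.factorial : ℂ) * P.eval z := by
  have hd0 : (d.factorial : ℂ) ≠ 0 := by exact_mod_cast d.factorial_ne_zero
  obtain ⟨q, hq⟩ : ∃ q : Polynomial ℂ, q = ∑ k ∈ Finset.range d,
      Polynomial.C ((d.factorial : ℂ) / C * (iteratedDeriv k f z₀ / (k.factorial : ℂ))) *
        Polynomial.X ^ k := ⟨_, rfl⟩
  have hqd : q.degree < (d : WithBot ℕ) := by
    rw [← Polynomial.mem_degreeLT, hq]
    refine Submodule.sum_mem _ fun k hk => ?_
    rw [Polynomial.mem_degreeLT]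
    refine (Polynomial.degree_C_mul_X_pow_le _ _).trans_lt ?_
    exact_mod_cast Finset.mem_range.1 hk
  have hm : (Polynomial.X ^ d + q).Monic := Polynomial.monic_X_pow_add hqd
  have hn : (Polynomial.X ^ d + q).natDegree = d := by
    rw [Polynomial.natDegree_eq_of_degree_eq
      (Polynomial.degree_add_eq_left_of_degree_lt (by rwa [Polynomial.degree_X_pow])),
      Polynomial.natDegree_X_pow]
  refine ⟨(Polynomial.X ^ d + q).comp (Polynomial.X + Polynomial.C (-z₀)),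
    hm.comp_X_add_C _, ?_, fun z => ?_⟩
  · rw [Polynomial.natDegree_comp, hn, Polynomial.natDegree_X_add_C, mul_one]
  · have hev : q.eval (z - z₀) = ∑ k ∈ Finset.range d,
        (d.factorial : ℂ) / C * (iteratedDeriv k f z₀ / (k.factorial : ℂ)) * (z - z₀) ^ k := by
      rw [hq, Polynomial.eval_finsetSum]
      simp
    rw [Polynomial.eval_comp, Polynomial.eval_add, Polynomial.eval_pow, Polynomial.eval_X,
      Polynomial.eval_add, Polynomial.eval_X, Polynomial.eval_C, ← sub_eq_add_neg, hev, tay,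
      mul_add, Finset.mul_sum, add_comm]
    congr 1
    · ring
    · refine Finset.sum_congr rfl fun k _ => ?_
      field_simp

private theorem pb_pt_mul (x y : ℝ) : pt x * pt y = pt (x + y) := by
  unfold pt
  rw [← Complex.exp_add]
  push_cast
  ring_nf

private theorem pb_pt_zero : pt 0 = 1 := by
  unfold pt
  simp

private theorem pb_norm (x : ℝ) : ‖pt x‖ = 1 := by
  unfold pt
  exact Complex.norm_exp_ofReal_mul_I x

/-- PROOF. Let `z₀ = Zc c l (i / 4)`, `Q` the (convex) set of all `Zc c l w` with the given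
conditions on `w`, `P z = ∑_{k<d} f^(k)(z₀) (z - z₀)^k / k! + C (z - z₀)^d / d!` and `g = f - P`:
`g^(k)(z₀) = 0` for `k < d` and `g^(d) = f^(d) - C`, so `‖g‖ ≤ η ‖C‖ l ^ d` on `Q` (mean value
inequality `d` times, `‖z - z₀‖ ≤ l`). `P = (C / d!) * (monic polynomial of degree d)`, so by
`polyA` `‖P‖ ≥ ‖C‖ c_d l ^ d` on an arc, `c_d = (1 / (16 (2 d + 1))) ^ d / d!`. Take `η = c_d / 2`,
`κ = min (c_d / 2) (1 / (2 (2 d + 1)))`. The points `r pt θ` with `|θ - c| ≤ l / 4` lie in `Q`: `w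
= (r e^{iφ} - 1) / (i l)`, `w.re = r sin φ / l`, `w.im = (1 - r cos φ) / l`, `0 < 1 - r cos φ ≤ (1
- r) + φ ^ 2 / 2 ≤ l / 8 + l ^ 2 / 32`. (`C = 0` is trivial.) -/
theorem polyB (d : ℕ) : ∃ η κ : ℝ, 0 < η ∧ 0 < κ ∧ ∀ c l r : ℝ, 0 < l → l ≤ 1 / 100 →
    1 - l / 8 ≤ r → r < 1 → ∀ f : ℂ → ℂ, AnalyticOnNhd ℂ f (ball 0 1) → ∀ C : ℂ,
      (∀ w : ℂ, ‖Zc c l w‖ < 1 → |w.re| ≤ 1 / 4 → 0 < w.im → w.im ≤ 1 / 4 →
        ‖iteratedDeriv d f (Zc c l w) - C‖ ≤ η * ‖C‖) →
      ∃ α : ℝ, c - l / 4 ≤ α ∧ α + κ * l ≤ c + l / 4 ∧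
        ∀ θ ∈ Icc α (α + κ * l), κ * l ^ d * ‖C‖ ≤ ‖f (r * pt θ)‖ := by
  obtain ⟨cd, hcd⟩ : ∃ cd : ℝ, cd = (1 / (16 * (2 * (d : ℝ) + 1))) ^ d / (d.factorial : ℝ) :=
    ⟨_, rfl⟩
  have hfac : (0 : ℝ) < (d.factorial : ℝ) := by exact_mod_cast d.factorial_pos
  have hd1 : (0 : ℝ) < 2 * (d : ℝ) + 1 := by positivity
  have hcd0 : 0 < cd := by rw [hcd]; positivity
  obtain ⟨κ, hκd⟩ : ∃ κ : ℝ, κ = min (cd / 2) (1 / (2 * (2 * (d : ℝ) + 1))) := ⟨_, rfl⟩
  have hκ0 : 0 < κ := by rw [hκd]; positivity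
  have hκ1 : κ ≤ cd / 2 := by rw [hκd]; exact min_le_left _ _
  have hκ2 : κ ≤ 1 / (2 * (2 * (d : ℝ) + 1)) := by rw [hκd]; exact min_le_right _ _
  refine ⟨cd / 2, κ, by positivity, hκ0, ?_⟩
  intro c l r hl hl1 hr hr1 f hf C hC
  rcases eq_or_ne C 0 with hC0 | hC0
  · refine ⟨c - l / 4, le_rfl, ?_, fun θ _ => ?_⟩
    · have h1 : 1 / (2 * (2 * (d : ℝ) + 1)) ≤ 1 / 2 := by
        apply one_div_le_one_div_of_le (by norm_num)
        have : (0 : ℝ) ≤ d := by positivity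
        linarith
      have h2 : κ ≤ 1 / 2 := hκ2.trans h1
      nlinarith
    · rw [hC0, norm_zero, mul_zero]
      exact norm_nonneg _
  -- the convex set
  obtain ⟨Q, hQd⟩ : ∃ Q : Set ℂ, Q = {z : ℂ | ‖z‖ < 1 ∧ (z * pt (-c)).im ≤ l / 4 ∧
      -(l / 4) ≤ (z * pt (-c)).im ∧ 1 - l / 4 ≤ (z * pt (-c)).re} := ⟨_, rfl⟩
  have hmem : ∀ z, z ∈ Q ↔ ‖z‖ < 1 ∧ (z * pt (-c)).im ≤ l / 4 ∧
      -(l / 4) ≤ (z * pt (-c)).im ∧ 1 - l / 4 ≤ (z * pt (-c)).re := fun z => by
    rw [hQd]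
    rfl
  have him : IsLinearMap ℝ (fun z : ℂ => (z * pt (-c)).im) := by
    constructor
    · intro x y
      rw [add_mul, Complex.add_im]
    · intro s x
      simp
      ring
  have hre : IsLinearMap ℝ (fun z : ℂ => (z * pt (-c)).re) := by
    constructor
    · intro x y
      rw [add_mul, Complex.add_re]
    · intro s x
      simp
      ring
  have hQ : Convex ℝ Q := by
    have h1 : Q = ball 0 1 ∩ ({z : ℂ | (z * pt (-c)).im ≤ l / 4} ∩
        ({z : ℂ | -(l / 4) ≤ (z * pt (-c)).im} ∩ {z : ℂ | 1 - l / 4 ≤ (z * pt (-c)).re})) := by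
      ext z
      rw [hmem]
      simp
    rw [h1]
    exact (convex_ball 0 1).inter ((convex_halfSpace_le him _).inter
      ((convex_halfSpace_ge him _).inter (convex_halfSpace_ge hre _)))
  have hQb : Q ⊆ ball 0 1 := fun z hz => by
    rw [mem_ball_zero_iff]
    exact ((hmem z).1 hz).1
  have hpp : pt c * pt (-c) = 1 := by rw [pb_pt_mul, add_neg_cancel, pb_pt_zero]
  obtain ⟨z₀, hz₀⟩ : ∃ z₀ : ℂ, z₀ = pt c * ((1 - l / 4 : ℝ) : ℂ) := ⟨_, rfl⟩
  have hz₀a : z₀ * pt (-c) = ((1 - l / 4 : ℝ) : ℂ) := by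
    rw [hz₀]
    calc pt c * ((1 - l / 4 : ℝ) : ℂ) * pt (-c) = pt c * pt (-c) * ((1 - l / 4 : ℝ) : ℂ) := by ring
      _ = _ := by rw [hpp, one_mul]
  have hz₀Q : z₀ ∈ Q := by
    rw [hmem, hz₀a, Complex.ofReal_im, Complex.ofReal_re]
    refine ⟨?_, by linarith, by linarith, le_rfl⟩
    rw [hz₀, norm_mul, pb_norm, one_mul, Complex.norm_real, Real.norm_eq_abs, abs_lt]
    constructor <;> linarith
  have hre1 : ∀ z : ℂ, ‖z‖ < 1 → (z * pt (-c)).re < 1 := by
    intro z hz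
    have h1 := Complex.re_le_norm (z * pt (-c))
    rw [norm_mul, pb_norm, mul_one] at h1
    linarith
  have hQl : ∀ z ∈ Q, ‖z - z₀‖ ≤ l := by
    intro z hz
    obtain ⟨h1, h2, h3, h4⟩ := (hmem z).1 hz
    have h5 := hre1 z h1
    have h6 : ‖z - z₀‖ = ‖z * pt (-c) - ((1 - l / 4 : ℝ) : ℂ)‖ := by
      rw [← hz₀a, ← sub_mul, norm_mul, pb_norm, mul_one]
    rw [h6]
    refine (Complex.norm_le_abs_re_add_abs_im _).trans ?_
    rw [Complex.sub_re, Complex.sub_im, Complex.ofReal_re, Complex.ofReal_im, sub_zero]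
    have h7 : |(z * pt (-c)).re - (1 - l / 4)| ≤ l / 4 := by
      rw [abs_le]
      constructor <;> linarith
    have h8 : |(z * pt (-c)).im| ≤ l / 4 := by
      rw [abs_le]
      exact ⟨h3, h2⟩
    linarith
  have hQC : ∀ z ∈ Q, ‖iteratedDeriv d f z - C‖ ≤ cd / 2 * ‖C‖ := by
    intro z hz
    obtain ⟨h1, h2, h3, h4⟩ := (hmem z).1 hz
    have h5 := hre1 z h1
    obtain ⟨w, hw⟩ : ∃ w : ℂ, w = ⟨(z * pt (-c)).im / l, (1 - (z * pt (-c)).re) / l⟩ := ⟨_, rfl⟩
    have hwre : w.re = (z * pt (-c)).im / l := by rw [hw]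
    have hwim : w.im = (1 - (z * pt (-c)).re) / l := by rw [hw]
    have hZ : Zc c l w = z := by
      have e1 : 1 + I * l * w = z * pt (-c) := by
        apply Complex.ext
        · simp only [Complex.add_re, Complex.one_re, Complex.mul_re, Complex.I_re,
            Complex.I_im, Complex.ofReal_re, Complex.ofReal_im, Complex.mul_im, hwre, hwim]
          field_simp
          ring
        · simp only [Complex.add_im, Complex.one_im, Complex.mul_re, Complex.I_re,
            Complex.I_im, Complex.ofReal_re, Complex.ofReal_im, Complex.mul_im, hwre, hwim]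
          field_simp
          ring
      rw [Zc, e1]
      calc pt c * (z * pt (-c)) = z * (pt c * pt (-c)) := by ring
        _ = z := by rw [hpp, mul_one]
    have h6 := hC w (by rw [hZ]; exact h1) (by
      rw [hwre, abs_le]
      constructor
      · rw [le_div_iff₀ hl]
        linarith
      · rw [div_le_iff₀ hl]
        linarith) (by
      rw [hwim]
      apply div_pos _ hl
      linarith) (by
      rw [hwim, div_le_iff₀ hl]
      linarith)
    rw [hZ] at h6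
    exact h6
  -- the points of the arc
  have harc : ∀ θ : ℝ, |θ - c| ≤ l / 4 → (r * pt θ : ℂ) ∈ Q := by
    intro θ hθ
    have h1 : (r * pt θ : ℂ) * pt (-c) = r * pt (θ - c) := by
      rw [mul_assoc, pb_pt_mul, ← sub_eq_add_neg]
    have h2 : ((r : ℂ) * pt (θ - c)).re = r * Real.cos (θ - c) := by
      unfold pt
      rw [Complex.re_ofReal_mul, Complex.exp_ofReal_mul_I_re]
    have h3 : ((r : ℂ) * pt (θ - c)).im = r * Real.sin (θ - c) := by
      unfold pt
      rw [Complex.im_ofReal_mul, Complex.exp_ofReal_mul_I_im]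
    have hr0 : 0 < r := by linarith
    have h4 : |r * Real.sin (θ - c)| ≤ l / 4 := by
      rw [abs_mul, abs_of_pos hr0]
      have h5 := Real.abs_sin_le_abs (x := θ - c)
      nlinarith [abs_nonneg (Real.sin (θ - c))]
    rw [hmem, h1, h2, h3]
    refine ⟨?_, (abs_le.1 h4).2, (abs_le.1 h4).1, ?_⟩
    · rw [norm_mul, pb_norm, mul_one, Complex.norm_real, Real.norm_of_nonneg hr0.le]
      exact hr1
    · have h5 := Real.one_sub_sq_div_two_le_cos (x := θ - c)
      have h6 : (θ - c) ^ 2 ≤ (l / 4) ^ 2 := by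
        rw [← sq_abs]
        exact pow_le_pow_left₀ (abs_nonneg _) hθ 2
      have h7 : 1 - l / 16 ≤ Real.cos (θ - c) := by nlinarith
      nlinarith
  obtain ⟨P, hPm, hPd, hP⟩ := tay_poly d f hC0 z₀
  obtain ⟨α, hα1, hα2, hα⟩ := polyA d P hPm hPd (c := c) (l := l) (r := r) hl (by linarith)
    (by linarith)
  have hκl : κ * l ≤ l / (2 * (2 * (d : ℝ) + 1)) := by
    have := mul_le_mul_of_nonneg_right hκ2 hl.le
    rwa [one_div, inv_mul_eq_div] at this
  refine ⟨α, hα1, by linarith, fun θ hθ => ?_⟩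
  have hθ' : θ ∈ Icc α (α + l / (2 * (2 * (d : ℝ) + 1))) := ⟨hθ.1, by linarith [hθ.2]⟩
  have h1 := hα θ hθ'
  have h2 := tay_bound hQ hQb hz₀Q (M := cd / 2 * ‖C‖) (by positivity) hl.le hQl C d f hf hQC
    (r * pt θ) (harc θ (by
      rw [abs_le]
      constructor
      · linarith [hθ'.1]
      · linarith [hθ'.2]))
  rw [hP] at h2
  have h3 : ‖C / (d.factorial : ℂ) * P.eval (r * pt θ)‖ =
      ‖C‖ / (d.factorial : ℝ) * ‖P.eval (r * pt θ)‖ := by
    rw [norm_mul, norm_div, Complex.norm_natCast]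
  have h4 : cd * l ^ d * ‖C‖ ≤ ‖C / (d.factorial : ℂ) * P.eval (r * pt θ)‖ := by
    rw [h3]
    calc cd * l ^ d * ‖C‖ = ‖C‖ / (d.factorial : ℝ) * (l / (16 * (2 * (d : ℝ) + 1))) ^ d := by
          rw [hcd, div_pow, div_pow, one_pow]
          field_simp
      _ ≤ _ := mul_le_mul_of_nonneg_left h1 (by positivity)
  have h5 : ‖C / (d.factorial : ℂ) * P.eval (r * pt θ)‖ ≤ ‖f (r * pt θ)‖ +
      ‖f (r * pt θ) - C / (d.factorial : ℂ) * P.eval (r * pt θ)‖ := by
    have := norm_sub_le (f (r * pt θ))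
      (f (r * pt θ) - C / (d.factorial : ℂ) * P.eval (r * pt θ))
    rwa [sub_sub_cancel] at this
  have h6 : κ * l ^ d * ‖C‖ ≤ cd / 2 * l ^ d * ‖C‖ := by
    have : 0 ≤ l ^ d * ‖C‖ := by positivity
    nlinarith
  nlinarith

end Pool.Agent.MP4b24a5.T3
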