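import Pool.Agent.Lib.MP_4b24a5_an_T3.GapC
import Pool.Agent.Lib.MP_4b24a5_an_T3.PolyB

set_option autoImplicit false

/-!
# MP_4b24a5_an, project T3: the function is large on an arc of every gap
-/

noncomputable section

namespace Pool.Agent.MP4b24a5.T3

open Complex Metric Set MeasureTheory Filter Topology

/-- `f` is large on an arc of every gap of generation at least `m₀` -/
def Big (κ s : ℝ) (m₀ : ℕ) (f : ℂ → ℂ) : Prop :=
  ∀ m : ℕ, m₀ ≤ m → ∀ (c : ℝ) (R : ℂ → ℂ), Node m c R → ∀ r : ℝ, 1 - lm m / 8 ≤ r → r < 1 →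
    ∃ α : ℝ, c - lm m / 4 ≤ α ∧ α + κ * lm m ≤ c + lm m / 4 ∧
      ∀ θ ∈ Icc α (α + κ * lm m), s * hm m / 4 ≤ Real.posLog ‖f (r * pt θ)‖

private theorem lm_bounds (m : ℕ) : 0 < lm m ∧ lm m ≤ 1 / 100 := by
  unfold lm hd len rh l0
  constructor
  · positivity
  · have h : ((1 : ℝ) / 10 ^ 9) ^ m ≤ 1 := pow_le_one₀ (by norm_num) (by norm_num)
    have h0 : 0 < ((1 : ℝ) / 10 ^ 9) ^ m := by positivity
    nlinarith

/-- PROOF. `η`, `κ` from `polyB`, `m₀` from `gapC` and `scales`: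
`κ * l ^ d * ‖C‖ ≥ κ * l ^ d * exp (s * hm m / 2) ≥ exp (s * hm m / 4)` if
`log (1 / κ) + d * log (1 / l) ≤ s * hm m / 4`. -/
theorem gapD (d : ℕ) : ∃ κ : ℝ, 0 < κ ∧ ∀ s : ℝ, 0 < s → ∃ m₀ : ℕ, ∀ f : ℂ → ℂ,
    FF (d + 1) s f → Big κ s m₀ f := by
  obtain ⟨η, κ, hη, hκ, hP⟩ := polyB d
  refine ⟨κ, hκ, fun s hs => ?_⟩
  obtain ⟨m₁, hm₁⟩ := gapC hs d hη
  obtain ⟨m₂, hm₂⟩ := eventually_atTop.1 (scales (4 * (|Real.log κ| + d)) hs)
  refine ⟨max m₁ m₂, fun f hf m hmm c R hN r hr hr1 => ?_⟩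
  obtain ⟨hl0, hl1⟩ := lm_bounds m
  obtain ⟨C, hC, hCw⟩ := hm₁ m ((le_max_left _ _).trans hmm) c R hN f hf
  obtain ⟨α, h1, h2, h3⟩ := hP c (lm m) r hl0 hl1 hr hr1 f hf.an C hCw
  refine ⟨α, h1, h2, fun θ hθ => ?_⟩
  have h4 := h3 θ hθ
  have h5 := hm₂ m ((le_max_right _ _).trans hmm)
  have hC0 : 0 < ‖C‖ := (Real.exp_pos _).trans_le hC
  have hlC : s * hm m / 2 ≤ Real.log ‖C‖ := by
    rw [Real.le_log_iff_exp_le hC0]
    exact hC
  have hlog : 0 ≤ Real.log (1 / lm m) := by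
    apply Real.log_nonneg
    rw [le_div_iff₀ hl0]
    linarith
  have hl' : Real.log (lm m) = -Real.log (1 / lm m) := by
    rw [one_div, Real.log_inv, neg_neg]
  have hpos : 0 < κ * lm m ^ d * ‖C‖ := by positivity
  have h6 : Real.log (κ * lm m ^ d * ‖C‖) ≤ Real.log ‖f (r * pt θ)‖ :=
    Real.log_le_log hpos h4
  rw [Real.log_mul (by positivity) hC0.ne', Real.log_mul hκ.ne' (by positivity),
    Real.log_pow, hl'] at h6
  have h7 : -|Real.log κ| ≤ Real.log κ := neg_abs_le _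
  have h8 : 0 ≤ |Real.log κ| := abs_nonneg _
  have h9 : (0 : ℝ) ≤ d := Nat.cast_nonneg d
  have h10 : |Real.log κ| + d * Real.log (1 / lm m) ≤ s * hm m / 4 := by nlinarith
  have h11 : Real.log ‖f (r * pt θ)‖ ≤ Real.posLog ‖f (r * pt θ)‖ := le_max_right _ _
  linarith

end Pool.Agent.MP4b24a5.T3
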