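import Pool.Agent.Lib.MP_4b24a5_an_T3.AlC

set_option autoImplicit false

/-!
# MP_4b24a5_an, project T3: all smaller orders are attained
-/

noncomputable section

namespace Pool.Agent.MP4b24a5.T3

open Complex Metric Set MeasureTheory Filter Topology

private theorem bd_congr {f g : ℂ → ℂ} (h : ∀ z : ℂ, ‖z‖ < 1 → f z = g z) {K : ℝ} (hf : Bd f K) :
    Bd g K := by
  intro K' hK'
  have h1 : ∀ᶠ r in 𝓝[<] (1 : ℝ), 0 < r := by
    have := Ioo_mem_nhdsLT (show (0 : ℝ) < 1 by norm_num)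
    filter_upwards [this] with r hr using hr.1
  filter_upwards [hf K' hK', h1, self_mem_nhdsWithin] with r h2 h0 h3
  have h3 : r < 1 := h3
  refine le_trans (le_of_eq ?_) h2
  unfold prox
  refine Real.circleAverage_congr_sphere fun z hz => ?_
  have hz' : ‖z‖ = r := by
    rw [abs_of_pos h0] at hz
    simpa using hz
  rw [h z (by rw [hz']; exact h3)]

private theorem an_mb {G : ℂ → ℂ} (hG : AnalyticOnNhd ℂ G (ball 0 1)) {b : ℝ} (hb : |b| < 1) :
    AnalyticOnNhd ℂ (fun z => G (mb b z)) (ball 0 1) := by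
  intro z hz
  have hz' : ‖z‖ < 1 := mem_ball_zero_iff.1 hz
  exact (hG _ (mem_ball_zero_iff.2 (mb_mem hb hz'))).comp (mb_an hb z hz)

private def ee (b b' : ℝ) : ℝ := |(b' - b) / (1 - b * b')|

private def qq (b b' : ℝ) : ℝ := (1 + ee b b') / (1 - ee b b')

private theorem qq_tendsto {b : ℝ} (h0 : 0 ≤ b) (h1 : b < 1) {s : Set ℝ} :
    Tendsto (qq b) (𝓝[s] b) (𝓝 1) := by
  have hbb : 1 - b * b ≠ 0 := by nlinarith
  have he : ContinuousAt (ee b) b := by
    unfold ee
    have : ContinuousAt (fun b' : ℝ => (b' - b) / (1 - b * b')) b := by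
      refine ContinuousAt.div (by fun_prop) (by fun_prop) hbb
    exact this.abs
  have he0 : ee b b = 0 := by
    unfold ee
    simp
  have hq : ContinuousAt (qq b) b := by
    unfold qq
    refine ContinuousAt.div (by fun_prop) (by fun_prop) ?_
    rw [he0]
    norm_num
  have hq1 : qq b b = 1 := by
    unfold qq
    rw [he0]
    norm_num
  have := hq.tendsto
  rw [hq1] at this
  exact this.mono_left nhdsWithin_le_nhds

private theorem ee_lt {b b' : ℝ} (hb : |b| < 1) (hb' : |b'| < 1) : ee b b' < 1 :=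
  (mb_comp (z := 0) hb hb' (by simp)).1

private theorem ee_symm (b b' : ℝ) : ee b' b = ee b b' := by
  unfold ee
  rw [abs_div, abs_div, abs_sub_comm, mul_comm b' b]

/-- PROOF. For `b ∈ [0, 1)` let `β b = (alph (G ∘ mb b)).toReal`; `0 ≤ alph (G ∘ mb b) ≤ q K < ⊤`
(`alph_nonneg`, `bd_mb`, `alph_le_iff`), so `alph (G ∘ mb b) = β b`. By `mb_comp`,
`G ∘ mb b' = (G ∘ mb b) ∘ mb e`, `e = (b' - b) / (1 - b b')` (only on the disc; `Bd` depends on the
values on the disc only), so `bd_mb` gives `β b' ≤ (1 + |e|) / (1 - |e|) * β b`, and the same with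
`b` and `b'` exchanged: `β` is continuous on `[0, 1)`. `β 0 = alph G ≥ a`, and
`β b ≤ 8 (1 - b) K < a` for `b` near `1` (`bd_inactive`). Intermediate value theorem. -/
theorem ivt {G : ℂ → ℂ} (hG : AnalyticOnNhd ℂ G (ball 0 1)) {K B a : ℝ} (hK : 0 ≤ K)
    (h : Bd G K) (hB : 0 ≤ B)
    (hl : ∀ z ∈ ball (0 : ℂ) 1, z.re ≤ 0 → Real.posLog ‖G z‖ ≤ B) (ha : 0 < a)
    (hA : (a : EReal) ≤ alph G) :
    ∃ b : ℝ, 0 ≤ b ∧ b < 1 ∧ alph (fun z => G (mb b z)) = (a : EReal) := by
  set β : ℝ → ℝ := fun b => (alph (fun z => G (mb b z))).toReal with hβdef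
  have habs : ∀ b : ℝ, 0 ≤ b → b < 1 → |b| < 1 := fun b h0 h1 => by rwa [abs_of_nonneg h0]
  have hβ : ∀ b : ℝ, 0 ≤ b → b < 1 → alph (fun z => G (mb b z)) = (β b : EReal) ∧ 0 ≤ β b := by
    intro b h0 h1
    have h2 := bd_mb hG (habs b h0 h1) hK h
    have h3 := (alph_le_iff (an_mb hG (habs b h0 h1))).2 h2
    have h4 := alph_nonneg (an_mb hG (habs b h0 h1))
    have h5 : alph (fun z => G (mb b z)) ≠ ⊤ := ne_top_of_le_ne_top (EReal.coe_ne_top _) h3
    have h6 : alph (fun z => G (mb b z)) ≠ ⊥ := ne_bot_of_le_ne_bot EReal.zero_ne_bot h4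
    exact ⟨(EReal.coe_toReal h5 h6).symm, EReal.toReal_nonneg h4⟩
  have key : ∀ b b' : ℝ, 0 ≤ b → b < 1 → 0 ≤ b' → b' < 1 → β b' ≤ qq b b' * β b := by
    intro b b' h0 h1 h0' h1'
    have hb := habs b h0 h1
    have hb' := habs b' h0' h1'
    have h2 := (alph_le_iff (an_mb hG hb)).1 (hβ b h0 h1).1.le
    have he : |(b' - b) / (1 - b * b')| < 1 := (mb_comp (z := 0) hb hb' (by simp)).1
    have h3 := bd_mb (an_mb hG hb) he (hβ b h0 h1).2 h2
    have h4 : Bd (fun z => G (mb b' z))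
        ((1 + |(b' - b) / (1 - b * b')|) / (1 - |(b' - b) / (1 - b * b')|) * β b) := by
      refine bd_congr (fun z hz => ?_) h3
      rw [(mb_comp hb hb' hz).2]
    have h5 := (alph_le_iff (an_mb hG hb')).2 h4
    rw [(hβ b' h0' h1').1, EReal.coe_le_coe_iff] at h5
    exact h5
  -- the point near `1`
  obtain ⟨b₁, hb0, hb1, hb2⟩ : ∃ b₁ : ℝ, 1 / 2 ≤ b₁ ∧ b₁ < 1 ∧ 8 * (1 - b₁) * K < a := by
    refine ⟨max (1 / 2) (1 - a / (16 * (K + 1))), le_max_left _ _, ?_, ?_⟩
    · refine max_lt (by norm_num) ?_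
      have : 0 < a / (16 * (K + 1)) := by positivity
      linarith
    · have h1 : 1 - a / (16 * (K + 1)) ≤ max (1 / 2) (1 - a / (16 * (K + 1))) := le_max_right _ _
      have h2 : 8 * (1 - max (1 / 2) (1 - a / (16 * (K + 1)))) * K ≤
          8 * (a / (16 * (K + 1))) * K := by
        refine mul_le_mul_of_nonneg_right ?_ hK
        linarith
      refine h2.trans_lt ?_
      have h3 : 8 * (a / (16 * (K + 1))) * K = a * (K / (2 * (K + 1))) := by
        field_simp
        ring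
      rw [h3]
      have h4 : K / (2 * (K + 1)) < 1 := by
        rw [div_lt_one (by positivity)]
        linarith
      nlinarith
  have hβ1 : β b₁ < a := by
    have h1 := bd_inactive hG hK h hB hl hb0 hb1
    have h2 := (alph_le_iff (an_mb hG (habs b₁ (by linarith) hb1))).2 h1
    rw [(hβ b₁ (by linarith) hb1).1, EReal.coe_le_coe_iff] at h2
    linarith
  have hβ0 : a ≤ β 0 := by
    have h1 : (fun z => G (mb 0 z)) = G := by
      funext z
      rw [mb_zero]
    have h2 := (hβ 0 le_rfl one_pos).1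
    rw [h1] at h2
    rw [h2, EReal.coe_le_coe_iff] at hA
    exact hA
  have hcont : ContinuousOn β (Icc 0 b₁) := by
    intro b hb
    have hbl : b < 1 := lt_of_le_of_lt hb.2 hb1
    have hq := qq_tendsto hb.1 hbl (s := Icc 0 b₁)
    have hup : Tendsto (fun b' => qq b b' * β b) (𝓝[Icc 0 b₁] b) (𝓝 (β b)) := by
      have := hq.mul_const (β b)
      rwa [one_mul] at this
    have hlo : Tendsto (fun b' => β b / qq b b') (𝓝[Icc 0 b₁] b) (𝓝 (β b)) := by
      have := (tendsto_const_nhds (x := β b)).div hq one_ne_zero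
      rwa [div_one] at this
    refine tendsto_of_tendsto_of_tendsto_of_le_of_le' hlo hup ?_ ?_
    · filter_upwards [self_mem_nhdsWithin] with b' hb'
      have hbl' : b' < 1 := lt_of_le_of_lt hb'.2 hb1
      have h1 := key b' b hb'.1 hbl' hb.1 hbl
      have h2 : qq b' b = qq b b' := by
        unfold qq
        rw [ee_symm]
      have h3 : ee b b' < 1 := ee_lt (habs b hb.1 hbl) (habs b' hb'.1 hbl')
      have h4 : 0 ≤ ee b b' := abs_nonneg _
      have h5 : 0 < qq b b' := div_pos (by linarith) (by linarith)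
      rw [h2] at h1
      rw [div_le_iff₀ h5]
      linarith
    · filter_upwards [self_mem_nhdsWithin] with b' hb'
      exact key b b' hb.1 hbl hb'.1 (lt_of_le_of_lt hb'.2 hb1)
  obtain ⟨b, hb, hba⟩ := intermediate_value_Icc' (by linarith : (0 : ℝ) ≤ b₁) hcont
    ⟨hβ1.le, hβ0⟩
  have hbl : b < 1 := lt_of_le_of_lt hb.2 hb1
  refine ⟨b, hb.1, hbl, ?_⟩
  rw [(hβ b hb.1 hbl).1, hba]

end Pool.Agent.MP4b24a5.T3
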