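import Pool.Agent.Lib.MP_4b24a5_an_T3.PhiA

set_option autoImplicit false

/-!
# MP_4b24a5_an, project T3: the mean of the reciprocal of the distance
-/

noncomputable section

namespace Pool.Agent.MP4b24a5.T3

open Complex Metric Set MeasureTheory Filter Topology

private theorem kerM_sq (r x u : ℝ) :
    ‖pt x - circleMap 0 r (x + u)‖ ^ 2 = (1 - r) ^ 2 + 4 * r * Real.sin (u / 2) ^ 2 := by
  have h1 : pt x - circleMap 0 r (x + u) = pt x * (1 - r * Complex.exp (u * I)) := by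
    rw [circleMap_zero]
    unfold pt
    rw [mul_sub, mul_one, mul_left_comm, ← Complex.exp_add]
    congr 3
    push_cast
    ring
  rw [h1, norm_mul, norm_pt, one_mul, ← Complex.normSq_eq_norm_sq, Complex.normSq_apply]
  have h2 : (1 - (r : ℂ) * Complex.exp (u * I)).re = 1 - r * Real.cos u := by
    simp [Complex.exp_ofReal_mul_I_re, Complex.exp_ofReal_mul_I_im]
  have h3 : (1 - (r : ℂ) * Complex.exp (u * I)).im = -(r * Real.sin u) := by
    simp [Complex.exp_ofReal_mul_I_re, Complex.exp_ofReal_mul_I_im]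
  rw [h2, h3]
  have h4 : Real.cos u = 1 - 2 * Real.sin (u / 2) ^ 2 := by
    have h5 := Real.cos_sq' (u / 2)
    have h6 : Real.cos u = 2 * Real.cos (u / 2) ^ 2 - 1 := by
      rw [← Real.cos_two_mul]
      congr 1
      ring
    rw [h6, h5]
    ring
  have h7 := Real.sin_sq_add_cos_sq u
  have h8 : (1 - r * Real.cos u) * (1 - r * Real.cos u) + -(r * Real.sin u) * -(r * Real.sin u) =
      1 - 2 * r * Real.cos u + r ^ 2 * (Real.sin u ^ 2 + Real.cos u ^ 2) := by ring
  rw [h8, h7, h4]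
  ring

private theorem kerM_low {r : ℝ} (hr : 1 / 2 ≤ r) (hr1 : r < 1) (x : ℝ) {u : ℝ}
    (hu : |u| ≤ Real.pi) :
    ‖pt x - circleMap 0 r (x + u)‖⁻¹ ≤ Real.pi * (1 - r + |u|)⁻¹ := by
  have hpi := Real.pi_pos
  have h0 : 0 < 1 - r + |u| := by
    have := abs_nonneg u
    linarith
  have hs : |u| / Real.pi ≤ |Real.sin (u / 2)| := by
    have h1 := Real.mul_abs_le_abs_sin (x := u / 2) (by
      rw [abs_div, abs_two]
      linarith)
    rw [abs_div, abs_two] at h1
    refine le_trans (le_of_eq ?_) h1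
    field_simp
  have hs2 : (|u| / Real.pi) ^ 2 ≤ Real.sin (u / 2) ^ 2 := by
    rw [← sq_abs (Real.sin (u / 2))]
    exact pow_le_pow_left₀ (by positivity) hs 2
  have hn : (1 - r + |u|) / Real.pi ≤ ‖pt x - circleMap 0 r (x + u)‖ := by
    refine le_of_sq_le_sq ?_ (norm_nonneg _)
    rw [kerM_sq]
    have h2 : ((1 - r + |u|) / Real.pi) ^ 2 ≤
        2 * ((1 - r) ^ 2 / Real.pi ^ 2) + 2 * (|u| / Real.pi) ^ 2 := by
      have e1 : ((1 - r + |u|) / Real.pi) ^ 2 = ((1 - r) / Real.pi + |u| / Real.pi) ^ 2 := by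
        ring
      have e2 : (1 - r) ^ 2 / Real.pi ^ 2 = ((1 - r) / Real.pi) ^ 2 := by ring
      rw [e1, e2]
      nlinarith [sq_nonneg ((1 - r) / Real.pi - |u| / Real.pi)]
    have h3 : 2 * ((1 - r) ^ 2 / Real.pi ^ 2) ≤ (1 - r) ^ 2 := by
      rw [← mul_div_assoc, div_le_iff₀ (by positivity)]
      have h4 : 2 ≤ Real.pi ^ 2 := by nlinarith [Real.pi_gt_three]
      nlinarith [sq_nonneg (1 - r)]
    have h5 : 2 * Real.sin (u / 2) ^ 2 ≤ 4 * r * Real.sin (u / 2) ^ 2 := by
      have := sq_nonneg (Real.sin (u / 2))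
      nlinarith
    linarith
  have hpos : 0 < (1 - r + |u|) / Real.pi := by positivity
  calc ‖pt x - circleMap 0 r (x + u)‖⁻¹ ≤ ((1 - r + |u|) / Real.pi)⁻¹ := inv_anti₀ hpos hn
    _ = Real.pi * (1 - r + |u|)⁻¹ := by rw [inv_div, div_eq_mul_inv]

private theorem kerM_cont {r : ℝ} (hr : 1 / 2 ≤ r) (hr1 : r < 1) (x : ℝ) :
    Continuous (fun θ : ℝ => ‖pt x - circleMap 0 r θ‖⁻¹) := by
  have h1 : Continuous (fun θ : ℝ => ‖pt x - circleMap 0 r θ‖) :=
    (continuous_const.sub (continuous_circleMap 0 r)).norm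
  refine h1.inv₀ fun θ => ?_
  intro h
  have h2 : pt x = circleMap 0 r θ := sub_eq_zero.1 (norm_eq_zero.1 h)
  have h3 : ‖circleMap 0 r θ‖ = 1 := by rw [← h2, norm_pt]
  rw [norm_circleMap_zero, abs_of_nonneg (by linarith)] at h3
  linarith

private theorem kerM_log {r : ℝ} (hr1 : r < 1) :
    ∫ u in (0 : ℝ)..Real.pi, Real.pi * (1 - r + u)⁻¹ =
      Real.pi * (Real.log (1 - r + Real.pi) - Real.log (1 - r)) := by
  have hpi := Real.pi_pos
  rw [intervalIntegral.integral_const_mul]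
  congr 1
  have hd : ∀ u ∈ uIcc (0 : ℝ) Real.pi,
      HasDerivAt (fun u : ℝ => Real.log (1 - r + u)) ((1 - r + u)⁻¹) u := by
    intro u hu
    rw [uIcc_of_le hpi.le] at hu
    have h0 : 1 - r + u ≠ 0 := by
      have := hu.1
      linarith
    have h1 : HasDerivAt (fun u : ℝ => 1 - r + u) 1 u := (hasDerivAt_id u).const_add (1 - r)
    have h2 := h1.log h0
    rwa [one_div] at h2
  have hi : IntervalIntegrable (fun u : ℝ => (1 - r + u)⁻¹) volume 0 Real.pi := by
    refine ContinuousOn.intervalIntegrable ?_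
    refine ContinuousOn.inv₀ (by fun_prop) fun u hu => ?_
    rw [uIcc_of_le hpi.le] at hu
    have := hu.1
    linarith
  rw [intervalIntegral.integral_eq_sub_of_hasDerivAt hd hi, add_zero]

private theorem kerM_half {r : ℝ} (hr : 1 / 2 ≤ r) (hr1 : r < 1) (x : ℝ) (s : ℝ)
    (hs : |s| = 1) :
    ∫ u in (0 : ℝ)..Real.pi, ‖pt x - circleMap 0 r (x + s * u)‖⁻¹ ≤
      Real.pi * (Real.log (1 - r + Real.pi) - Real.log (1 - r)) := by
  have hpi := Real.pi_pos
  rw [← kerM_log hr1]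
  refine intervalIntegral.integral_mono_on hpi.le ?_ ?_ fun u hu => ?_
  · have h1 := (kerM_cont hr hr1 x).comp (by fun_prop : Continuous fun u : ℝ => x + s * u)
    exact h1.intervalIntegrable _ _
  · refine ContinuousOn.intervalIntegrable ?_
    refine continuousOn_const.mul (ContinuousOn.inv₀ (by fun_prop) fun u hu => ?_)
    rw [uIcc_of_le hpi.le] at hu
    have := hu.1
    linarith
  · have h1 : |s * u| = u := by rw [abs_mul, hs, one_mul, abs_of_nonneg hu.1]
    have h2 := kerM_low hr hr1 x (u := s * u) (by rw [h1]; exact hu.2)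
    rw [h1] at h2
    exact h2

/-- PROOF. `z = r pt θ`: `‖pt x - z‖ ^ 2 = (1 - r) ^ 2 + 4 r sin ((x - θ) / 2) ^ 2`, so
`‖pt x - z‖ ≥ c (1 - r + |u|)` with `u = θ - x`, `|u| ≤ π`, `r ≥ 1 / 2` (`Real.mul_le_sin` or
`Real.mul_abs_le_abs_sin`). The circle average is an integral over `θ ∈ (x - π, x + π)`
(periodicity), and `∫_0^π du / (1 - r + u) = log ((1 - r + π) / (1 - r)) ≤ log 5 + L r`. -/
theorem kerM : ∃ C : ℝ, 0 < C ∧ ∀ r : ℝ, 1 / 2 ≤ r → r < 1 → ∀ x : ℝ,
    CircleIntegrable (fun z => ‖pt x - z‖⁻¹) 0 r ∧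
      Real.circleAverage (fun z => ‖pt x - z‖⁻¹) 0 r ≤ C * (1 + L r) := by
  refine ⟨2, by norm_num, fun r hr hr1 x => ?_⟩
  have hc := kerM_cont hr hr1 x
  refine ⟨hc.intervalIntegrable _ _, ?_⟩
  have hpi := Real.pi_pos
  obtain ⟨F, hF⟩ : ∃ F : ℝ → ℝ, F = fun θ : ℝ => ‖pt x - circleMap 0 r θ‖⁻¹ := ⟨_, rfl⟩
  have hFc : Continuous F := by rw [hF]; exact hc
  have hper : Function.Periodic F (2 * Real.pi) := by
    intro θ
    rw [hF]
    simp only
    rw [periodic_circleMap 0 r θ]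
  have h1 : Real.circleAverage (fun z => ‖pt x - z‖⁻¹) 0 r =
      (2 * Real.pi)⁻¹ * ∫ θ in (0 : ℝ)..(2 * Real.pi), F θ := by
    rw [hF, Real.circleAverage, smul_eq_mul]
  have h2 : ∫ θ in (0 : ℝ)..(2 * Real.pi), F θ =
      (∫ u in (0 : ℝ)..Real.pi, F (x + 1 * u)) + ∫ u in (0 : ℝ)..Real.pi, F (x + (-1) * u) := by
    have e1 := hper.intervalIntegral_add_eq 0 (x - Real.pi)
    rw [zero_add] at e1
    rw [e1, ← intervalIntegral.integral_add_adjacent_intervals (b := x)
      (hFc.intervalIntegrable _ _) (hFc.intervalIntegrable _ _), add_comm]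
    congr 1
    · rw [show x - Real.pi + 2 * Real.pi = x + Real.pi by ring]
      simp only [one_mul]
      rw [intervalIntegral.integral_comp_add_left (fun t => F t) x, add_zero]
    · simp only [neg_mul, one_mul]
      have e2 := intervalIntegral.integral_comp_sub_left (a := 0) (b := Real.pi) (fun t => F t) x
      rw [sub_zero] at e2
      rw [← e2]
      rfl
  have h3 : ∫ u in (0 : ℝ)..Real.pi, F (x + 1 * u) ≤
      Real.pi * (Real.log (1 - r + Real.pi) - Real.log (1 - r)) := by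
    rw [hF]
    exact kerM_half hr hr1 x 1 (by simp)
  have h4 : ∫ u in (0 : ℝ)..Real.pi, F (x + (-1) * u) ≤
      Real.pi * (Real.log (1 - r + Real.pi) - Real.log (1 - r)) := by
    rw [hF]
    exact kerM_half hr hr1 x (-1) (by simp)
  have h5 : Real.log (1 - r + Real.pi) ≤ 2 := by
    have h6 : 1 - r + Real.pi ≤ Real.exp 2 := by
      have h7 : (2.7 : ℝ) < Real.exp 1 := by
        have := Real.exp_one_gt_d9
        linarith
      have h8 : Real.exp 2 = Real.exp 1 * Real.exp 1 := by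
        rw [← Real.exp_add]
        norm_num
      have h9 := Real.pi_le_four
      rw [h8]
      nlinarith
    calc Real.log (1 - r + Real.pi) ≤ Real.log (Real.exp 2) :=
          Real.log_le_log (by linarith) h6
      _ = 2 := Real.log_exp 2
  have hL : 0 ≤ L r := by
    unfold L
    have := Real.log_nonpos (by linarith : (0 : ℝ) ≤ 1 - r) (by linarith)
    linarith
  have hLr : -Real.log (1 - r) = L r := rfl
  rw [h1, h2]
  have h10 : (∫ u in (0 : ℝ)..Real.pi, F (x + 1 * u)) +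
      (∫ u in (0 : ℝ)..Real.pi, F (x + (-1) * u)) ≤ 2 * Real.pi * (2 + L r) := by
    have h11 : Real.pi * (Real.log (1 - r + Real.pi) - Real.log (1 - r)) ≤
        Real.pi * (2 + L r) := by
      refine mul_le_mul_of_nonneg_left ?_ hpi.le
      linarith
    linarith
  calc (2 * Real.pi)⁻¹ * ((∫ u in (0 : ℝ)..Real.pi, F (x + 1 * u)) +
        ∫ u in (0 : ℝ)..Real.pi, F (x + (-1) * u))
      ≤ (2 * Real.pi)⁻¹ * (2 * Real.pi * (2 + L r)) :=
        mul_le_mul_of_nonneg_left h10 (by positivity)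
    _ = 2 + L r := by field_simp
    _ ≤ 2 * (1 + L r) := by linarith

end Pool.Agent.MP4b24a5.T3
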