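import Pool.Agent.Lib.MP_4b24a5_an_T3.SumT
import Pool.Agent.Lib.MP_4b24a5_an_T3.AlA

set_option autoImplicit false

/-!
# MP_4b24a5_an, project T3: lower bound of the order
-/

noncomputable section

namespace Pool.Agent.MP4b24a5.T3

open Complex Metric Set MeasureTheory Filter Topology

private theorem lm_eq (m : ℕ) : lm m = (1 - rh) / 2 * l0 * rh ^ m := by
  unfold lm hd len
  ring

private theorem lm_pos (m : ℕ) : 0 < lm m := by
  rw [lm_eq]
  unfold rh l0
  positivity

private theorem lm_tendsto : Tendsto lm atTop (𝓝 0) := by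
  have h : Tendsto (fun m : ℕ => (1 - rh) / 2 * l0 * rh ^ m) atTop
      (𝓝 ((1 - rh) / 2 * l0 * 0)) := by
    refine Tendsto.const_mul _ (tendsto_pow_atTop_nhds_zero_of_lt_one ?_ ?_) <;>
    unfold rh <;> norm_num
  rw [mul_zero] at h
  refine h.congr fun m => (lm_eq m).symm

/-- the proximity function dominates the integral over an arc -/
private theorem prox_ge {f : ℂ → ℂ} (hf : AnalyticOnNhd ℂ f (ball 0 1)) {r : ℝ} (h0 : 0 < r)
    (h1 : r < 1) :
    (2 * Real.pi)⁻¹ * ∫ θ in (-(l0 / 2))..(l0 / 2), Real.posLog ‖f (r * pt θ)‖ ≤ prox f r := by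
  have hcm : ∀ θ : ℝ, circleMap 0 r θ = r * pt θ := by
    intro θ
    simp [circleMap, pt]
  have hcont : Continuous fun θ : ℝ => Real.posLog ‖f (r * pt θ)‖ := by
    refine Real.continuous_posLog.comp (Continuous.norm ?_)
    have h2 : ∀ θ : ℝ, ContinuousAt (fun θ : ℝ => f (r * pt θ)) θ := by
      intro θ
      have h3 : ((r : ℂ) * pt θ) ∈ ball (0 : ℂ) 1 := by
        rw [mem_ball_zero_iff, ← hcm, norm_circleMap_zero, abs_of_pos h0]
        exact h1
      refine ContinuousAt.comp (f := fun θ : ℝ => (r : ℂ) * pt θ) (hf _ h3).continuousAt ?_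
      unfold pt
      fun_prop
    exact continuous_iff_continuousAt.2 h2
  have hper : Function.Periodic (fun θ : ℝ => Real.posLog ‖f (r * pt θ)‖) (2 * Real.pi) := by
    intro θ
    simp only
    rw [← hcm, ← hcm, periodic_circleMap]
  unfold prox Real.circleAverage
  rw [smul_eq_mul]
  refine mul_le_mul_of_nonneg_left ?_ (by positivity)
  have h4 : ∫ θ in (0 : ℝ)..2 * Real.pi, Real.posLog ‖f (circleMap 0 r θ)‖ =
      ∫ θ in (-(l0 / 2))..(-(l0 / 2) + 2 * Real.pi), Real.posLog ‖f (r * pt θ)‖ := by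
    have h5 := hper.intervalIntegral_add_eq 0 (-(l0 / 2))
    rw [zero_add] at h5
    rw [← h5]
    refine intervalIntegral.integral_congr fun θ _ => ?_
    simp only [hcm]
  rw [h4]
  have hpi := Real.pi_gt_three
  have hl : l0 ≤ 1 := by unfold l0; norm_num
  have hl0 : 0 < l0 := by unfold l0; norm_num
  refine intervalIntegral.integral_mono_interval le_rfl (by linarith) (by linarith) ?_ ?_
  · exact Eventually.of_forall fun θ => Real.posLog_nonneg
  · exact hcont.intervalIntegrable _ _

/-- PROOF. `κ'` from `gapD`, `κ = κ' / (16 π log (1 / rh))`. If `alph f < κ s` then `Bd f K` for a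
real `K < κ s` (`alph_le_iff`), so `prox f r ≤ κ s L r` for `r` near `1`. For `r_N = 1 - lm N / 8`:
`prox f r_N ≥ (1 / (2 π)) κ' s / 4 (N + 1 - m₀)` (`tree`; the circle average is an integral over
`[-π, π]` of a nonnegative function, `circleMap 0 r θ = r * pt θ`) and
`L r_N = log (8 / lm N) = N log (1 / rh) + const`: a contradiction for large `N`. -/
theorem lowF (d : ℕ) : ∃ κ : ℝ, 0 < κ ∧ ∀ s : ℝ, 0 < s → ∀ f : ℂ → ℂ, FF (d + 1) s f →
    ((κ * s : ℝ) : EReal) ≤ alph f := by
  obtain ⟨κ', hκ', hB⟩ := gapD d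
  have hrh : 0 < rh := by unfold rh; norm_num
  have hrh1 : rh < 1 := by unfold rh; norm_num
  have hlog : 0 < Real.log (1 / rh) := by
    apply Real.log_pos
    rw [lt_div_iff₀ hrh]
    linarith
  have hpi := Real.pi_pos
  refine ⟨κ' / (16 * Real.pi * Real.log (1 / rh)), by positivity, fun s hs f hf => ?_⟩
  obtain ⟨m₀, hm₀⟩ := hB s hs
  have hbig := hm₀ f hf
  set κ := κ' / (16 * Real.pi * Real.log (1 / rh)) with hκ
  have hκ0 : 0 < κ := by positivity
  by_contra hlt
  rw [not_le] at hlt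
  obtain ⟨K, hK1, hK2⟩ := EReal.lt_iff_exists_real_btwn.1 hlt
  have hK2' : K < κ * s := by exact_mod_cast hK2
  have hbd := (alph_le_iff hf.an).1 hK1.le (κ * s) hK2'
  -- the radii
  have hrN : Tendsto (fun N : ℕ => 1 - lm N / 8) atTop (𝓝[<] (1 : ℝ)) := by
    rw [tendsto_nhdsWithin_iff]
    constructor
    · have h := (lm_tendsto.div_const 8).const_sub 1
      simpa using h
    · exact Eventually.of_forall fun N => by
        have := lm_pos N
        simp only [mem_Iio]
        linarith
  have h1 := hrN.eventually hbd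
  have h2 : ∀ᶠ N : ℕ in atTop, (0 : ℝ) < 1 - lm N / 8 := by
    have h := (lm_tendsto.div_const 8).const_sub 1
    rw [zero_div, sub_zero] at h
    exact h.eventually (lt_mem_nhds one_pos)
  have h3 : ∀ᶠ N : ℕ in atTop, κ * s * (Real.log (16 / ((1 - rh) * l0)) ) +
      κ' * s * (m₀ : ℝ) / (8 * Real.pi) < κ' * s / (16 * Real.pi) * N := by
    have h : Tendsto (fun N : ℕ => κ' * s / (16 * Real.pi) * (N : ℝ)) atTop atTop :=
      tendsto_natCast_atTop_atTop.const_mul_atTop (by positivity)
    exact h.eventually_gt_atTop _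
  obtain ⟨N, h1, h2, h3⟩ := (h1.and (h2.and h3)).exists
  have hl := lm_pos N
  have h4 := tree hκ' hs hf.an hbig (N := N) (r := 1 - lm N / 8) le_rfl (by linarith)
  have h5 := prox_ge hf.an h2 (by linarith)
  have h6 : L (1 - lm N / 8) = Real.log (16 / ((1 - rh) * l0)) + N * Real.log (1 / rh) := by
    unfold L
    have hr1 : (0 : ℝ) < 1 - rh := by linarith
    have hl0 : 0 < l0 := by unfold l0; norm_num
    rw [← Real.log_inv, ← Real.log_pow, ← Real.log_mul (by positivity) (by positivity)]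
    congr 1
    rw [lm_eq, one_div, inv_pow]
    have hp : (0 : ℝ) < rh ^ N := by positivity
    generalize rh ^ N = q at hp ⊢
    field_simp
    ring
  rw [h6] at h1
  have h7 : κ * Real.log (1 / rh) = κ' / (16 * Real.pi) := by
    rw [hκ]
    field_simp
  have h8 : κ * s * (Real.log (16 / ((1 - rh) * l0)) + N * Real.log (1 / rh)) =
      κ * s * Real.log (16 / ((1 - rh) * l0)) + κ' * s / (16 * Real.pi) * N := by
    rw [mul_add]
    congr 1
    calc κ * s * (N * Real.log (1 / rh)) = (κ * Real.log (1 / rh)) * s * N := by ring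
      _ = κ' * s / (16 * Real.pi) * N := by rw [h7]; ring
  rw [h8] at h1
  have h9 : (2 * Real.pi)⁻¹ * (κ' * s / 4 * ((N : ℝ) + 1 - m₀)) ≤ prox f (1 - lm N / 8) := by
    refine le_trans ?_ h5
    exact mul_le_mul_of_nonneg_left h4 (by positivity)
  have h10 : (2 * Real.pi)⁻¹ * (κ' * s / 4 * ((N : ℝ) + 1 - m₀)) =
      κ' * s / (16 * Real.pi) * N + κ' * s / (16 * Real.pi) * N + κ' * s / (8 * Real.pi) -
        κ' * s * m₀ / (8 * Real.pi) := by
    field_simp
    ring
  have h11 : 0 < κ' * s / (8 * Real.pi) := by positivity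
  linarith

end Pool.Agent.MP4b24a5.T3
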