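import Pool.Agent.Lib.MP_4b24a5_an_T3.Defs

set_option autoImplicit false

/-!
# MP_4b24a5_an, project T3: iterated primitives
-/

noncomputable section

namespace Pool.Agent.MP4b24a5.T3

open Complex Metric Set MeasureTheory Filter Topology

/-- PROOF. Induction on `j`: a primitive `F` of `f` on the disc with `F 0 = 0`
(`Complex.HasPrimitives`: `DifferentiableOn.isExactOn_ball`, subtract a constant). Set
`f := F`; `iteratedDeriv (i + 1) F = iteratedDeriv i (deriv F)` (`iteratedDeriv_succ'`), and
`deriv F = f` near every point of the disc. The bound of `‖F z‖` by the mean value inequality on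
the segment from `0` to `z`, using the bound for `i = 0` of the previous function at the points
`t z` (whose segments are parts of the segment from `0` to `z`). -/
theorem prim {g : ℂ → ℂ} (hg : AnalyticOnNhd ℂ g (ball 0 1)) (j : ℕ) :
    ∃ f : ℂ → ℂ, AnalyticOnNhd ℂ f (ball 0 1) ∧
      (∀ z ∈ ball (0 : ℂ) 1, iteratedDeriv j f z = g z) ∧
      ∀ i ≤ j, ∀ z ∈ ball (0 : ℂ) 1, ∀ B : ℝ,
        (∀ t ∈ Icc (0 : ℝ) 1, ‖g (t * z)‖ ≤ B) → ‖iteratedDeriv i f z‖ ≤ B := by
  induction j with
  | zero =>
    refine ⟨g, hg, fun z _ => by rw [iteratedDeriv_zero], fun i hi z _ B hB => ?_⟩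
    have h1 : i = 0 := Nat.le_zero.1 hi
    rw [h1, iteratedDeriv_zero]
    simpa using hB 1 ⟨zero_le_one, le_rfl⟩
  | succ j ih =>
    obtain ⟨f, hf, hfg, hb⟩ := ih
    obtain ⟨F, hF0, hF⟩ := (hf.differentiableOn.isExactOn_ball).with_val_at 0 0
    have hFd : DifferentiableOn ℂ F (ball 0 1) :=
      fun z hz => (hF z hz).differentiableAt.differentiableWithinAt
    have hFan : AnalyticOnNhd ℂ F (ball 0 1) := hFd.analyticOnNhd isOpen_ball
    have hd : ∀ z ∈ ball (0 : ℂ) 1, deriv F =ᶠ[𝓝 z] f := by
      intro z hz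
      filter_upwards [isOpen_ball.mem_nhds hz] with y hy
      exact (hF y hy).deriv
    have hs : ∀ i, ∀ z ∈ ball (0 : ℂ) 1, iteratedDeriv (i + 1) F z = iteratedDeriv i f z := by
      intro i z hz
      rw [iteratedDeriv_succ']
      exact (hd z hz).iteratedDeriv_eq i
    refine ⟨F, hFan, fun z hz => ?_, fun i hi z hz B hB => ?_⟩
    · rw [hs j z hz]
      exact hfg z hz
    · rcases i with _ | i
      · rw [iteratedDeriv_zero]
        have hz1 : ‖z‖ < 1 := by simpa using hz
        have hB0 : 0 ≤ B := (norm_nonneg _).trans (hB 0 ⟨le_rfl, zero_le_one⟩)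
        have hmem : ∀ t ∈ Icc (0 : ℝ) 1, (t : ℂ) * z ∈ ball (0 : ℂ) 1 := by
          intro t ht
          rw [mem_ball_zero_iff, norm_mul, Complex.norm_real, Real.norm_of_nonneg ht.1]
          exact (mul_le_of_le_one_left (norm_nonneg z) ht.2).trans_lt hz1
        have hseg : ∀ x ∈ segment ℝ (0 : ℂ) z, ∃ t ∈ Icc (0 : ℝ) 1, x = (t : ℂ) * z := by
          intro x hx
          rw [segment_eq_image] at hx
          obtain ⟨t, ht, rfl⟩ := hx
          refine ⟨t, ht, ?_⟩
          simp
        have h1 := Convex.norm_image_sub_le_of_norm_hasDerivWithin_le (𝕜 := ℂ) (f := F) (f' := f)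
          (C := B) (s := segment ℝ (0 : ℂ) z) (x := 0) (y := z) (fun x hx => ?_) (fun x hx => ?_)
          (convex_segment _ _) (left_mem_segment _ _ _) (right_mem_segment _ _ _)
        · rw [hF0, sub_zero, sub_zero] at h1
          exact h1.trans (mul_le_of_le_one_right hB0 hz1.le)
        · obtain ⟨t, ht, rfl⟩ := hseg x hx
          exact (hF _ (hmem t ht)).hasDerivWithinAt
        · obtain ⟨t, ht, rfl⟩ := hseg x hx
          have h2 := hb 0 (Nat.zero_le j) _ (hmem t ht) B ?_
          · rwa [iteratedDeriv_zero] at h2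
          · intro s hs'
            have h3 := hB (s * t) ⟨mul_nonneg hs'.1 ht.1, mul_le_one₀ hs'.2 ht.1 ht.2⟩
            have h4 : ((s * t : ℝ) : ℂ) * z = (s : ℂ) * ((t : ℂ) * z) := by
              push_cast
              ring
            rwa [h4] at h3
      · rw [hs i z hz]
        exact hb i (by omega) z hz B hB

end Pool.Agent.MP4b24a5.T3
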