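import Pool.Agent.Lib.MP_4b24a5_an_T3.UpH
import Pool.Agent.Lib.MP_4b24a5_an_T3.Prim
import Pool.Agent.Lib.MP_4b24a5_an_T3.AlA

set_option autoImplicit false

/-!
# MP_4b24a5_an, project T3: upper bounds
-/

noncomputable section

namespace Pool.Agent.MP4b24a5.T3

open Complex Metric Set MeasureTheory Filter Topology

private theorem norm_exp_hh (s : ℝ) (z : ℂ) :
    ‖Complex.exp (s * HH z)‖ = Real.exp (s * (HH z).re) := by
  rw [Complex.norm_exp, Complex.re_ofReal_mul]

/-- PROOF. `prim` for `g z = exp (s * HH z)`; `‖exp (s * HH (t z))‖ = exp (s * re)`. -/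
theorem exists_ff (j : ℕ) (s : ℝ) : ∃ f : ℂ → ℂ, FF j s f := by
  have hg : AnalyticOnNhd ℂ (fun z => Complex.exp (s * HH z)) (ball 0 1) := by
    intro z hz
    exact (analyticAt_const.mul (hh_analytic z hz)).cexp
  obtain ⟨f, h1, h2, h3⟩ := prim hg j
  refine ⟨f, h1, h2, fun i hi z hz B hB => h3 i hi z hz _ fun t ht => ?_⟩
  rw [norm_exp_hh]
  exact Real.exp_le_exp.2 (hB t ht)

variable {j : ℕ} {s : ℝ} {f : ℂ → ℂ}

private theorem posLog_le_of {x B : ℝ} (hx : 0 ≤ x) (hB : 0 ≤ B) (h : x ≤ Real.exp B) :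
    Real.posLog x ≤ B := by
  rcases hx.eq_or_lt with rfl | hx
  · simpa using hB
  · refine max_le hB ?_
    rw [Real.log_le_iff_le_exp hx]
    exact h

/-- PROOF. With `u` from `upH`: `‖f z‖ ≤ exp (s * u z)` (`hf.bd` for `i = 0`), and `0 ≤ u z` (take
`t = 1`, `hh_re_nonneg`), so `log⁺ ‖f z‖ ≤ s * u z` on the circle and
`prox f r ≤ s * C * (1 + L r)`; take `K = s * C` (`L_tendsto`). -/
theorem ff_upper (hs : 0 ≤ s) (hf : FF j s f) : ∃ K : ℝ, 0 ≤ K ∧ Bd f K := by
  obtain ⟨C, hC, h⟩ := upH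
  refine ⟨s * C, by positivity, fun K' hK' => ?_⟩
  have h1 : ∀ᶠ r in 𝓝[<] (1 : ℝ), 1 / 2 ≤ r := by
    have := Ioo_mem_nhdsLT (show (1 / 2 : ℝ) < 1 by norm_num)
    filter_upwards [this] with r hr using hr.1.le
  have h2 : ∀ᶠ r in 𝓝[<] (1 : ℝ), s * C / (K' - s * C) ≤ L r := L_tendsto.eventually_ge_atTop _
  filter_upwards [h1, h2, self_mem_nhdsWithin] with r h3 h4 h5
  have h5 : r < 1 := h5
  have hr0 : 0 < r := by linarith
  obtain ⟨u, hu1, hu2, hu3⟩ := h r h3 h5
  have hKs : 0 < K' - s * C := by linarith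
  have h6 : prox f r ≤ s * (C * (1 + L r)) := by
    have h7 : ∀ z ∈ sphere (0 : ℂ) |r|, Real.posLog ‖f z‖ ≤ s * u z := by
      intro z hz
      have hz' : ‖z‖ = r := by
        rw [abs_of_pos hr0] at hz
        simpa using hz
      have hzb : z ∈ ball (0 : ℂ) 1 := by
        rw [mem_ball_zero_iff, hz']
        exact h5
      have h8 : 0 ≤ u z := by
        have h9 := hu3 z hz' 1 ⟨zero_le_one, le_rfl⟩
        have h10 := hh_re_nonneg (mem_ball_zero_iff.1 hzb)
        simp only [Complex.ofReal_one, one_mul] at h9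
        linarith
      refine posLog_le_of (norm_nonneg _) (mul_nonneg hs h8) ?_
      have h11 := hf.bd 0 (Nat.zero_le _) z hzb (s * u z) fun t ht =>
        mul_le_mul_of_nonneg_left (hu3 z hz' t ht) hs
      simpa using h11
    have hfc : CircleIntegrable (fun z => Real.posLog ‖f z‖) 0 r := by
      refine ContinuousOn.circleIntegrable hr0.le ?_
      refine Real.continuous_posLog.comp_continuousOn (ContinuousOn.norm ?_)
      refine hf.an.continuousOn.mono fun z hz => ?_
      rw [mem_ball_zero_iff, mem_sphere_zero_iff_norm.1 hz]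
      exact h5
    calc prox f r ≤ Real.circleAverage (fun z => s * u z) 0 r := by
          refine Real.circleAverage_mono hfc ?_ h7
          exact hu1.const_mul s
      _ = s * Real.circleAverage u 0 r := by
          have := Real.circleAverage_fun_smul (a := s) (f := u) (c := 0) (R := r)
          simpa [smul_eq_mul] using this
      _ ≤ s * (C * (1 + L r)) := mul_le_mul_of_nonneg_left hu2 hs
  have h9 : s * C ≤ (K' - s * C) * L r := by
    rw [div_le_iff₀ hKs] at h4
    linarith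
  nlinarith

/-- PROOF. `hf.bd` for `i = 0`, `hh_left` for the points `t z`. -/
theorem ff_left (hs : 0 ≤ s) (hf : FF j s f) {z : ℂ} (hz : z ∈ ball (0 : ℂ) 1)
    (h : z.re ≤ 0) : Real.posLog ‖f z‖ ≤ 4 * s := by
  refine posLog_le_of (norm_nonneg _) (by positivity) ?_
  have h1 := hf.bd 0 (Nat.zero_le _) z hz (4 * s) fun t ht => ?_
  · simpa using h1
  · have h2 : (HH (t * z)).re ≤ 4 := by
      refine hh_left ?_ ?_
      · rw [norm_mul, Complex.norm_real, Real.norm_of_nonneg ht.1]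
        have := mem_ball_zero_iff.1 hz
        nlinarith [ht.2, norm_nonneg z, ht.1]
      · rw [Complex.re_ofReal_mul]
        exact mul_nonpos_of_nonneg_of_nonpos ht.1 h
    nlinarith

/-- PROOF. `hh_re_nonneg`. -/
theorem ff_one_le (hs : 0 ≤ s) (hf : FF j s f) {z : ℂ} (hz : z ∈ ball (0 : ℂ) 1) :
    1 ≤ ‖iteratedDeriv j f z‖ := by
  rw [hf.der z hz, norm_exp_hh, Real.one_le_exp_iff]
  exact mul_nonneg hs (hh_re_nonneg (mem_ball_zero_iff.1 hz))

end Pool.Agent.MP4b24a5.T3
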