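import Pool.Agent.Lib.MP_4b24a5_an_T3.LowF
import Pool.Agent.Lib.MP_4b24a5_an_T3.Upper
import Pool.Agent.Lib.MP_4b24a5_an_T3.Ivt
import Pool.Agent.Lib.MP_4b24a5_an_T3.Fac
import Pool.Agent.Lib.MP_4b24a5_an_T3.Bol

set_option autoImplicit false

/-!
# MP_4b24a5_an, project T3: the main theorem
-/

noncomputable section

namespace Pool.Agent.MP4b24a5.T3

open Complex Metric Set MeasureTheory Filter Topology

theorem main_pos (d : ℕ) {a : ℝ} (ha : 0 < a) : ∃ F : ℂ → ℂ, AnalyticOnNhd ℂ F (ball 0 1) ∧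
    alph F = (a : EReal) ∧ ∃ δ : ℝ, 0 < δ ∧ ∀ z ∈ ball (0 : ℂ) 1,
      δ ≤ ‖iteratedDeriv (d + 1) F z‖ := by
  obtain ⟨κ, hκ, hlow⟩ := lowF d
  obtain ⟨s, hs, hsa⟩ : ∃ s : ℝ, 0 < s ∧ a ≤ κ * s :=
    ⟨a / κ, div_pos ha hκ, by rw [mul_div_cancel₀ _ hκ.ne']⟩
  obtain ⟨f, hf⟩ := exists_ff (d + 1) s
  obtain ⟨K, hK, hKb⟩ := ff_upper hs.le hf
  obtain ⟨b, hb0, hb1, hb⟩ := ivt hf.an hK hKb (B := 4 * s) (by positivity)
    (fun z hz h => ff_left hs.le hf hz h) ha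
    ((EReal.coe_le_coe_iff.2 hsa).trans (hlow s hs f hf))
  have hab : |b| < 1 := by rwa [abs_of_nonneg hb0]
  have hbb : 0 < 1 - b ^ 2 := by nlinarith
  have hcomp : AnalyticOnNhd ℂ (fun z => f (mb b z)) (ball 0 1) := by
    intro z hz
    have hz' : ‖z‖ < 1 := mem_ball_zero_iff.1 hz
    exact (hf.an _ (mem_ball_zero_iff.2 (mb_mem hab hz'))).comp (mb_an hab z hz)
  refine ⟨fun z => (1 - b * z) ^ d * f (mb b z), ?_, ?_, (1 - b ^ 2) ^ (d + 1) / 2 ^ (d + 2),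
    by positivity, ?_⟩
  · intro z hz
    have h1 : AnalyticAt ℂ (fun z : ℂ => (1 - (b : ℂ) * z) ^ d) z := by fun_prop
    exact h1.mul (hcomp z hz)
  · rw [alph_fac hcomp hb0 hb1 d]
    exact hb
  · intro z hz
    have hz' : ‖z‖ < 1 := mem_ball_zero_iff.1 hz
    rw [bol d hf.an hab hz', norm_mul, norm_mul, norm_inv, norm_pow, norm_pow]
    have h1 := ff_one_le hs.le hf (mem_ball_zero_iff.2 (mb_mem hab hz'))
    have h2 : ‖(1 : ℂ) - b * z‖ ≤ 2 := by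
      refine (norm_sub_le _ _).trans ?_
      rw [norm_one, norm_mul, Complex.norm_real, Real.norm_eq_abs]
      nlinarith [norm_nonneg z, abs_nonneg b]
    have h3 : ‖(1 : ℂ) - (b : ℂ) ^ 2‖ = 1 - b ^ 2 := by
      rw [← Complex.ofReal_pow, ← Complex.ofReal_one, ← Complex.ofReal_sub, Complex.norm_real,
        Real.norm_eq_abs, abs_of_pos hbb]
    have h4 : 0 < ‖(1 : ℂ) - b * z‖ := norm_pos_iff.2 (mb_den hab hz')
    have h5 : ((2 : ℝ) ^ (d + 2))⁻¹ ≤ (‖(1 : ℂ) - b * z‖ ^ (d + 2))⁻¹ :=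
      inv_anti₀ (by positivity) (pow_le_pow_left₀ h4.le h2 _)
    rw [h3, div_eq_mul_inv]
    have h6 : 0 ≤ (1 - b ^ 2) ^ (d + 1) := by positivity
    calc (1 - b ^ 2) ^ (d + 1) * ((2 : ℝ) ^ (d + 2))⁻¹
        ≤ (1 - b ^ 2) ^ (d + 1) * (‖(1 : ℂ) - b * z‖ ^ (d + 2))⁻¹ :=
          mul_le_mul_of_nonneg_left h5 h6
      _ ≤ (1 - b ^ 2) ^ (d + 1) * (‖(1 : ℂ) - b * z‖ ^ (d + 2))⁻¹ *
          ‖iteratedDeriv (d + 1) f (mb b z)‖ :=
          le_mul_of_one_le_right (mul_nonneg h6 (by positivity)) h1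

end Pool.Agent.MP4b24a5.T3
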