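import Pool.Agent.Lib.MP_4b24a5_an_T3.PhiB

set_option autoImplicit false

/-!
# MP_4b24a5_an, project T3: the tree of intervals
-/

noncomputable section

namespace Pool.Agent.MP4b24a5.T3

open Complex Metric Set MeasureTheory Filter Topology

private theorem nd_rh_pos : 0 < rh := by
  unfold rh
  positivity

private theorem nd_len_pos (m : ℕ) : 0 < len m := by
  unfold len l0
  have := nd_rh_pos
  positivity

private theorem nd_len_le (m : ℕ) : len m ≤ 1 / 10 ^ 9 := by
  unfold len l0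
  have h : rh ^ m ≤ 1 := pow_le_one₀ nd_rh_pos.le (by unfold rh; norm_num)
  have h2 : (0 : ℝ) < 1 / 10 ^ 9 := by positivity
  nlinarith

private theorem nd_len_succ (m : ℕ) : len (m + 1) = rh * len m := by
  unfold len
  rw [pow_succ]
  ring

private theorem nd_conj (y : ℝ) : (starRingEnd ℂ) (pt y) = pt (-y) := by
  unfold pt
  rw [← Complex.exp_conj, map_mul, Complex.conj_I, Complex.conj_ofReal]
  congr 1
  push_cast
  ring

private theorem nd_mul (x y : ℝ) : pt x * pt y = pt (x + y) := by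
  unfold pt
  rw [← Complex.exp_add]
  congr 1
  push_cast
  ring

private theorem nd_im (x : ℝ) : (pt x).im = Real.sin x := by
  unfold pt
  exact Complex.exp_ofReal_mul_I_im x

private theorem nd_re (x : ℝ) : (pt x).re = Real.cos x := by
  unfold pt
  exact Complex.exp_ofReal_mul_I_re x

private theorem nd_im_le (w : ℂ) (x : ℝ) : |(w * pt x).im| ≤ ‖w‖ := by
  refine (Complex.abs_im_le_norm _).trans ?_
  rw [norm_mul, norm_pt, mul_one]

private theorem nd_one {m : ℕ} {c c' : ℝ} (hc : |c - c'| ≤ lm m) {z : ℂ} (hz : ‖z‖ < 1)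
    (h : |(z * (starRingEnd ℂ) (pt c')).im| ≤ len (m + 1) / 2) :
    |(z * (starRingEnd ℂ) (pt c)).im| ≤ len m / 2 := by
  have e : z * (starRingEnd ℂ) (pt c) = z * (starRingEnd ℂ) (pt c') * pt (c' - c) := by
    rw [nd_conj, nd_conj, mul_assoc, nd_mul]
    congr 2
    ring
  set A : ℂ := z * (starRingEnd ℂ) (pt c') with hA
  have hA1 : ‖A‖ ≤ 1 := by
    rw [hA, nd_conj, norm_mul, norm_pt, mul_one]
    exact hz.le
  rw [e, Complex.mul_im, nd_im, nd_re]
  have h1 : |A.re * Real.sin (c' - c)| ≤ lm m := by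
    rw [abs_mul]
    have h2 : |Real.sin (c' - c)| ≤ |c' - c| := Real.abs_sin_le_abs
    have h3 : |A.re| ≤ 1 := (Complex.abs_re_le_norm A).trans hA1
    rw [abs_sub_comm c' c] at h2
    calc |A.re| * |Real.sin (c' - c)| ≤ 1 * lm m :=
          mul_le_mul h3 (h2.trans hc) (abs_nonneg _) zero_le_one
      _ = lm m := one_mul _
  have h2 : |A.im * Real.cos (c' - c)| ≤ len (m + 1) / 2 := by
    rw [abs_mul]
    calc |A.im| * |Real.cos (c' - c)| ≤ |A.im| * 1 :=
          mul_le_mul_of_nonneg_left (Real.abs_cos_le_one _) (abs_nonneg _)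
      _ = |A.im| := mul_one _
      _ ≤ _ := h
  refine (abs_add_le _ _).trans ?_
  have h3 : lm m + len (m + 1) / 2 = len m / 2 := by
    rw [nd_len_succ]
    unfold lm hd
    ring
  linarith

private theorem nd_two {m : ℕ} {c' d : ℝ} (hd : |d - c'| = 2 * lm m) {z : ℂ} (hz : ‖z‖ < 1)
    (h : |(z * (starRingEnd ℂ) (pt c')).im| ≤ len (m + 1) / 2) :
    ‖Phi d (len (m + 1)) z‖ ≤ 4 / len m := by
  have hl := nd_len_pos m
  have hl' := nd_len_le m
  have hpi := Real.pi_lt_d2
  have hpi3 := Real.pi_gt_three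
  have key : ∀ x ∈ Icc (d - len (m + 1) / 2) (d + len (m + 1) / 2),
      kk x z ∈ closedBall (0 : ℂ) (4 / len m) := by
    intro x hx
    rw [mem_closedBall, dist_zero_right]
    refine (norm_kk_le hz x).trans ?_
    have hdist : len m / 2 ≤ ‖pt x - z‖ := by
      have h1 := nd_im_le (pt x - z) (-c')
      have e : ((pt x - z) * pt (-c')).im = Real.sin (x - c') -
          (z * (starRingEnd ℂ) (pt c')).im := by
        rw [nd_conj, sub_mul, Complex.sub_im, nd_mul, nd_im, ← sub_eq_add_neg]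
      rw [e] at h1
      have h2 := abs_sub_abs_le_abs_sub (Real.sin (x - c')) (z * (starRingEnd ℂ) (pt c')).im
      have hxd : |x - d| ≤ len (m + 1) / 2 := by
        rw [abs_le]
        constructor <;> linarith [hx.1, hx.2]
      have h3 : 2 * lm m - len (m + 1) / 2 ≤ |x - c'| := by
        have h4 := abs_sub_abs_le_abs_sub (d - c') (d - x)
        rw [hd, abs_sub_comm d x] at h4
        have h5 : d - c' - (d - x) = x - c' := by ring
        rw [h5] at h4
        linarith
      have h4 : |x - c'| ≤ 2 * lm m + len (m + 1) / 2 := by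
        have h5 := abs_add_le (x - d) (d - c')
        rw [hd] at h5
        have h6 : x - d + (d - c') = x - c' := by ring
        rw [h6] at h5
        linarith
      rw [nd_len_succ] at h h3 h4
      unfold lm at h3 h4
      unfold T3.hd at h3 h4
      have hrh : rh = 1 / 10 ^ 9 := rfl
      rw [hrh] at h h3 h4
      have h5 : |x - c'| ≤ Real.pi / 2 := by
        norm_num at h4 hl' ⊢
        linarith
      have h6 := Real.mul_abs_le_abs_sin h5
      have h7 : 3 / 5 * |x - c'| ≤ 2 / Real.pi * |x - c'| := by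
        refine mul_le_mul_of_nonneg_right ?_ (abs_nonneg _)
        rw [div_le_div_iff₀ (by norm_num) (by linarith)]
        linarith
      have h8 := h2.trans h1
      generalize |(z * (starRingEnd ℂ) (pt c')).im| = B at h h8
      norm_num at h h3 ⊢
      linarith
    have h8 : (0 : ℝ) < len m / 2 := by linarith
    calc 2 / ‖pt x - z‖ ≤ 2 / (len m / 2) := div_le_div_of_nonneg_left (by norm_num) h8 hdist
      _ = 4 / len m := by
        field_simp
        norm_num
  have h9 := phi_mem (convex_closedBall (0 : ℂ) (4 / len m)) isClosed_closedBall hz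
    (nd_len_pos (m + 1)).le key
  rw [mem_closedBall, dist_zero_right] at h9
  exact h9

private theorem nd_bd {m : ℕ} {c c' d : ℝ} {R : ℂ → ℂ} (h : Node m c R)
    (hc : |c - c'| ≤ lm m) (hd : |d - c'| = 2 * lm m) {z : ℂ} (hz : z ∈ ball (0 : ℂ) 1)
    (hi : |(z * (starRingEnd ℂ) (pt c')).im| ≤ len (m + 1) / 2) :
    ‖R z + ((1 / 2 : ℝ) ^ (m + 1) : ℝ) * Phi d (len (m + 1)) z‖ ≤
      5 * rh * ((1 / 2) ^ (m + 1) / len (m + 1)) := by
  have hz' : ‖z‖ < 1 := by rwa [mem_ball, dist_zero_right] at hz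
  have h1 := h.bd z hz (nd_one hc hz' hi)
  have h2 := nd_two hd hz' hi
  have hl := nd_len_pos m
  have hr := nd_rh_pos
  refine (norm_add_le _ _).trans ?_
  rw [norm_mul, Complex.norm_real, Real.norm_of_nonneg (by positivity)]
  have h3 : (1 / 2 : ℝ) ^ (m + 1) * ‖Phi d (len (m + 1)) z‖ ≤
      (1 / 2 : ℝ) ^ (m + 1) * (4 / len m) := mul_le_mul_of_nonneg_left h2 (by positivity)
  have h4 : 5 * rh * ((1 / 2 : ℝ) ^ (m + 1) / len (m + 1)) = 5 / 2 * ((1 / 2) ^ m / len m) := by
    rw [nd_len_succ, pow_succ]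
    field_simp
  have h5 : (1 / 2 : ℝ) ^ (m + 1) * (4 / len m) = 2 * ((1 / 2) ^ m / len m) := by
    rw [pow_succ]
    ring
  rw [h4]
  rw [h5] at h3
  have h6 : 0 < (1 / 2 : ℝ) ^ m / len m := by positivity
  have h7 : 5 * rh * ((1 / 2 : ℝ) ^ m / len m) ≤ 1 / 2 * ((1 / 2) ^ m / len m) := by
    refine mul_le_mul_of_nonneg_right ?_ h6.le
    unfold rh
    norm_num
  linarith

private theorem nd_lm_nonneg (m : ℕ) : 0 ≤ lm m := by
  have h1 := nd_len_pos m
  have h2 : rh ≤ 1 := by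
    unfold rh
    norm_num
  unfold lm hd
  have : 0 ≤ (1 - rh) / 2 := by linarith
  positivity

theorem node_zero : Node 0 0 (fun _ => 0) := by
  refine ⟨fun z _ => ?_, fun z _ _ => ?_⟩
  · have h1 : len 0 = l0 := by
      unfold len
      rw [pow_zero, mul_one]
    rw [h1]
    unfold HH
    simp
  · have h1 := nd_len_pos 0
    have h2 := nd_rh_pos
    rw [norm_zero]
    positivity

/-- PROOF. `R' z = R z + (1/2) ^ (m + 1) * Φ (c + lm m) (rh * len m) z` (`phi_split`; `len (m + 1)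
= rh * len m`). Bound: put `c' = c - l`, `l = lm m`, `ℓ = len m`, and let `|(z * conj (pt c')).im|
≤ rh ℓ / 2`. (1) `z * conj (pt c) = z * conj (pt c') * pt (-l)`, so its imaginary part is at most
`rh ℓ / 2 + sin l ≤ rh ℓ / 2 + l = ℓ / 2` and `h.bd` applies. (2) For `x` in the interval with
centre `c + l` and length `rh ℓ`, `x - c' = 2 l + τ`, `|τ| ≤ rh ℓ / 2`, `‖pt x - z‖ ≥ |((pt x - z)
* conj (pt c')).im| ≥ sin (x - c') - rh ℓ / 2 ≥ ℓ / 2`, so `‖kk x z‖ ≤ 4 / ℓ` (`norm_kk_le`) and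
`‖Φ ..‖ ≤ 4 / ℓ` (`phi_mem`, closed ball). Total: `5 rh (1/2) ^ m / ℓ + 2 (1/2) ^ m / ℓ ≤ (5 / 2)
(1/2) ^ m / ℓ = 5 rh (1/2) ^ (m + 1) / (rh ℓ)`. -/
theorem node_left {m : ℕ} {c : ℝ} {R : ℂ → ℂ} (h : Node m c R) :
    ∃ R' : ℂ → ℂ, Node (m + 1) (c - lm m) R' := by
  have hl := nd_lm_nonneg m
  refine ⟨fun z => R z + ((1 / 2 : ℝ) ^ (m + 1) : ℝ) * Phi (c + lm m) (len (m + 1)) z,
    fun z hz => ?_, fun z hz hi => ?_⟩
  · have hz' : ‖z‖ < 1 := by rwa [mem_ball, dist_zero_right] at hz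
    rw [h.eq z hz, phi_split hz' (nd_len_pos m).le, nd_len_succ, Complex.real_smul, pow_succ]
    unfold lm
    push_cast
    ring
  · refine nd_bd h ?_ ?_ hz hi
    · rw [show c - (c - lm m) = lm m by ring, abs_of_nonneg hl]
    · rw [show c + lm m - (c - lm m) = 2 * lm m by ring, abs_of_nonneg (by linarith)]

/-- PROOF. As `node_left`. -/
theorem node_right {m : ℕ} {c : ℝ} {R : ℂ → ℂ} (h : Node m c R) :
    ∃ R' : ℂ → ℂ, Node (m + 1) (c + lm m) R' := by
  have hl := nd_lm_nonneg m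
  refine ⟨fun z => R z + ((1 / 2 : ℝ) ^ (m + 1) : ℝ) * Phi (c - lm m) (len (m + 1)) z,
    fun z hz => ?_, fun z hz hi => ?_⟩
  · have hz' : ‖z‖ < 1 := by rwa [mem_ball, dist_zero_right] at hz
    rw [h.eq z hz, phi_split hz' (nd_len_pos m).le, nd_len_succ, Complex.real_smul, pow_succ]
    unfold lm
    push_cast
    ring
  · refine nd_bd h ?_ ?_ hz hi
    · rw [show c - (c + lm m) = -lm m by ring, abs_neg, abs_of_nonneg hl]
    · rw [show c - lm m - (c + lm m) = -(2 * lm m) by ring, abs_neg, abs_of_nonneg (by linarith)]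

end Pool.Agent.MP4b24a5.T3
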