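import Pool.Agent.Lib.MP_4b24a5_an_T3.AvA

set_option autoImplicit false

/-!
# MP_4b24a5_an, project T3: convergence of the averages of the Herglotz kernel
-/

noncomputable section

namespace Pool.Agent.MP4b24a5.T3

open Complex Metric Set MeasureTheory Filter Topology

theorem norm_pt (x : ℝ) : ‖pt x‖ = 1 := Complex.norm_exp_ofReal_mul_I x

theorem norm_pt_sub_le (x y : ℝ) : ‖pt x - pt y‖ ≤ |x - y| := by
  have h1 : pt x - pt y = pt y * (Complex.exp (I * ((x - y : ℝ) : ℂ)) - 1) := by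
    unfold pt
    rw [mul_sub, mul_one, ← Complex.exp_add]
    congr 2
    push_cast
    ring
  rw [h1, norm_mul, norm_pt, one_mul]
  exact Real.norm_exp_I_mul_ofReal_sub_one_le

/-- PROOF. `kk x z - kk y z = 2 z (pt y - pt x) / ((pt x - z) (pt y - z))`. -/
theorem kk_lip {z : ℂ} (hz : ‖z‖ < 1) (x y : ℝ) :
    ‖kk x z - kk y z‖ ≤ 2 / (1 - ‖z‖) ^ 2 * |x - y| := by
  have hd : ∀ t : ℝ, 1 - ‖z‖ ≤ ‖pt t - z‖ := fun t => by
    have h := norm_sub_norm_le (pt t) z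
    rwa [norm_pt] at h
  have h0 : 0 < 1 - ‖z‖ := by linarith
  have hne : ∀ t : ℝ, pt t - z ≠ 0 := fun t h => by
    have h1 := hd t
    rw [h, norm_zero] at h1
    linarith
  have e : kk x z - kk y z = 2 * z * (pt y - pt x) / ((pt x - z) * (pt y - z)) := by
    unfold kk
    have hx := hne x
    have hy := hne y
    field_simp
    ring
  rw [e, norm_div, norm_mul, norm_mul, norm_mul]
  have h2 : ‖(2 : ℂ)‖ = 2 := by norm_num
  rw [h2]
  have h3 : (1 - ‖z‖) ^ 2 ≤ ‖pt x - z‖ * ‖pt y - z‖ := by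
    rw [sq]
    exact mul_le_mul (hd x) (hd y) h0.le (norm_nonneg _)
  have h4 : 2 * ‖z‖ * ‖pt y - pt x‖ ≤ 2 * |x - y| := by
    have h5 := norm_pt_sub_le y x
    rw [abs_sub_comm] at h5
    have h6 := norm_nonneg (pt y - pt x)
    have h7 := norm_nonneg z
    nlinarith
  have h8 : 2 / (1 - ‖z‖) ^ 2 * |x - y| = 2 * |x - y| / (1 - ‖z‖) ^ 2 := by ring
  rw [h8]
  exact div_le_div₀ (by positivity) h4 (by positivity) h3

private theorem phiA_dist {z : ℂ} (hz : ‖z‖ < 1) {c l : ℝ} (hl : 0 ≤ l) (N : ℕ) :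
    dist (Av (fun x => kk x z) N c l) (Av (fun x => kk x z) (N + 1) c l) ≤
      2 / (1 - ‖z‖) ^ 2 * l * rh ^ N := by
  rw [dist_comm, dist_eq_norm]
  refine (av_cauchy (F := fun x => kk x z) (fun x y => kk_lip hz x y) hl N).trans (le_of_eq ?_)
  ring

private theorem phiA_rh : rh < 1 := by
  unfold rh
  norm_num

/-- PROOF. `av_cauchy` and `kk_lip`: a Cauchy sequence (`cauchySeq_of_le_geometric`, ratio `rh`);
the limit is `limUnder`. -/
theorem phi_tendsto {z : ℂ} (hz : ‖z‖ < 1) {c l : ℝ} (hl : 0 ≤ l) :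
    Tendsto (fun N : ℕ => Av (fun x => kk x z) N c l) atTop (𝓝 (Phi c l z)) := by
  have h : CauchySeq (fun N : ℕ => Av (fun x => kk x z) N c l) :=
    cauchySeq_of_le_geometric rh _ phiA_rh (phiA_dist hz hl)
  exact h.tendsto_limUnder

/-- PROOF. `dist_le_of_le_geometric_of_tendsto` and `1 / (1 - rh) ≤ 2`. -/
theorem phi_approx {z : ℂ} (hz : ‖z‖ < 1) {c l : ℝ} (hl : 0 ≤ l) (N : ℕ) :
    ‖Phi c l z - Av (fun x => kk x z) N c l‖ ≤ 4 / (1 - ‖z‖) ^ 2 * (rh ^ N * l) := by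
  have h1 := dist_le_of_le_geometric_of_tendsto rh _ phiA_rh (phiA_dist (c := c) hz hl)
    (phi_tendsto (c := c) hz hl) N
  rw [dist_comm, dist_eq_norm] at h1
  refine h1.trans ?_
  have h0 : 0 < 1 - ‖z‖ := by linarith
  have hr0 : 0 ≤ rh := by unfold rh; norm_num
  have hr : 1 / (1 - rh) ≤ 2 := by
    unfold rh
    norm_num
  have h2 : 0 ≤ 2 / (1 - ‖z‖) ^ 2 * l * rh ^ N := by positivity
  calc 2 / (1 - ‖z‖) ^ 2 * l * rh ^ N / (1 - rh)
      = 2 / (1 - ‖z‖) ^ 2 * l * rh ^ N * (1 / (1 - rh)) := by rw [mul_one_div]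
    _ ≤ 2 / (1 - ‖z‖) ^ 2 * l * rh ^ N * 2 := mul_le_mul_of_nonneg_left hr h2
    _ = 4 / (1 - ‖z‖) ^ 2 * (rh ^ N * l) := by ring

end Pool.Agent.MP4b24a5.T3
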