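import Pool.Agent.Lib.MP_4b24a5_an_T3.PhiA

set_option autoImplicit false

/-!
# MP_4b24a5_an, project T3: properties of the Herglotz transform of the Cantor measure
-/

noncomputable section

namespace Pool.Agent.MP4b24a5.T3

open Complex Metric Set MeasureTheory Filter Topology

private theorem phiB_rh0 : 0 < rh := by
  unfold rh
  norm_num

private theorem phiB_rh1 : rh < 1 := by
  unfold rh
  norm_num

private theorem phiB_dist {z : ℂ} (hz : ‖z‖ < 1) (x : ℝ) : 0 < ‖pt x - z‖ := by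
  have h := norm_sub_norm_le (pt x) z
  rw [norm_pt] at h
  linarith

private theorem phiB_ne {z : ℂ} (hz : ‖z‖ < 1) (x : ℝ) : pt x - z ≠ 0 :=
  norm_pos_iff.mp (phiB_dist hz x)

private theorem phiB_kkd (x : ℝ) : DifferentiableOn ℂ (fun z => kk x z) (ball 0 1) := by
  unfold kk
  refine DifferentiableOn.div ?_ ?_ ?_
  · exact (differentiable_const _).add differentiable_id |>.differentiableOn
  · exact (differentiable_const _).sub differentiable_id |>.differentiableOn
  · intro z hz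
    exact phiB_ne (mem_ball_zero_iff.mp hz) x

private theorem phiB_avd (N : ℕ) : ∀ c l : ℝ,
    DifferentiableOn ℂ (fun z => Av (fun x => kk x z) N c l) (ball 0 1) := by
  induction N with
  | zero =>
    intro c l
    exact phiB_kkd c
  | succ N ih =>
    intro c l
    exact ((ih (c - hd l) (rh * l)).add (ih (c + hd l) (rh * l))).const_smul (1 / 2 : ℝ)

/-- PROOF. The averages are analytic (finite sums, induction) and converge uniformly on every
`closedBall 0 r`, `r < 1` (`phi_approx`): `TendstoLocallyUniformlyOn.differentiableOn`, then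
`DifferentiableOn.analyticOnNhd`. -/
theorem phi_analytic {c l : ℝ} (hl : 0 ≤ l) : AnalyticOnNhd ℂ (Phi c l) (ball 0 1) := by
  have hT : TendstoLocallyUniformlyOn (fun (N : ℕ) (z : ℂ) => Av (fun x => kk x z) N c l)
      (Phi c l) atTop (ball 0 1) := by
    rw [Metric.tendstoLocallyUniformlyOn_iff]
    intro ε hε z hz
    have hz1 : ‖z‖ < 1 := mem_ball_zero_iff.mp hz
    obtain ⟨r, hr1, hr2⟩ := exists_between hz1
    refine ⟨ball 0 r, ?_, ?_⟩
    · exact mem_nhdsWithin_of_mem_nhds (isOpen_ball.mem_nhds (mem_ball_zero_iff.mpr hr1))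
    have h1 : Tendsto (fun N : ℕ => 4 / (1 - r) ^ 2 * (rh ^ N * l)) atTop (𝓝 0) := by
      have h2 := tendsto_pow_atTop_nhds_zero_of_lt_one phiB_rh0.le phiB_rh1
      have h3 := (h2.mul_const l).const_mul (4 / (1 - r) ^ 2)
      simpa using h3
    filter_upwards [h1.eventually (gt_mem_nhds hε)] with N hN y hy
    have hy1 : ‖y‖ < r := mem_ball_zero_iff.mp hy
    rw [dist_eq_norm]
    refine (phi_approx (hy1.trans hr2) hl N).trans_lt (lt_of_le_of_lt ?_ hN)
    have h4 : 0 ≤ rh ^ N * l := mul_nonneg (pow_nonneg phiB_rh0.le N) hl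
    refine mul_le_mul_of_nonneg_right ?_ h4
    have h5 : 0 < 1 - r := by linarith
    have h6 : (1 - r) ^ 2 ≤ (1 - ‖y‖) ^ 2 := pow_le_pow_left₀ h5.le (by linarith) 2
    exact div_le_div_of_nonneg_left (by norm_num) (by positivity) h6
  have hD : DifferentiableOn ℂ (Phi c l) (ball 0 1) :=
    hT.differentiableOn (Eventually.of_forall fun N => phiB_avd N c l) isOpen_ball
  exact hD.analyticOnNhd isOpen_ball

/-- PROOF. Uniqueness of the limit of `Av (N + 1) c l` (the definition of `Av`). -/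
theorem phi_split {z : ℂ} (hz : ‖z‖ < 1) {c l : ℝ} (hl : 0 ≤ l) :
    Phi c l z = (1 / 2 : ℝ) • (Phi (c - hd l) (rh * l) z + Phi (c + hd l) (rh * l) z) := by
  have hl' : 0 ≤ rh * l := mul_nonneg phiB_rh0.le hl
  have h1 := (phi_tendsto (c := c) hz hl).comp (tendsto_add_atTop_nat 1)
  have h2 := ((phi_tendsto (c := c - hd l) hz hl').add
    (phi_tendsto (c := c + hd l) hz hl')).const_smul (1 / 2 : ℝ)
  exact tendsto_nhds_unique h1 h2

/-- PROOF. `av_mem` and `IsClosed.mem_of_tendsto`. -/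
theorem phi_mem {C : Set ℂ} (hC : Convex ℝ C) (hCc : IsClosed C) {z : ℂ} (hz : ‖z‖ < 1)
    {c l : ℝ} (hl : 0 ≤ l) (h : ∀ x ∈ Icc (c - l / 2) (c + l / 2), kk x z ∈ C) :
    Phi c l z ∈ C :=
  hCc.mem_of_tendsto (phi_tendsto hz hl) (Eventually.of_forall fun N => av_mem hC hl h N)

/-- the real part of the Herglotz kernel is the Poisson kernel -/
theorem kk_re {z : ℂ} (hz : ‖z‖ < 1) (x : ℝ) :
    (kk x z).re = (1 - ‖z‖ ^ 2) / ‖pt x - z‖ ^ 2 := by
  have h1 : normSq (pt x) = 1 := by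
    rw [Complex.normSq_eq_norm_sq, norm_pt]
    norm_num
  unfold kk
  rw [Complex.div_re, ← Complex.normSq_eq_norm_sq, ← Complex.normSq_eq_norm_sq]
  rw [← add_div]
  congr 1
  rw [Complex.normSq_apply] at h1
  rw [Complex.normSq_apply]
  simp only [Complex.add_re, Complex.sub_re, Complex.add_im, Complex.sub_im]
  nlinarith

theorem norm_kk_le {z : ℂ} (hz : ‖z‖ < 1) (x : ℝ) : ‖kk x z‖ ≤ 2 / ‖pt x - z‖ := by
  unfold kk
  rw [norm_div]
  refine div_le_div_of_nonneg_right ?_ (norm_nonneg _)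
  refine (norm_add_le _ _).trans ?_
  rw [norm_pt]
  linarith

private theorem phiB_l0 : 0 ≤ l0 := by
  unfold l0
  norm_num

theorem hh_analytic : AnalyticOnNhd ℂ HH (ball 0 1) :=
  phi_analytic (c := 0) phiB_l0

/-- PROOF. `phi_mem` with the half plane `0 ≤ re`. -/
theorem hh_re_nonneg {z : ℂ} (hz : ‖z‖ < 1) : 0 ≤ (HH z).re := by
  have h1 : Convex ℝ {w : ℂ | 0 ≤ w.re} := convex_halfSpace_re_ge 0
  have h2 : IsClosed {w : ℂ | 0 ≤ w.re} := isClosed_le continuous_const Complex.continuous_re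
  refine phi_mem (C := {w : ℂ | 0 ≤ w.re}) h1 h2 hz phiB_l0 ?_
  intro x _
  show 0 ≤ (kk x z).re
  rw [kk_re hz]
  have h3 := norm_nonneg z
  refine div_nonneg ?_ (sq_nonneg _)
  nlinarith

/-- PROOF. `phi_mem` with the half plane `re ≤ 4`: `‖pt x - z‖ ≥ re (pt x) - re z ≥ cos x ≥ 1 / 2`
for `|x| ≤ l0 / 2`, `norm_kk_le`. -/
theorem hh_left {z : ℂ} (hz : ‖z‖ < 1) (h : z.re ≤ 0) : (HH z).re ≤ 4 := by
  have h1 : Convex ℝ {w : ℂ | w.re ≤ 4} := convex_halfSpace_re_le 4
  have h2 : IsClosed {w : ℂ | w.re ≤ 4} := isClosed_le Complex.continuous_re continuous_const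
  refine phi_mem (C := {w : ℂ | w.re ≤ 4}) h1 h2 hz phiB_l0 ?_
  intro x hx
  show (kk x z).re ≤ 4
  have h3 : |x| ≤ 1 := by
    have h4 : l0 / 2 ≤ 1 := by unfold l0; norm_num
    rw [abs_le]
    constructor
    · linarith [hx.1]
    · linarith [hx.2]
  have h5 : (1 : ℝ) / 2 ≤ Real.cos x := by
    have h6 := Real.one_sub_sq_div_two_le_cos (x := x)
    have h7 : x ^ 2 ≤ 1 := by
      rw [← sq_abs]
      exact pow_le_one₀ (abs_nonneg x) h3
    linarith
  have h8 : (pt x).re = Real.cos x := Complex.exp_ofReal_mul_I_re x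
  have h9 : (1 : ℝ) / 2 ≤ ‖pt x - z‖ := by
    have h10 := Complex.re_le_norm (pt x - z)
    rw [Complex.sub_re, h8] at h10
    linarith
  calc (kk x z).re ≤ ‖kk x z‖ := Complex.re_le_norm _
    _ ≤ 2 / ‖pt x - z‖ := norm_kk_le hz x
    _ ≤ 2 / (1 / 2) := div_le_div_of_nonneg_left (by norm_num) (by norm_num) h9
    _ = 4 := by norm_num

end Pool.Agent.MP4b24a5.T3
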