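import Pool.Agent.Lib.MP_4b24a5_an_T3.Defs
import Pool.Agent.Lib.MP_ae5b4e_an_LL.Lim
import Pool.Agent.Lib.MP_ae5b4e_an_LL.Max

set_option autoImplicit false

/-!
# MP_4b24a5_an, project T3: subharmonicity of log plus
-/

noncomputable section

namespace Pool.Agent.MP4b24a5.T3

open Complex Metric Set MeasureTheory Filter Topology
open Pool.Agent.Lib.MP_1f4a82_an (pint dir dir_of_mem_ball dir_of_mem_sphere dir_harmonicOnNhd
  dir_continuousOn)

private theorem Pj_sub {φ : ℂ → ℂ} {U : Set ℂ} (hU : IsOpen U) (hφ : AnalyticOnNhd ℂ φ U) :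
    Pool.Agent.Lib.MP_ae5b4e_an_LL.SubH (fun z => Real.posLog ‖φ z‖) U := by
  apply Pool.Agent.Lib.MP_ae5b4e_an_LL.SubH.of_local
  intro p hp
  by_cases h1 : ‖φ p‖ < 1
  · have h2 : ∀ᶠ z in 𝓝 p, ‖φ z‖ < 1 :=
      (hφ p hp).continuousAt.norm.eventually_lt continuousAt_const h1
    obtain ⟨W, hW1, hW2, hW3⟩ := _root_.mem_nhds_iff.1 h2
    refine ⟨W, hW2.mem_nhds hW3, ?_⟩
    refine (Pool.Agent.Lib.MP_ae5b4e_an_LL.SubH.const 0 W).congr hW2 fun z hz => ?_
    have h3 : ‖φ z‖ < 1 := hW1 hz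
    symm
    rw [Real.posLog_eq_zero_iff, abs_of_nonneg (norm_nonneg _)]
    exact h3.le
  · have h0 : φ p ≠ 0 := by
      intro h0
      rw [h0, norm_zero] at h1
      exact h1 one_pos
    have h2 : ∀ᶠ z in 𝓝 p, φ z ≠ 0 ∧ z ∈ U :=
      ((hφ p hp).continuousAt.eventually_ne h0).and (hU.mem_nhds hp)
    obtain ⟨W, hW1, hW2, hW3⟩ := _root_.mem_nhds_iff.1 h2
    refine ⟨W, hW2.mem_nhds hW3, ?_⟩
    have h4 : InnerProductSpace.HarmonicOnNhd (fun z => Real.log ‖φ z‖) W := by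
      intro z hz
      obtain ⟨h5, h6⟩ := hW1 hz
      exact (hφ z h6).harmonicAt_log_norm h5
    have h5 := (Pool.Agent.Lib.MP_ae5b4e_an_LL.SubH.const 0 W).max
      (Pool.Agent.Lib.MP_ae5b4e_an_LL.SubH.of_harmonic hW2 h4)
    exact h5

/-- PROOF. `SupH.poisson` of `Pool.Agent.Lib.MP_ae5b4e_an_NBT.SupD` (import it) for the
superharmonic function `h z = - log⁺ ‖G z‖` on `W = ball 0 1` and for `φ = h` on the circle
(extended to a continuous function on the plane, for instance `φ z = h (R * z / max R ‖z‖)` or the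
Tietze extension). `SupH h W`: `h` is continuous on `W`; the mean value inequality is Jensen's
inequality `log⁺ ‖G c‖ ≤ circleAverage (log⁺ ‖G ·‖) c s` (for `G c ≠ 0` from
`AnalyticOnNhd.circleAverage_log_norm` or `MeromorphicOn.circleAverage_log_norm`, the sum over the
zeros is nonnegative; for `‖G c‖ ≤ 1` it is trivial). -/
theorem pj {G : ℂ → ℂ} (hG : AnalyticOnNhd ℂ G (ball 0 1)) {R : ℝ} (h0 : 0 < R) (h1 : R < 1)
    {w : ℂ} (hw : w ∈ ball (0 : ℂ) R) :
    Real.posLog ‖G w‖ ≤ Real.circleAverage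
      (fun ζ => (R ^ 2 - ‖w‖ ^ 2) / ‖ζ - w‖ ^ 2 * Real.posLog ‖G ζ‖) 0 R := by
  have hcl : closedBall (0 : ℂ) R ⊆ ball 0 1 := closedBall_subset_ball h1
  have hsub := Pj_sub isOpen_ball (hG.mono (ball_subset_closedBall.trans hcl))
  have hco : ContinuousOn (fun z => Real.posLog ‖G z‖) (closedBall 0 R) :=
    Real.continuous_posLog.comp_continuousOn ((hG.continuousOn.mono hcl).norm)
  have hcs : ContinuousOn (fun z => Real.posLog ‖G z‖) (sphere 0 R) :=
    hco.mono sphere_subset_closedBall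
  have h2 := hsub.le_dirichlet hco.upperSemicontinuousOn
    (u := dir (fun z => Real.posLog ‖G z‖) 0 R) (dir_continuousOn h0 hcs)
    (dir_harmonicOnNhd (hcs.circleIntegrable h0.le)) (fun z hz => by
      rw [dir_of_mem_sphere hz]) w (ball_subset_closedBall hw)
  rw [dir_of_mem_ball hw] at h2
  refine h2.trans (le_of_eq ?_)
  rw [pint]
  apply Real.circleAverage_congr_sphere
  intro z hz
  rw [abs_of_pos h0, mem_sphere, dist_eq_norm] at hz
  show poissonKernel 0 w z * Real.posLog ‖G z‖ = _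
  rw [poissonKernel_def, hz, sub_zero, sub_zero]

end Pool.Agent.MP4b24a5.T3
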