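import Pool.Agent.Lib.MP_4b24a5_an_T3.PhiA

set_option autoImplicit false

/-!
# MP_4b24a5_an, project T3: polynomials on an arc
-/

noncomputable section

namespace Pool.Agent.MP4b24a5.T3

open Complex Metric Set MeasureTheory Filter Topology

private theorem polyA_ms {κ : ℝ} (h0 : 0 ≤ κ) (z : ℂ) (s : Multiset ℂ)
    (h : ∀ a ∈ s, κ ≤ ‖z - a‖) : κ ^ s.card ≤ ‖(s.map fun a => z - a).prod‖ := by
  induction s using Multiset.induction_on with
  | empty => simp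
  | cons a s ih =>
    rw [Multiset.card_cons, Multiset.map_cons, Multiset.prod_cons, norm_mul, pow_succ']
    exact mul_le_mul (h a (Multiset.mem_cons_self a s))
      (ih fun b hb => h b (Multiset.mem_cons_of_mem hb)) (pow_nonneg h0 _) (norm_nonneg _)

private theorem polyA_root {d : ℕ} {P : Polynomial ℂ} (hP : P.Monic) (hd : P.natDegree = d)
    {κ : ℝ} (h0 : 0 ≤ κ) {z : ℂ} (h : ‖P.eval z‖ < κ ^ d) : ∃ a ∈ P.roots, ‖z - a‖ < κ := by
  by_contra hcon
  push Not at hcon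
  have h1 := polyA_ms h0 z P.roots hcon
  have hs := IsAlgClosed.splits P
  rw [← hs.eval_eq_prod_roots_of_monic hP z, ← hs.natDegree_eq_card_roots, hd] at h1
  exact absurd h (not_lt.2 h1)

private theorem polyA_pt {x : ℝ} (h0 : 0 ≤ x) (h1 : x ≤ 1) (y : ℝ) :
    x / 2 ≤ ‖pt (y + x) - pt y‖ := by
  have h2 : pt (y + x) - pt y = pt y * (exp (I * x) - 1) := by
    unfold pt
    rw [mul_sub, ← Complex.exp_add, mul_one]
    congr 2
    push_cast
    ring
  have h3 : ‖pt y‖ = 1 := by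
    unfold pt
    exact Complex.norm_exp_ofReal_mul_I y
  rw [h2, norm_mul, h3, one_mul, Complex.norm_exp_I_mul_ofReal_sub_one, Real.norm_eq_abs]
  refine le_trans ?_ (le_abs_self _)
  have h4 : x / 2 ≤ Real.pi / 2 := by linarith [Real.pi_gt_three]
  have h5 := Real.mul_le_sin (by linarith : 0 ≤ x / 2) h4
  have h6 : 1 / 2 * (x / 2) ≤ 2 / Real.pi * (x / 2) := by
    apply mul_le_mul_of_nonneg_right _ (by linarith)
    rw [div_le_div_iff₀ (by norm_num) Real.pi_pos]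
    linarith [Real.pi_le_four]
  linarith

private theorem polyA_sep {κ r : ℝ} (hr : 1 / 2 ≤ r) {a : ℂ} {θ θ' : ℝ} (h : θ ≤ θ')
    (h1 : θ' ≤ θ + 1) (ha : ‖r * pt θ - a‖ < κ) (ha' : ‖r * pt θ' - a‖ < κ) :
    θ' - θ < 8 * κ := by
  have h2 := polyA_pt (sub_nonneg.2 h) (by linarith) θ
  rw [add_sub_cancel] at h2
  have h3 : ‖(r : ℂ) * pt θ' - r * pt θ‖ < 2 * κ := by
    have h4 : (r : ℂ) * pt θ' - r * pt θ = (r * pt θ' - a) - (r * pt θ - a) := by ring
    rw [h4]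
    refine lt_of_le_of_lt (norm_sub_le _ _) ?_
    linarith
  rw [← mul_sub, norm_mul, Complex.norm_real, Real.norm_of_nonneg (by linarith)] at h3
  have h5 : 1 / 2 * ((θ' - θ) / 2) ≤ r * ‖pt θ' - pt θ‖ :=
    mul_le_mul hr h2 (by linarith) (by linarith)
  linarith

private theorem polyA_gap {s : Finset ℕ} (h : 2 < s.card) : ∃ i ∈ s, ∃ j ∈ s, i + 2 ≤ j := by
  have hne : s.Nonempty := Finset.card_pos.1 (by omega)
  refine ⟨s.min' hne, s.min'_mem hne, s.max' hne, s.max'_mem hne, ?_⟩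
  have h1 : s ⊆ Finset.Icc (s.min' hne) (s.max' hne) := fun x hx =>
    Finset.mem_Icc.2 ⟨s.min'_le x hx, s.le_max' x hx⟩
  have h2 := Finset.card_le_card h1
  rw [Nat.card_Icc] at h2
  omega

/-- PROOF. Let `L = l / (2 (2 d + 1))`, `κ = l / (16 (2 d + 1)) = L / 8`; the interval
`[c - l / 4, c + l / 4]` is the union of the `2 d + 1` intervals `J_k = [c - l / 4 + k L, .. + L]`.
`P` is the product of the `X - a` over its `d` roots (with multiplicity; `ℂ` is algebraically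
closed). For a root `a` the set of all `θ` in the interval with `‖r pt θ - a‖ < κ` has diameter
less than `8 κ = L`, since `‖r pt θ - r pt θ'‖ ≥ |θ - θ'| / 4` (`r ≥ 1 / 2`,
`‖pt θ - pt θ'‖ = 2 |sin ((θ - θ') / 2)| ≥ |θ - θ'| / 2`), so it meets at most two of the `J_k`.
As `2 d < 2 d + 1`, one `J_k` is free of all these sets, and there `‖P (r pt θ)‖ ≥ κ ^ d`. -/
theorem polyA (d : ℕ) (P : Polynomial ℂ) (hP : P.Monic) (hd : P.natDegree = d) {c l r : ℝ}
    (hl : 0 < l) (hl1 : l ≤ 1) (hr : 1 / 2 ≤ r) :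
    ∃ α : ℝ, c - l / 4 ≤ α ∧ α + l / (2 * (2 * d + 1)) ≤ c + l / 4 ∧
      ∀ θ ∈ Icc α (α + l / (2 * (2 * d + 1))),
        (l / (16 * (2 * d + 1))) ^ d ≤ ‖P.eval (r * pt θ)‖ := by
  classical
  by_contra hcon
  push Not at hcon
  have hd0 : (0 : ℝ) < 2 * d + 1 := by positivity
  obtain ⟨L, hL⟩ : ∃ L, L = l / (2 * (2 * (d : ℝ) + 1)) := ⟨_, rfl⟩
  obtain ⟨κ, hκ⟩ : ∃ κ, κ = l / (16 * (2 * (d : ℝ) + 1)) := ⟨_, rfl⟩
  rw [← hL, ← hκ] at hcon
  have hL0 : 0 < L := by rw [hL]; positivity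
  have hκ0 : 0 < κ := by rw [hκ]; positivity
  have hLκ : L = 8 * κ := by rw [hL, hκ]; field_simp; norm_num
  have hLt : (2 * (d : ℝ) + 1) * L = l / 2 := by rw [hL]; field_simp
  have key : ∀ i : ℕ, i ∈ Finset.range (2 * d + 1) → ∃ a ∈ P.roots, ∃ θ : ℝ,
      c - l / 4 + i * L ≤ θ ∧ θ ≤ c - l / 4 + i * L + L ∧ ‖r * pt θ - a‖ < κ := by
    intro i hi
    rw [Finset.mem_range] at hi
    have hi1 : (i : ℝ) + 1 ≤ 2 * d + 1 := by exact_mod_cast hi
    have h1 : (i : ℝ) * L + L ≤ l / 2 := by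
      have := mul_le_mul_of_nonneg_right hi1 hL0.le
      rw [hLt] at this
      linarith
    have h2 : 0 ≤ (i : ℝ) * L := by positivity
    obtain ⟨θ, hθ, h3⟩ := hcon (c - l / 4 + i * L) (by linarith) (by linarith)
    obtain ⟨a, ha, h4⟩ := polyA_root hP hd hκ0.le h3
    exact ⟨a, ha, θ, hθ.1, hθ.2, h4⟩
  have key' : ∀ i : ℕ, ∃ a : ℂ, i ∈ Finset.range (2 * d + 1) → a ∈ P.roots ∧ ∃ θ : ℝ,
      c - l / 4 + i * L ≤ θ ∧ θ ≤ c - l / 4 + i * L + L ∧ ‖r * pt θ - a‖ < κ := by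
    intro i
    by_cases hi : i ∈ Finset.range (2 * d + 1)
    · obtain ⟨a, ha⟩ := key i hi
      exact ⟨a, fun _ => ha⟩
    · exact ⟨0, fun h => absurd h hi⟩
  choose f hf using key'
  have hcard : P.roots.toFinset.card * 2 < (Finset.range (2 * d + 1)).card := by
    have h1 := P.roots.toFinset_card_le
    have h2 := P.card_roots'
    rw [Finset.card_range]
    omega
  obtain ⟨a, _, ha⟩ := Finset.exists_lt_card_fiber_of_mul_lt_card_of_maps_to (f := f)
    (fun i hi => Multiset.mem_toFinset.2 (hf i hi).1) hcard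
  obtain ⟨i, hi, j, hj, hij⟩ := polyA_gap ha
  rw [Finset.mem_filter] at hi hj
  obtain ⟨θ, h1, h2, h3⟩ := (hf i hi.1).2
  obtain ⟨θ', h4, h5, h6⟩ := (hf j hj.1).2
  rw [hi.2] at h3
  rw [hj.2] at h6
  have hij' : (i : ℝ) + 2 ≤ j := by exact_mod_cast hij
  have h7 : (i : ℝ) * L + 2 * L ≤ j * L := by
    have := mul_le_mul_of_nonneg_right hij' hL0.le
    linarith
  have hj2 : (j : ℝ) + 1 ≤ 2 * d + 1 := by
    have := Finset.mem_range.1 hj.1
    exact_mod_cast this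
  have h8 : (j : ℝ) * L + L ≤ l / 2 := by
    have := mul_le_mul_of_nonneg_right hj2 hL0.le
    rw [hLt] at this
    linarith
  have h9 : 0 ≤ (i : ℝ) * L := by positivity
  have h10 := polyA_sep hr (a := a) (θ := θ) (θ' := θ') (by linarith) (by linarith) h3 h6
  linarith

end Pool.Agent.MP4b24a5.T3
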