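import Pool.Agent.Lib.MP_4b24a5_an_T3.G0A

set_option autoImplicit false

/-!
# MP_4b24a5_an, project T3: segments towards the saddle point
-/

noncomputable section

namespace Pool.Agent.MP4b24a5.T3

open Complex Metric Set MeasureTheory Filter Topology

/-- `G` is close to the model near the saddle point -/
structure Near (G : ℂ → ℂ) : Prop where
  diff : DifferentiableOn ℂ G (ball I (1 / 4))
  near : ∀ w ∈ ball I (1 / 4), ‖G w - G0 w‖ ≤ 1 / 10 ^ 6

private theorem sa_ne {w : ℂ} (hw : w ∈ ball I (1 / 4)) : w ≠ 1 ∧ w ≠ -1 := by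
  have h1 : ‖w - I‖ < 1 / 4 := by rw [← dist_eq_norm]; exact hw
  have h2 := (abs_im_le_norm (w - I)).trans_lt h1
  rw [abs_lt] at h2
  constructor
  · rintro rfl
    norm_num at h2
  · rintro rfl
    norm_num at h2

/-- PROOF. The Cauchy estimate for `G - G0` on discs of radius `1 / 5`, and `g0_deriv`. -/
theorem near_deriv {G : ℂ → ℂ} (h : Near G) {w : ℂ} (hw : ‖w - I‖ ≤ 1 / 50) :
    ‖deriv G w - (w - I)‖ ≤ 4 * ‖w - I‖ ^ 2 + 1 / 10 ^ 5 := by
  have hsub : closedBall w (1 / 5) ⊆ ball I (1 / 4) := by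
    intro z hz
    rw [mem_closedBall, dist_eq_norm] at hz
    rw [mem_ball, dist_eq_norm]
    calc ‖z - I‖ = ‖(z - w) + (w - I)‖ := by ring_nf
      _ ≤ ‖z - w‖ + ‖w - I‖ := norm_add_le _ _
      _ < 1 / 4 := by linarith
  have hwb : w ∈ ball I (1 / 4) := hsub (mem_closedBall_self (by norm_num))
  have hG0 : ∀ z ∈ ball I (1 / 4), DifferentiableAt ℂ G0 z := fun z hz =>
    g0_diff (sa_ne hz).1 (sa_ne hz).2
  have hd : DifferentiableOn ℂ (fun z => G z - G0 z) (ball I (1 / 4)) := fun z hz =>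
    (h.diff z hz).sub (hG0 z hz).differentiableWithinAt
  have h1 : DiffContOnCl ℂ (fun z => G z - G0 z) (ball w (1 / 5)) := by
    refine DifferentiableOn.diffContOnCl ?_
    rw [closure_ball w (by norm_num)]
    exact hd.mono hsub
  have h2 := norm_deriv_le_of_forall_mem_sphere_norm_le (R := 1 / 5) (C := 1 / 10 ^ 6)
    (by norm_num) h1 (fun z hz => h.near z (hsub (sphere_subset_closedBall hz)))
  have hGw : DifferentiableAt ℂ G w := (h.diff w hwb).differentiableAt (isOpen_ball.mem_nhds hwb)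
  have h3 : deriv (fun z => G z - G0 z) w = deriv G w - deriv G0 w :=
    deriv_fun_sub hGw (hG0 w hwb)
  rw [h3] at h2
  have h4 := g0_deriv hw
  calc ‖deriv G w - (w - I)‖ = ‖(deriv G w - deriv G0 w) + (deriv G0 w - (w - I))‖ := by ring_nf
    _ ≤ ‖deriv G w - deriv G0 w‖ + ‖deriv G0 w - (w - I)‖ := norm_add_le _ _
    _ ≤ 1 / 10 ^ 6 / (1 / 5) + 4 * ‖w - I‖ ^ 2 := add_le_add h2 h4
    _ ≤ 4 * ‖w - I‖ ^ 2 + 1 / 10 ^ 5 := by
      have : (1 : ℝ) / 10 ^ 6 / (1 / 5) ≤ 1 / 10 ^ 5 := by norm_num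
      linarith

private theorem sa_real {x y s t : ℝ} (hs : s ^ 2 = 1 / 2500) (hxy : x ^ 2 + y ^ 2 = 1 / 10000)
    (hsy : 0 ≤ s * y) (ht0 : 0 ≤ t) (ht1 : t ≤ 1) :
    1 / 10000 ≤ t * x * x - (s + t * (y - s)) * (y - s) := by
  have hy2 : y ^ 2 ≤ 1 / 10000 := by nlinarith [sq_nonneg x]
  have e1 : (s * y) ^ 2 = 1 / 2500 * y ^ 2 := by rw [mul_pow, hs]
  have h1 : s * y ≤ 1 / 5000 := by
    rw [← pow_le_pow_iff_left₀ hsy (by norm_num) (two_ne_zero), e1]
    norm_num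
    linarith
  have h2 : 2 * y ^ 2 ≤ s * y := by
    rw [← pow_le_pow_iff_left₀ (by positivity) hsy (two_ne_zero), e1]
    nlinarith [sq_nonneg y, mul_nonneg (sq_nonneg y) (sub_nonneg.2 hy2)]
  have h3 : 1 / 10000 ≤ s ^ 2 - s * y := by rw [hs]; linarith
  have h4 : 1 / 10000 ≤ x ^ 2 - y ^ 2 + s * y := by linarith
  have e2 : t * x * x - (s + t * (y - s)) * (y - s) =
      (1 - t) * (s ^ 2 - s * y) + t * (x ^ 2 - y ^ 2 + s * y) := by ring
  rw [e2]
  have h5 := mul_le_mul_of_nonneg_left h3 (sub_nonneg.2 ht1)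
  have h6 := mul_le_mul_of_nonneg_left h4 ht0
  linarith

private theorem sa_seg {G : ℂ → ℂ} (h : Near G) {s : ℝ} (hs : s ^ 2 = 1 / 2500)
    (hs' : |s| = 1 / 50) {w w0 : ℂ} (hw : ‖w - I‖ = 1 / 100) (hy : 0 ≤ s * (w.im - 1))
    (hw0 : w0 = I + (s : ℂ) * I) :
    ∀ a ∈ Icc (0 : ℝ) 1, ∀ b ∈ Icc (0 : ℝ) 1, a ≤ b →
      1 / 40000 * (b - a) ≤ (G (w0 + b * (w - w0))).re - (G (w0 + a * (w - w0))).re := by
  have hw0n : ‖w0 - I‖ = 1 / 50 := by
    rw [hw0, add_sub_cancel_left, norm_mul, norm_I, mul_one, norm_real, Real.norm_eq_abs, hs']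
  have hz : ∀ t ∈ Icc (0 : ℝ) 1, ‖w0 + t * (w - w0) - I‖ ≤ 1 / 50 := by
    intro t ht
    have e : w0 + t * (w - w0) - I = ((1 - t : ℝ) : ℂ) * (w0 - I) + (t : ℂ) * (w - I) := by
      push_cast
      ring
    rw [e]
    refine (norm_add_le _ _).trans ?_
    rw [norm_mul, norm_mul, hw, hw0n, norm_real, norm_real, Real.norm_eq_abs, Real.norm_eq_abs,
      abs_of_nonneg (sub_nonneg.2 ht.2), abs_of_nonneg ht.1]
    linarith [ht.1]
  have hu : ‖w - w0‖ ≤ 3 / 100 := by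
    calc ‖w - w0‖ = ‖(w - I) - (w0 - I)‖ := by ring_nf
      _ ≤ ‖w - I‖ + ‖w0 - I‖ := norm_sub_le _ _
      _ ≤ 3 / 100 := by rw [hw, hw0n]; norm_num
  have hball : ∀ t ∈ Icc (0 : ℝ) 1, w0 + t * (w - w0) ∈ ball I (1 / 4) := by
    intro t ht
    rw [mem_ball, dist_eq_norm]
    exact (hz t ht).trans_lt (by norm_num)
  have hd : ∀ t ∈ Icc (0 : ℝ) 1, HasDerivAt (fun t : ℝ => (G (w0 + t * (w - w0))).re)
      (deriv G (w0 + t * (w - w0)) * (w - w0)).re t := by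
    intro t ht
    have h1 : HasDerivAt G (deriv G (w0 + t * (w - w0))) (w0 + (t : ℂ) * (w - w0)) :=
      ((h.diff _ (hball t ht)).differentiableAt (isOpen_ball.mem_nhds (hball t ht))).hasDerivAt
    have h2 : HasDerivAt (fun z : ℂ => w0 + z * (w - w0)) (w - w0) (t : ℂ) := by
      simpa using ((hasDerivAt_id (t : ℂ)).mul_const (w - w0)).const_add w0
    exact (h1.comp (t : ℂ) h2).real_of_complex
  have hlow : ∀ t ∈ Icc (0 : ℝ) 1, 1 / 40000 ≤ (deriv G (w0 + t * (w - w0)) * (w - w0)).re := by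
    intro t ht
    obtain ⟨z, hzd⟩ : ∃ z : ℂ, z = w0 + t * (w - w0) := ⟨_, rfl⟩
    have hzt := hz t ht
    rw [← hzd] at hzt ⊢
    have h1 := near_deriv h hzt
    have h2 : 4 * ‖z - I‖ ^ 2 + 1 / 10 ^ 5 ≤ 161 / 100000 := by
      have h3 : ‖z - I‖ ^ 2 ≤ (1 / 50) ^ 2 := pow_le_pow_left₀ (norm_nonneg _) hzt 2
      norm_num at h3 ⊢
      linarith
    have h3 : |((deriv G z - (z - I)) * (w - w0)).re| ≤ 161 / 100000 * (3 / 100) := by
      refine (abs_re_le_norm _).trans ?_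
      rw [norm_mul]
      exact mul_le_mul (h1.trans h2) hu (norm_nonneg _) (by norm_num)
    have h4 : deriv G z * (w - w0) = (deriv G z - (z - I)) * (w - w0) + (z - I) * (w - w0) := by
      ring
    have hxy : w.re ^ 2 + (w.im - 1) ^ 2 = 1 / 10000 := by
      have h5 : ‖w - I‖ ^ 2 = w.re ^ 2 + (w.im - 1) ^ 2 := by
        rw [← normSq_eq_norm_sq, normSq_apply]
        simp
        ring
      rw [← h5, hw]
      norm_num
    have h6 := sa_real hs hxy hy ht.1 ht.2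
    have h7 : ((z - I) * (w - w0)).re =
        t * w.re * w.re - (s + t * (w.im - 1 - s)) * (w.im - 1 - s) := by
      rw [hzd, hw0]
      simp only [mul_re, sub_re, add_re, sub_im, add_im, mul_im, I_re, I_im, ofReal_re, ofReal_im]
      ring
    rw [h4, add_re, h7]
    rw [abs_le] at h3
    norm_num at h3 h6 ⊢
    linarith [h3.1]
  intro a ha b hb hab
  refine Convex.mul_sub_le_image_sub_of_le_deriv (convex_Icc (0 : ℝ) 1)
    (f := fun t : ℝ => (G (w0 + t * (w - w0))).re)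
    (fun t ht => (hd t ht).continuousAt.continuousWithinAt)
    (fun t ht => (hd t (interior_subset ht)).differentiableAt.differentiableWithinAt)
    (fun t ht => ?_) a ha b hb hab
  rw [(hd t (interior_subset ht)).deriv]
  exact hlow t (interior_subset ht)

/-- PROOF. Put `δ = 1 / 100`, `w = i + δ e^{iφ}`, `s = sin φ ≤ 0`, `wg = i - 2 δ i`. The points of
the segment are `i + p`, `p = t δ cos φ + i δ (-2 + t (s + 2))`, `‖p‖ ≤ 2 δ`, and the direction is
`u = w - wg = δ (cos φ + i (s + 2))`, `‖u‖ ≤ 3 δ`. The derivative of `t ↦ re (G (i + p))` is `re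
(G' (i + p) u) ≥ re (p u) - (16 δ ^ 2 + 1 / 10 ^ 5) 3 δ`, and `re (p u) = δ ^ 2 (t cos φ ^ 2 + 2 (s
+ 2) - t (s + 2) ^ 2) ≥ δ ^ 2` (linear in `t`; at `t = 0` it is `2 (s + 2) ≥ 2`, at `t = 1` it is
`1 - 2 s - 2 s ^ 2 ≥ 1`). So the derivative is at least `δ ^ 2 / 4 = 1 / 40000`. -/
theorem seg_g {G : ℂ → ℂ} (h : Near G) {w : ℂ} (hw : ‖w - I‖ = 1 / 100) (hi : w.im ≤ 1) :
    (∀ t ∈ Icc (0 : ℝ) 1, (G (wg + t * (w - wg))).re ≤ (G w).re) ∧
      (G wg).re + 1 / 40000 ≤ (G w).re := by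
  have h1 := sa_seg h (s := -1 / 50) (by norm_num) (by norm_num) (w0 := wg) hw
    (by nlinarith) (by
      unfold wg
      push_cast
      ring)
  have e1 : wg + ((1 : ℝ) : ℂ) * (w - wg) = w := by push_cast; ring
  have e0 : wg + ((0 : ℝ) : ℂ) * (w - wg) = wg := by push_cast; ring
  constructor
  · intro t ht
    have h2 := h1 t ht 1 (right_mem_Icc.2 zero_le_one) ht.2
    rw [e1] at h2
    linarith [ht.2]
  · have h2 := h1 0 (left_mem_Icc.2 zero_le_one) 1 (right_mem_Icc.2 zero_le_one) zero_le_one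
    rw [e1, e0] at h2
    linarith

/-- PROOF. As `seg_g`, with `s = sin φ ≥ 0` and `wt = i + 2 δ i` (the mirror image). -/
theorem seg_t {G : ℂ → ℂ} (h : Near G) {w : ℂ} (hw : ‖w - I‖ = 1 / 100) (hi : 1 ≤ w.im) :
    (∀ t ∈ Icc (0 : ℝ) 1, (G (wt + t * (w - wt))).re ≤ (G w).re) ∧
      (G wt).re + 1 / 40000 ≤ (G w).re := by
  have h1 := sa_seg h (s := 1 / 50) (by norm_num) (by norm_num) (w0 := wt) hw
    (by nlinarith) (by
      unfold wt
      push_cast
      ring)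
  have e1 : wt + ((1 : ℝ) : ℂ) * (w - wt) = w := by push_cast; ring
  have e0 : wt + ((0 : ℝ) : ℂ) * (w - wt) = wt := by push_cast; ring
  constructor
  · intro t ht
    have h2 := h1 t ht 1 (right_mem_Icc.2 zero_le_one) ht.2
    rw [e1] at h2
    linarith [ht.2]
  · have h2 := h1 0 (left_mem_Icc.2 zero_le_one) 1 (right_mem_Icc.2 zero_le_one) zero_le_one
    rw [e1, e0] at h2
    linarith

end Pool.Agent.MP4b24a5.T3
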