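import Pool.Agent.Lib.MP_4b24a5_an_T3.GapD
import Pool.Agent.Lib.MP_4b24a5_an_T3.NodeA

set_option autoImplicit false

/-!
# MP_4b24a5_an, project T3: sum over the gaps
-/

noncomputable section

namespace Pool.Agent.MP4b24a5.T3

open Complex Metric Set MeasureTheory Filter Topology

private theorem sumT_rh_pos : (0 : ℝ) < rh := by
  unfold rh
  norm_num

private theorem sumT_len_pos (m : ℕ) : 0 < len m := by
  unfold len l0
  exact mul_pos (by norm_num) (pow_pos sumT_rh_pos m)

private theorem sumT_len_succ (m : ℕ) : len (m + 1) = rh * len m := by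
  unfold len
  rw [pow_succ]
  ring

private theorem sumT_lm (m : ℕ) : lm m = (1 - rh) / 2 * len m := rfl

private theorem sumT_lm_pos (m : ℕ) : 0 < lm m := by
  rw [sumT_lm]
  refine mul_pos ?_ (sumT_len_pos m)
  unfold rh
  norm_num

private theorem sumT_lm_succ_le (m : ℕ) : lm (m + 1) ≤ lm m := by
  rw [sumT_lm, sumT_lm, sumT_len_succ]
  have h1 := sumT_len_pos m
  have h2 : rh * len m ≤ len m := by
    unfold rh
    linarith
  refine mul_le_mul_of_nonneg_left h2 ?_
  unfold rh
  norm_num

private theorem sumT_lm_anti : Antitone lm := antitone_nat_of_succ_le sumT_lm_succ_le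

private theorem sumT_lm_lt_one (m : ℕ) : lm m < 1 := by
  refine (sumT_lm_anti (Nat.zero_le m)).trans_lt ?_
  rw [sumT_lm]
  unfold len l0 rh
  norm_num

private theorem sumT_lm_hm (m : ℕ) : lm m * hm m = (1 / 2) ^ m := by
  unfold hm
  rw [mul_div_cancel₀ _ (sumT_lm_pos m).ne']

private theorem sumT_norm_pt (x : ℝ) : ‖pt x‖ = 1 := by
  unfold pt
  exact Complex.norm_exp_ofReal_mul_I x

private theorem sumT_cont {f : ℂ → ℂ} (hf : AnalyticOnNhd ℂ f (ball 0 1)) {r : ℝ} (hr0 : 0 < r)
    (hr1 : r < 1) : Continuous fun θ : ℝ => Real.posLog ‖f (r * pt θ)‖ := by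
  have h1 : ContinuousOn f (ball 0 1) := hf.continuousOn
  have h2 : Continuous fun θ : ℝ => (r : ℂ) * pt θ := by
    unfold pt
    fun_prop
  have h3 : Continuous fun θ : ℝ => f (r * pt θ) := by
    refine h1.comp_continuous h2 fun θ => ?_
    rw [mem_ball_zero_iff, norm_mul, sumT_norm_pt, mul_one, Complex.norm_real, Real.norm_eq_abs,
      abs_of_pos hr0]
    exact hr1
  exact Real.continuous_posLog.comp h3.norm

/-- PROOF. For every node `(m, c, R)` with `m ≤ N + 1` (downward induction on `m`): `κ * s / 4 *
(1/2) ^ m * (N + 1 - max m m₀) ≤ ∫ θ in c - len m / 2..c + len m / 2, log⁺ ‖f (r pt θ)‖` (the left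
side is `≤ 0` if `m = N + 1` or `m₀ ≥ N + 1`; the integrand is continuous and nonnegative). Step:
the interval contains the two subintervals (centres `c ± lm m`, length `len (m + 1)`, `node_left`,
`node_right`), and between them `[c - lm m / 4, c + lm m / 4]`; for `m ≥ m₀` the latter contains an
arc of length `κ * lm m` with `log⁺ ≥ s * hm m / 4`, contribution `κ * s * (1/2) ^ m / 4` (`lm m *
hm m = (1/2) ^ m`). Apply it to `node_zero`. -/
theorem tree {κ s : ℝ} (hκ : 0 < κ) (hs : 0 < s) {m₀ : ℕ} {f : ℂ → ℂ}
    (hf : AnalyticOnNhd ℂ f (ball 0 1)) (hB : Big κ s m₀ f) {N : ℕ} {r : ℝ}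
    (hr : 1 - lm N / 8 ≤ r) (hr1 : r < 1) :
    κ * s / 4 * ((N : ℝ) + 1 - m₀) ≤
      ∫ θ in (-(l0 / 2))..(l0 / 2), Real.posLog ‖f (r * pt θ)‖ := by
  have hr0 : 0 < r := by
    have := sumT_lm_lt_one N
    linarith
  obtain ⟨g, hg⟩ : ∃ g : ℝ → ℝ, g = fun θ : ℝ => Real.posLog ‖f (r * pt θ)‖ := ⟨_, rfl⟩
  have hgc : Continuous g := by
    rw [hg]
    exact sumT_cont hf hr0 hr1
  have hg0 : ∀ θ, 0 ≤ g θ := by
    intro θ
    rw [hg]
    exact Real.posLog_nonneg
  have hgi : ∀ a b : ℝ, IntervalIntegrable g volume a b := fun a b => hgc.intervalIntegrable a b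
  have hnn : ∀ a b : ℝ, a ≤ b → 0 ≤ ∫ θ in a..b, g θ := fun a b hab =>
    intervalIntegral.integral_nonneg hab fun θ _ => hg0 θ
  have key : ∀ k m : ℕ, m + k = N + 1 → ∀ (c : ℝ) (R : ℂ → ℂ), Node m c R →
      κ * s / 4 * (1 / 2) ^ m * ((N : ℝ) + 1 - max (m : ℝ) m₀) ≤
        ∫ θ in (c - len m / 2)..(c + len m / 2), g θ := by
    intro k
    induction k with
    | zero =>
      intro m hmk c R _
      have h1 := hnn (c - len m / 2) (c + len m / 2) (by
        have := sumT_len_pos m
        linarith)
      refine le_trans ?_ h1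
      have h2 : (N : ℝ) + 1 - max (m : ℝ) m₀ ≤ 0 := by
        have h3 : (N : ℝ) + 1 = m := by
          rw [add_zero] at hmk
          rw [hmk]
          push_cast
          ring
        rw [h3]
        linarith [le_max_left (m : ℝ) m₀]
      refine mul_nonpos_of_nonneg_of_nonpos ?_ h2
      positivity
    | succ k ih =>
      intro m hmk c R hR
      have hlen := sumT_len_pos m
      have hlm := sumT_lm_pos m
      have hls := sumT_len_succ m
      have hlmd := sumT_lm m
      have hmN : m ≤ N := by omega
      obtain ⟨R₁, hR₁⟩ := node_left hR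
      obtain ⟨R₂, hR₂⟩ := node_right hR
      have i1 := ih (m + 1) (by omega) _ _ hR₁
      have i2 := ih (m + 1) (by omega) _ _ hR₂
      have e1 : c - lm m - len (m + 1) / 2 = c - len m / 2 := by
        rw [hls, hlmd]
        ring
      have e2 : c + lm m + len (m + 1) / 2 = c + len m / 2 := by
        rw [hls, hlmd]
        ring
      rw [e1] at i1
      rw [e2] at i2
      have hsum : ∫ θ in (c - len m / 2)..(c + len m / 2), g θ =
          (∫ θ in (c - len m / 2)..(c - lm m + len (m + 1) / 2), g θ) +
          (∫ θ in (c - lm m + len (m + 1) / 2)..(c + lm m - len (m + 1) / 2), g θ) +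
          ∫ θ in (c + lm m - len (m + 1) / 2)..(c + len m / 2), g θ := by
        rw [intervalIntegral.integral_add_adjacent_intervals (hgi _ _) (hgi _ _),
          intervalIntegral.integral_add_adjacent_intervals (hgi _ _) (hgi _ _)]
      have hgap : len (m + 1) / 2 ≤ 3 / 4 * lm m := by
        rw [hls, hlmd]
        unfold rh
        linarith
      have hmid : (if m₀ ≤ m then κ * s / 4 * (1 / 2) ^ m else 0) ≤
          ∫ θ in (c - lm m + len (m + 1) / 2)..(c + lm m - len (m + 1) / 2), g θ := by
        split_ifs with hm0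
        · have hrm : 1 - lm m / 8 ≤ r := by
            have := sumT_lm_anti hmN
            linarith
          obtain ⟨α, hα1, hα2, hα⟩ := hB m hm0 c R hR r hrm hr1
          have hκl : 0 < κ * lm m := mul_pos hκ hlm
          have h1 : ∫ θ in (c - lm m + len (m + 1) / 2)..(c + lm m - len (m + 1) / 2), g θ =
              (∫ θ in (c - lm m + len (m + 1) / 2)..α, g θ) +
              (∫ θ in α..(α + κ * lm m), g θ) +
              ∫ θ in (α + κ * lm m)..(c + lm m - len (m + 1) / 2), g θ := by
            rw [intervalIntegral.integral_add_adjacent_intervals (hgi _ _) (hgi _ _),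
              intervalIntegral.integral_add_adjacent_intervals (hgi _ _) (hgi _ _)]
          have h2 := hnn (c - lm m + len (m + 1) / 2) α (by linarith)
          have h3 := hnn (α + κ * lm m) (c + lm m - len (m + 1) / 2) (by linarith)
          have h4 : ∫ _θ in α..(α + κ * lm m), s * hm m / 4 ≤ ∫ θ in α..(α + κ * lm m), g θ := by
            refine intervalIntegral.integral_mono_on (by linarith)
              intervalIntegrable_const (hgi _ _) fun θ hθ => ?_
            rw [hg]
            exact hα θ hθ
          rw [intervalIntegral.integral_const, smul_eq_mul] at h4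
          have h5 : (α + κ * lm m - α) * (s * hm m / 4) = κ * s / 4 * (1 / 2) ^ m := by
            rw [← sumT_lm_hm m]
            ring
          rw [h5] at h4
          rw [h1]
          linarith
        · exact hnn _ _ (by linarith)
      rw [hsum]
      refine le_trans ?_ (add_le_add (add_le_add i1 hmid) i2)
      rw [pow_succ]
      have hpos : 0 < κ * s / 4 * (1 / 2) ^ m := by positivity
      split_ifs with hm0
      · have h1 : max (m : ℝ) m₀ = m := max_eq_left (by exact_mod_cast hm0)
        have h2 : max ((m + 1 : ℕ) : ℝ) m₀ = m + 1 := by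
          rw [max_eq_left (by exact_mod_cast hm0.trans (Nat.le_succ m))]
          push_cast
          ring
        rw [h1, h2]
        refine le_of_eq ?_
        ring
      · have h3 : m + 1 ≤ m₀ := by omega
        have h1 : max (m : ℝ) m₀ = m₀ := max_eq_right (by exact_mod_cast (Nat.le_of_succ_le h3))
        have h2 : max ((m + 1 : ℕ) : ℝ) m₀ = m₀ := max_eq_right (by exact_mod_cast h3)
        rw [h1, h2]
        refine le_of_eq ?_
        ring
  have h := key (N + 1) 0 (by omega) 0 _ node_zero
  have e0 : len 0 = l0 := by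
    unfold len
    rw [pow_zero, mul_one]
  rw [e0, zero_sub, zero_add, pow_zero, mul_one, Nat.cast_zero,
    max_eq_right (Nat.cast_nonneg m₀)] at h
  rw [hg] at h
  exact h

end Pool.Agent.MP4b24a5.T3
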