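import Pool.Agent.Lib.MP_4b24a5_an_T3.PhiB
import Pool.Agent.Lib.MP_4b24a5_an_T3.KerM

set_option autoImplicit false

/-!
# MP_4b24a5_an, project T3: a majorant of the real part of H along radii
-/

noncomputable section

namespace Pool.Agent.MP4b24a5.T3

open Complex Metric Set MeasureTheory Filter Topology

private theorem upH_smul (c : ℝ) (F : ℝ → ℝ) (N : ℕ) : ∀ x l : ℝ,
    Av (fun y => c * F y) N x l = c * Av F N x l := by
  induction N with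
  | zero => intro x l; rfl
  | succ N ih =>
    intro x l
    simp only [Av, ih, smul_eq_mul]
    ring

private theorem upH_kk {z : ℂ} (hz : ‖z‖ < 1) {t : ℝ} (ht : t ∈ Icc (0 : ℝ) 1) (x : ℝ) :
    (kk x (t * z)).re ≤ 4 * ‖pt x - z‖⁻¹ := by
  have hw : ‖(t : ℂ) * z‖ = t * ‖z‖ := by
    rw [norm_mul, Complex.norm_real, Real.norm_eq_abs, abs_of_nonneg ht.1]
  have hle : t * ‖z‖ ≤ ‖z‖ := mul_le_of_le_one_left (norm_nonneg z) ht.2
  have hw1 : ‖(t : ℂ) * z‖ < 1 := by rw [hw]; exact hle.trans_lt hz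
  rw [kk_re hw1, hw]
  have h1 : 1 - t * ‖z‖ ≤ ‖pt x - t * z‖ := by
    have h := norm_sub_norm_le (pt x) (t * z)
    rwa [norm_pt, hw] at h
  have h0 : 0 < 1 - t * ‖z‖ := by linarith
  have h2 : 0 < ‖pt x - t * z‖ := h0.trans_le h1
  have h3 : ‖pt x - z‖ ≤ 2 * ‖pt x - t * z‖ := by
    have h4 : ‖pt x - z‖ ≤ ‖pt x - t * z‖ + ‖(t : ℂ) * z - z‖ := by
      have h5 : pt x - z = (pt x - t * z) + (t * z - z) := by ring
      calc ‖pt x - z‖ = ‖(pt x - t * z) + (t * z - z)‖ := by rw [← h5]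
        _ ≤ _ := norm_add_le _ _
    have h6 : ‖(t : ℂ) * z - z‖ = (1 - t) * ‖z‖ := by
      have h7 : (t : ℂ) * z - z = ((t - 1 : ℝ) : ℂ) * z := by push_cast; ring
      rw [h7, norm_mul, Complex.norm_real, Real.norm_eq_abs, abs_of_nonpos (by linarith [ht.2])]
      ring
    have h8 : (1 - t) * ‖z‖ ≤ 1 - t * ‖z‖ := by nlinarith
    linarith
  have h9 : 0 < ‖pt x - z‖ := by
    have h := norm_sub_norm_le (pt x) z
    rw [norm_pt] at h
    linarith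
  have h10 : (1 - (t * ‖z‖) ^ 2) / ‖pt x - t * z‖ ^ 2 ≤ 2 / ‖pt x - t * z‖ := by
    rw [div_le_div_iff₀ (by positivity) h2]
    have h11 : 1 - (t * ‖z‖) ^ 2 ≤ 2 * ‖pt x - t * z‖ := by
      have h12 : 0 ≤ t * ‖z‖ := mul_nonneg ht.1 (norm_nonneg z)
      nlinarith
    nlinarith [mul_le_mul_of_nonneg_right h11 h2.le]
  refine h10.trans ?_
  rw [← div_eq_mul_inv, div_le_div_iff₀ h2 h9]
  linarith

/-- PROOF. Take `N` with `4 / (1 - r) ^ 2 * (rh ^ N * l0) ≤ 1` and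
`u z = 1 + 4 * Av (fun x => ‖pt x - z‖⁻¹) N 0 l0`. For `‖z‖ = r` and `t ∈ [0, 1]`:
`re kk x (t z) ≤ (1 - ‖t z‖ ^ 2) / ‖pt x - t z‖ ^ 2 ≤ 2 / ‖pt x - t z‖ ≤ 4 / ‖pt x - z‖`, since
`1 - ‖t z‖ ≤ ‖pt x - t z‖` and `‖pt x - z‖ ≤ ‖pt x - t z‖ + (1 - t) r ≤ 2 ‖pt x - t z‖`. Now
`phi_approx` (at the point `t z`, of norm at most `r`), `av_re`, `av_mono`, `av_circle`, `kerM`. -/
theorem upH : ∃ C : ℝ, 0 < C ∧ ∀ r : ℝ, 1 / 2 ≤ r → r < 1 → ∃ u : ℂ → ℝ,
    CircleIntegrable u 0 r ∧ Real.circleAverage u 0 r ≤ C * (1 + L r) ∧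
      ∀ z : ℂ, ‖z‖ = r → ∀ t ∈ Icc (0 : ℝ) 1, (HH (t * z)).re ≤ u z := by
  obtain ⟨C₀, hC₀, hker⟩ := kerM
  refine ⟨1 + 4 * C₀, by positivity, fun r hr hr1 => ?_⟩
  have hl0 : (0 : ℝ) ≤ l0 := by unfold l0; norm_num
  have hrh : (0 : ℝ) ≤ rh ∧ rh < 1 := by unfold rh; constructor <;> norm_num
  obtain ⟨N, hN⟩ : ∃ N : ℕ, 4 / (1 - r) ^ 2 * (rh ^ N * l0) ≤ 1 := by
    have h1 : Tendsto (fun N : ℕ => 4 / (1 - r) ^ 2 * (rh ^ N * l0)) atTop
        (𝓝 (4 / (1 - r) ^ 2 * (0 * l0))) :=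
      ((tendsto_pow_atTop_nhds_zero_of_lt_one hrh.1 hrh.2).mul_const l0).const_mul _
    rw [zero_mul, mul_zero] at h1
    exact ((h1.eventually_lt_const one_pos).exists).imp fun _ h => h.le
  obtain ⟨hci, hca⟩ := av_circle (F := fun z x => ‖pt x - z‖⁻¹) (r := r) (B := C₀ * (1 + L r))
    (fun x => (hker r hr hr1 x).1) (fun x => (hker r hr hr1 x).2) N 0 l0
  have hLr : 0 ≤ L r := by
    unfold L
    exact neg_nonneg.mpr (Real.log_nonpos (by linarith) (by linarith))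
  refine ⟨fun z => 1 + 4 * Av (fun x => ‖pt x - z‖⁻¹) N 0 l0, ?_, ?_, ?_⟩
  · exact (circleIntegrable_const 1 0 r).add (hci.const_smul (a := (4 : ℝ)))
  · have h1 : Real.circleAverage (fun z => 1 + 4 * Av (fun x => ‖pt x - z‖⁻¹) N 0 l0) 0 r =
        1 + 4 * Real.circleAverage (fun z => Av (fun x => ‖pt x - z‖⁻¹) N 0 l0) 0 r := by
      have h2 := Real.circleAverage_add (circleIntegrable_const (1 : ℝ) 0 r)
        (hci.const_smul (a := (4 : ℝ)))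
      rw [Real.circleAverage_smul, Real.circleAverage_const] at h2
      exact h2
    rw [h1]
    nlinarith
  · intro z hz t ht
    have hz1 : ‖z‖ < 1 := by rw [hz]; exact hr1
    have hw : ‖(t : ℂ) * z‖ ≤ r := by
      rw [norm_mul, Complex.norm_real, Real.norm_eq_abs, abs_of_nonneg ht.1, hz]
      exact mul_le_of_le_one_left (by linarith) ht.2
    have hw1 : ‖(t : ℂ) * z‖ < 1 := hw.trans_lt hr1
    have h1 := phi_approx hw1 (c := 0) hl0 N
    have h2 : 4 / (1 - ‖(t : ℂ) * z‖) ^ 2 * (rh ^ N * l0) ≤ 4 / (1 - r) ^ 2 * (rh ^ N * l0) := by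
      refine mul_le_mul_of_nonneg_right ?_ (mul_nonneg (pow_nonneg hrh.1 N) hl0)
      have h3 : 0 < 1 - r := by linarith
      refine div_le_div_of_nonneg_left (by norm_num) (by positivity) ?_
      exact pow_le_pow_left₀ h3.le (by linarith) 2
    have h3 : (HH (t * z)).re - (Av (fun x => kk x (t * z)) N 0 l0).re ≤ 1 := by
      have h4 := (Complex.re_le_norm (HH (t * z) - Av (fun x => kk x (t * z)) N 0 l0))
      rw [Complex.sub_re] at h4
      exact h4.trans (h1.trans (h2.trans hN))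
    rw [av_re] at h3
    have h5 := av_mono hl0 (F := fun x => (kk x (t * z)).re) (G := fun x => 4 * ‖pt x - z‖⁻¹)
      (c := 0) (fun x _ => upH_kk hz1 ht x) N
    rw [upH_smul] at h5
    linarith

end Pool.Agent.MP4b24a5.T3
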